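import Mathlib
import Pool.Agent.H382R3.FP.Norm2

/-!
# Additivity of the `L^p` norm over disjointly supported parts (helper382, for MP_3ad462_an)
-/

set_option autoImplicit false
set_option linter.unusedSectionVars false

open scoped ENNReal ComplexConjugate
open MeasureTheory

namespace H382FP

section loc

variable {p : ℝ≥0∞} [Fact (1 ≤ p)] [hpt : Fact (p ≠ ∞)]
variable {Y : Type*} [MeasurableSpace Y] {μ : Measure Y}

/-- local operators -/
def Loc (P : Lp ℂ p μ →L[ℂ] Lp ℂ p μ) : Prop := ∀ f g : Lp ℂ p μ, Disj f g → Disj f (P g)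

lemma Loc.mul {P Q : Lp ℂ p μ →L[ℂ] Lp ℂ p μ} (hP : Loc P) (hQ : Loc Q) : Loc (P * Q) :=
  fun f g h => hP f (Q g) (hQ f g h)

lemma Loc.pow {P : Lp ℂ p μ →L[ℂ] Lp ℂ p μ} (hP : Loc P) (n : ℕ) : Loc (P ^ n) := by
  induction n with
  | zero => rw [pow_zero]; exact fun f g h => h
  | succ n ih => rw [pow_succ]; exact ih.mul hP

lemma disj_neg {f g : Lp ℂ p μ} (h : Disj f g) : Disj f (-g) := by
  unfold Disj at h ⊢
  filter_upwards [h, Lp.coeFn_neg g] with x h1 h2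
  rw [h2, Pi.neg_apply, mul_neg, h1, neg_zero]

lemma loc_of_close (hp2 : p ≠ 2) (U : Lp ℂ p μ →L[ℂ] Lp ℂ p μ) (hU : ∀ f, ‖U f‖ = ‖f‖)
    (hc : ∀ f, f ≠ 0 → ‖U f - f‖ < ‖f‖) : Loc U := by
  intro f g hfg
  have hm : AEStronglyMeasurable f μ := Lp.aestronglyMeasurable f
  set f' := hm.mk f with hf'
  have hS : MeasurableSet {x | f' x = 0}ᶜ :=
    ((hm.stronglyMeasurable_mk.measurable) (MeasurableSet.singleton 0)).compl
  set S := {x | f' x = 0}ᶜ with hSdef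
  set w := ind S hS (U g) with hw
  have h1 : Disj w g := by
    unfold Disj at hfg ⊢
    filter_upwards [ind_coe S hS (U g), hm.ae_eq_mk, hfg] with x hx1 hx2 hx3
    rw [← hw] at hx1
    rw [hx1]
    by_cases hx : x ∈ S
    · have hne : f x ≠ 0 := by rw [hx2]; exact hx
      rw [(mul_eq_zero.1 hx3).resolve_left hne, mul_zero]
    · rw [Set.indicator_of_notMem hx, zero_mul]
  have h2 := disj_of_isometry hp2 U hU h1
  have h3 : Disj (U w) (-w) := by
    apply disj_neg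
    unfold Disj at h2 ⊢
    filter_upwards [ind_coe S hS (U g), h2] with x hx1 hx2
    rw [← hw] at hx1
    by_cases hx : x ∈ S
    · rw [hx1, Set.indicator_of_mem hx]; exact hx2
    · rw [hx1, Set.indicator_of_notMem hx, mul_zero]
  have h4 : w = 0 := by
    by_contra hne
    have h5 := norm_add_rpow_of_disj h3
    rw [← sub_eq_add_neg, norm_neg] at h5
    have h6 := Real.rpow_lt_rpow (norm_nonneg _) (hc w hne) (pr_pos' (p := p))
    have h7 : 0 ≤ ‖U w‖ ^ p.toReal := by positivity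
    linarith
  unfold Disj
  have h8 : ∀ᵐ x ∂μ, w x = 0 := by
    rw [h4]
    filter_upwards [Lp.coeFn_zero ℂ p μ] with x hx
    rw [hx]; rfl
  filter_upwards [ind_coe S hS (U g), hm.ae_eq_mk, h8] with x hx1 hx2 hx3
  rw [← hw, hx3] at hx1
  by_cases hx : x ∈ S
  · rw [Set.indicator_of_mem hx] at hx1
    rw [← hx1, mul_zero]
  · have : f x = 0 := by
      rw [hx2]
      by_contra hne
      exact hx hne
    rw [this, zero_mul]

lemma Loc.vanish {P : Lp ℂ p μ →L[ℂ] Lp ℂ p μ} (hP : Loc P) (f : Lp ℂ p μ) :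
    ∀ᵐ x ∂μ, f x = 0 → P f x = 0 := by
  have hm : AEStronglyMeasurable f μ := Lp.aestronglyMeasurable f
  set f' := hm.mk f with hf'
  have hS : MeasurableSet {x | f' x = 0} :=
    (hm.stronglyMeasurable_mk.measurable) (MeasurableSet.singleton 0)
  set S := {x | f' x = 0} with hSdef
  set w := ind S hS (P f) with hw
  have h1 : Disj w f := by
    unfold Disj
    filter_upwards [ind_coe S hS (P f), hm.ae_eq_mk] with x hx1 hx2
    rw [← hw] at hx1
    rw [hx1]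
    by_cases hx : x ∈ S
    · have : f x = 0 := by rw [hx2]; exact hx
      rw [this, mul_zero]
    · rw [Set.indicator_of_notMem hx, zero_mul]
  have h2 := hP _ _ h1
  unfold Disj at h2
  filter_upwards [h2, ind_coe S hS (P f), hm.ae_eq_mk] with x hx1 hx2 hx3 hx4
  rw [← hw] at hx2
  have hxS : x ∈ S := by
    show f' x = 0
    rw [hf', ← hx3]; exact hx4
  rw [hx2, Set.indicator_of_mem hxS] at hx1
  exact mul_self_eq_zero.1 hx1

lemma Loc.ind_comm {P : Lp ℂ p μ →L[ℂ] Lp ℂ p μ} (hP : Loc P) (S : Set Y) (hS : MeasurableSet S)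
    (f : Lp ℂ p μ) : P (ind S hS f) = ind S hS (P f) := by
  apply Lp.ext
  have h0 : P f = P (ind S hS f) + P (ind Sᶜ hS.compl f) := by
    rw [← map_add, ind_add_compl]
  have h1 := hP.vanish (ind S hS f)
  have h2 := hP.vanish (ind Sᶜ hS.compl f)
  filter_upwards [h1, h2, ind_coe S hS f, ind_coe Sᶜ hS.compl f, ind_coe S hS (P f),
    Lp.coeFn_add (P (ind S hS f)) (P (ind Sᶜ hS.compl f))] with x a1 a2 a3 a4 a5 a6
  rw [a5]
  by_cases hx : x ∈ S
  · rw [Set.indicator_of_mem hx]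
    have h3 : P (ind Sᶜ hS.compl f) x = 0 := by
      apply a2
      rw [a4, Set.indicator_of_notMem]
      simpa using hx
    rw [h0, a6, Pi.add_apply, h3, add_zero]
  · rw [Set.indicator_of_notMem hx]
    apply a1
    rw [a3, Set.indicator_of_notMem hx]

end loc

section pi

variable {X : Type} [TopologicalSpace X] [CompactSpace X]
variable {p : ℝ≥0∞} [Fact (1 ≤ p)] [hpt : Fact (p ≠ ∞)]
variable {Y : Type} [MeasurableSpace Y] {μ : Measure Y}

/-- `a` is supported in `F` for the representation `π₀` -/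
def SP (π₀ : C(X, ℂ) →ₐ[ℂ] (Lp ℂ p μ →L[ℂ] Lp ℂ p μ)) (F : Set X) (a : Lp ℂ p μ) : Prop :=
  ∀ (u : C(X, ℂ)) (c : ℂ), (∀ x ∈ F, u x = c) → π₀ u a = c • a

variable {π₀ : C(X, ℂ) →ₐ[ℂ] (Lp ℂ p μ →L[ℂ] Lp ℂ p μ)}

lemma SP_of (f : C(X, ℂ)) {F : Set X} (hf : ∀ x, x ∉ F → f x = 0) (ξ : Lp ℂ p μ) :
    SP π₀ F (π₀ f ξ) := by
  intro u c hu
  have h1 : u * f = c • f := by
    ext x
    by_cases hx : x ∈ F
    · simp [hu x hx]
    · simp [hf x hx]
  have h2 : π₀ u (π₀ f ξ) = π₀ (u * f) ξ := by rw [map_mul]; rfl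
  rw [h2, h1, map_smul]; rfl

lemma SP.mono {F F' : Set X} (hFF : F ⊆ F') {a : Lp ℂ p μ} (h : SP π₀ F a) : SP π₀ F' a :=
  fun u c hu => h u c fun x hx => hu x (hFF hx)

lemma SP.add {F : Set X} {a b : Lp ℂ p μ} (ha : SP π₀ F a) (hb : SP π₀ F b) :
    SP π₀ F (a + b) := fun u c hu => by rw [map_add, ha u c hu, hb u c hu, smul_add]

lemma SP_zero (F : Set X) : SP π₀ F (0 : Lp ℂ p μ) := fun u c _ => by simp

lemma SP_sum {ι : Type*} (s : Finset ι) {F : Set X} (a : ι → Lp ℂ p μ)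
    (ha : ∀ i ∈ s, SP π₀ F (a i)) : SP π₀ F (∑ i ∈ s, a i) := by
  classical
  induction s using Finset.induction_on with
  | empty => simpa using SP_zero F
  | insert i s hi ih =>
    rw [Finset.sum_insert hi]
    exact (ha i (Finset.mem_insert_self _ _)).add
      (ih fun j hj => ha j (Finset.mem_insert_of_mem hj))

/-- the unimodular function `exp (i t ρ)` -/
noncomputable def uf (ρ : C(X, ℝ)) (t : ℝ) : C(X, ℂ) :=
  ⟨fun x => Complex.exp (Complex.I * ((t * ρ x : ℝ) : ℂ)), by fun_prop⟩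

lemma uf_apply (ρ : C(X, ℝ)) (t : ℝ) (x : X) :
    uf ρ t x = Complex.exp (Complex.I * ((t * ρ x : ℝ) : ℂ)) := rfl

lemma uf_norm (ρ : C(X, ℝ)) (t : ℝ) : ‖uf ρ t‖ ≤ 1 := by
  rw [ContinuousMap.norm_le _ zero_le_one]
  intro x
  rw [uf_apply, mul_comm, Complex.norm_exp_ofReal_mul_I]

lemma uf_mul (ρ : C(X, ℝ)) (s t : ℝ) : uf ρ s * uf ρ t = uf ρ (s + t) := by
  ext x
  rw [ContinuousMap.mul_apply, uf_apply, uf_apply, uf_apply, ← Complex.exp_add]
  congr 1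
  push_cast
  ring

lemma uf_zero (ρ : C(X, ℝ)) : uf ρ 0 = 1 := by
  ext x
  rw [uf_apply]; simp

lemma uf_isom (hπ : ∀ f, ‖π₀ f‖ ≤ ‖f‖) (ρ : C(X, ℝ)) (t : ℝ) (f : Lp ℂ p μ) :
    ‖π₀ (uf ρ t) f‖ = ‖f‖ := by
  apply isom_of_inv hπ (v := uf ρ (-t)) _ (uf_norm _ _) (uf_norm _ _)
  rw [uf_mul, neg_add_cancel, uf_zero]

lemma uf_close (hπ : ∀ f, ‖π₀ f‖ ≤ ‖f‖) {ρ : C(X, ℝ)} (hρ : ∀ x, |ρ x| ≤ 1) {t : ℝ}
    (ht0 : 0 ≤ t) (ht : t < 1) {f : Lp ℂ p μ} (hf : f ≠ 0) : ‖π₀ (uf ρ t) f - f‖ < ‖f‖ := by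
  have h1 : π₀ (uf ρ t) f - f = π₀ (uf ρ t - 1) f := by
    rw [map_sub, map_one]; rfl
  have h2 : ‖uf ρ t - 1‖ ≤ t := by
    rw [ContinuousMap.norm_le _ ht0]
    intro x
    rw [ContinuousMap.sub_apply, uf_apply, ContinuousMap.one_apply]
    refine (Real.norm_exp_I_mul_ofReal_sub_one_le).trans ?_
    rw [Real.norm_eq_abs, abs_mul, abs_of_nonneg ht0]
    exact mul_le_of_le_one_right ht0 (hρ x)
  rw [h1]
  have hf' : 0 < ‖f‖ := norm_pos_iff.2 hf
  calc ‖π₀ (uf ρ t - 1) f‖ ≤ ‖π₀ (uf ρ t - 1)‖ * ‖f‖ := (π₀ _).le_opNorm f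
    _ ≤ t * ‖f‖ := by
      have := (hπ (uf ρ t - 1)).trans h2
      gcongr
    _ < ‖f‖ := by nlinarith

lemma uf_loc (hp2 : p ≠ 2) (hπ : ∀ f, ‖π₀ f‖ ≤ ‖f‖) {ρ : C(X, ℝ)} (hρ : ∀ x, |ρ x| ≤ 1) {t : ℝ}
    (ht0 : 0 ≤ t) (ht : t / 4 < 1) : Loc (π₀ (uf ρ t)) := by
  have h1 : Loc (π₀ (uf ρ (t / 4))) := loc_of_close hp2 _ (uf_isom hπ ρ _)
    (fun f hf => uf_close hπ hρ (by positivity) ht hf)
  have h2 : uf ρ t = (uf ρ (t / 4)) ^ 4 := by
    rw [show (4 : ℕ) = 2 + 2 from rfl, pow_add, pow_two, uf_mul, uf_mul]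
    congr 1
    ring
  rw [h2, map_pow]
  exact h1.pow 4

lemma uf_modulus (hp2 : p ≠ 2) (hπ : ∀ f, ‖π₀ f‖ ≤ ‖f‖) {ρ : C(X, ℝ)} (hρ : ∀ x, |ρ x| ≤ 1)
    {t : ℝ} (ht0 : 0 ≤ t) (ht : t / 4 < 1) (f : Lp ℂ p μ) :
    ∀ᵐ x ∂μ, ‖π₀ (uf ρ t) f x‖ = ‖f x‖ :=
  modulus_of_comm (fun f => π₀ (uf ρ t) f) (uf_isom hπ ρ t)
    (fun S hS f => (uf_loc hp2 hπ hρ ht0 ht).ind_comm S hS f) f

/-- **additivity for two disjointly supported elements** -/
lemma SP.norm_add [NormalSpace X] (hπ : ∀ f, ‖π₀ f‖ ≤ ‖f‖) {F G : Set X} (hF : IsClosed F)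
    (hG : IsClosed G) (hFG : Disjoint F G) {a b : Lp ℂ p μ} (ha : SP π₀ F a) (hb : SP π₀ G b) :
    ‖a + b‖ ^ p.toReal = ‖a‖ ^ p.toReal + ‖b‖ ^ p.toReal := by
  obtain ⟨ρ, h0, h1, h2⟩ := exists_continuous_zero_one_of_isClosed hF hG hFG
  have hact : ∀ t : ℝ, π₀ (uf ρ t) (a + b) = a + Complex.exp (Complex.I * (t : ℂ)) • b := by
    intro t
    rw [map_add, ha (uf ρ t) 1, hb (uf ρ t) (Complex.exp (Complex.I * (t : ℂ))), one_smul]
    · intro x hx
      have h3 : ρ x = 1 := h1 hx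
      rw [uf_apply, h3, mul_one]
    · intro x hx
      have h3 : ρ x = 0 := h0 hx
      rw [uf_apply, h3]
      simp
  have eπ : Complex.exp (Complex.I * (Real.pi : ℂ)) = -1 := by
    rw [mul_comm, Complex.exp_pi_mul_I]
  have eh : Complex.exp (Complex.I * ((Real.pi / 2 : ℝ) : ℂ)) = Complex.I := by
    rw [mul_comm]
    push_cast
    exact Complex.exp_pi_div_two_mul_I
  have em : Complex.exp (Complex.I * ((-(Real.pi / 2) : ℝ) : ℂ)) = -Complex.I := by
    rw [mul_comm]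
    push_cast
    rw [neg_mul, Complex.exp_neg, Complex.exp_pi_div_two_mul_I, Complex.inv_I]
  have hpi : Real.pi < 4 := by
    have := Real.pi_lt_d2
    linarith
  have hρ : ∀ x, |ρ x| ≤ 1 := fun x => abs_le.2 ⟨by linarith [(h2 x).1], (h2 x).2⟩
  by_cases hp2 : p = 2
  · subst hp2
    have n1 : ‖a - b‖ = ‖a + b‖ := by
      have h3 := uf_isom hπ ρ Real.pi (a + b)
      rw [hact, eπ, neg_one_smul, ← sub_eq_add_neg] at h3
      exact h3
    have n2 : ‖a + Complex.I • b‖ = ‖a + b‖ := by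
      have h3 := uf_isom hπ ρ (Real.pi / 2) (a + b)
      rw [hact, eh] at h3
      exact h3
    have n3 : ‖a - Complex.I • b‖ = ‖a + b‖ := by
      have h3 := uf_isom hπ ρ (-(Real.pi / 2)) (a + b)
      rw [hact, em, neg_smul, ← sub_eq_add_neg] at h3
      exact h3
    have hin : inner ℂ a b = 0 := by
      have h4 := inner_eq_sum_norm_sq_div_four (𝕜 := ℂ) a b
      have h5 : (RCLike.I : ℂ) = Complex.I := rfl
      rw [h5, n1, n2, n3] at h4
      rw [h4]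
      simp
    have h5 := norm_add_sq_eq_norm_sq_add_norm_sq_of_inner_eq_zero a b hin
    have h6 : (2 : ℝ≥0∞).toReal = 2 := by simp
    rw [h6]
    have h7 : ∀ z : ℝ, z ^ (2 : ℝ) = z * z := fun z => by
      rw [← pow_two]; exact Real.rpow_two z
    rw [h7, h7, h7]
    exact h5
  · apply norm_add_rpow_of_disj
    have m1 := uf_modulus (μ := μ) hp2 hπ hρ Real.pi_pos.le (by linarith) (a + b)
    have m2 := uf_modulus (μ := μ) hp2 hπ hρ (t := Real.pi / 2) (by positivity) (by linarith) (a + b)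
    rw [hact, eπ] at m1
    rw [hact, eh] at m2
    unfold Disj
    filter_upwards [m1, m2, Lp.coeFn_add a b, Lp.coeFn_add a ((-1 : ℂ) • b),
      Lp.coeFn_smul (-1 : ℂ) b, Lp.coeFn_add a (Complex.I • b), Lp.coeFn_smul Complex.I b]
      with x k1 k2 k3 k4 k5 k6 k7
    rw [k4, k3, Pi.add_apply, Pi.add_apply, k5, Pi.smul_apply, smul_eq_mul] at k1
    rw [k6, k3, Pi.add_apply, Pi.add_apply, k7, Pi.smul_apply, smul_eq_mul] at k2
    apply prod_zero_of_norms _ k2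
    rw [← k1]
    congr 1
    ring

/-- **additivity for finitely many disjointly supported elements** -/
lemma SP.norm_sum [NormalSpace X] (hπ : ∀ f, ‖π₀ f‖ ≤ ‖f‖) {ι : Type*} (s : Finset ι)
    {F : ι → Set X} (hF : ∀ i ∈ s, IsClosed (F i))
    (hd : ∀ i ∈ s, ∀ j ∈ s, i ≠ j → Disjoint (F i) (F j)) {a : ι → Lp ℂ p μ}
    (ha : ∀ i ∈ s, SP π₀ (F i) (a i)) :
    ‖∑ i ∈ s, a i‖ ^ p.toReal = ∑ i ∈ s, ‖a i‖ ^ p.toReal := by
  classical
  induction s using Finset.induction_on with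
  | empty => simp [Real.zero_rpow (pr_pos' (p := p)).ne']
  | insert i s hi ih =>
    rw [Finset.sum_insert hi, Finset.sum_insert hi]
    have hG : IsClosed (⋃ j ∈ s, F j) := by
      apply Set.Finite.isClosed_biUnion s.finite_toSet
      intro j hj
      exact hF j (Finset.mem_insert_of_mem hj)
    have hdis : Disjoint (F i) (⋃ j ∈ s, F j) := by
      rw [Set.disjoint_iUnion₂_right]
      intro j hj
      apply hd i (Finset.mem_insert_self _ _) j (Finset.mem_insert_of_mem hj)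
      rintro rfl
      exact hi hj
    have hb : SP π₀ (⋃ j ∈ s, F j) (∑ j ∈ s, a j) := by
      apply SP_sum
      intro j hj
      exact (ha j (Finset.mem_insert_of_mem hj)).mono (Set.subset_biUnion_of_mem hj)
    rw [SP.norm_add hπ (hF i (Finset.mem_insert_self _ _)) hG hdis
      (ha i (Finset.mem_insert_self _ _)) hb, ih]
    · intro j hj
      exact hF j (Finset.mem_insert_of_mem hj)
    · intro j hj k hk hjk
      exact hd j (Finset.mem_insert_of_mem hj) k (Finset.mem_insert_of_mem hk) hjk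
    · intro j hj
      exact ha j (Finset.mem_insert_of_mem hj)

end pi

end H382FP
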