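import Mathlib
import Pool.Agent.H382R3.FG.Loc
import Pool.Agent.H382R3.FP.Ev

/-!
# Window elements with continuous coefficients (helper382, for MP_3ad462_an)
-/

set_option autoImplicit false
set_option linter.unusedSectionVars false

open scoped ENNReal
open MeasureTheory Topology

namespace H382FP

variable {p : ℝ≥0∞} [Fact (1 ≤ p)] [hpt : Fact (p ≠ ∞)]
variable {X : Type} [TopologicalSpace X] [CompactSpace X] {h : X ≃ₜ X}

lemma hz_add (x : X) (m n : ℤ) : (h ^ m) ((h ^ n) x) = (h ^ (m + n)) x := by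
  rw [zpow_add]; rfl

lemma hz_zero (x : X) : (h ^ (0 : ℤ)) x = x := rfl

/-- the composition with `h^n` -/
noncomputable def tr (h : X ≃ₜ X) (n : ℤ) (f : C(X, ℂ)) : C(X, ℂ) := f.comp ((h ^ n : X ≃ₜ X) : C(X, X))

lemma tr_apply (n : ℤ) (f : C(X, ℂ)) (x : X) : tr h n f x = f ((h ^ n) x) := rfl

lemma norm_tr_le (n : ℤ) (f : C(X, ℂ)) : ‖tr h n f‖ ≤ ‖f‖ := norm_comp_le _ _

/-- the window element with matrix function `T` -/
noncomputable def cel (R : ℤ) (T : ℤ → ℤ → C(X, ℂ)) : CC p X h :=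
  ∑ t ∈ Finset.Ico 0 R, ∑ j ∈ Finset.Ico 0 R, sgl (t - j) (tr h (-t) (T t j))

lemma ev_cel (R : ℤ) (T : ℤ → ℤ → C(X, ℂ)) (x : X) (ξ : ℤ → ℂ) (i : ℤ) :
    ev x (cel R T : CC p X h) ξ i = ∑ t ∈ Finset.Ico 0 R, ∑ j ∈ Finset.Ico 0 R,
      T t j ((h ^ (i - t)) x) * ξ (i - t + j) := by
  unfold cel
  rw [map_sum, LinearMap.sum_apply, Finset.sum_apply]
  apply Finset.sum_congr rfl
  intro t _
  rw [map_sum, LinearMap.sum_apply, Finset.sum_apply]
  apply Finset.sum_congr rfl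
  intro j _
  rw [ev_sgl, tr_apply, hz_add, neg_add_eq_sub]
  congr 2
  ring

/-- separation: different visits to `F` are at distance at least `R` -/
def Sep (h : X ≃ₜ X) (F : Set X) (R : ℤ) : Prop :=
  ∀ x ∈ F, ∀ k : ℤ, 0 < k → k < R → (h ^ k) x ∉ F

lemma Sep.ne {F : Set X} {R : ℤ} (hS : Sep h F R) {x : X} {m n : ℤ} (hm : (h ^ m) x ∈ F)
    (hn : (h ^ n) x ∈ F) (h1 : m - n < R) (h2 : n - m < R) : m = n := by
  rcases lt_trichotomy m n with hlt | heq | hgt
  · exfalso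
    apply hS _ hm (n - m) (by omega) h2
    rw [hz_add, sub_add_cancel]; exact hn
  · exact heq
  · exfalso
    apply hS _ hn (m - n) (by omega) h1
    rw [hz_add, sub_add_cancel]; exact hm

/-- the entries vanish off `F` -/
def Off (F : Set X) (T : ℤ → ℤ → C(X, ℂ)) : Prop := ∀ t j x, x ∉ F → T t j x = 0

lemma cel_mul {F : Set X} {R : ℤ} (hS : Sep h F R) {T T' : ℤ → ℤ → C(X, ℂ)} (hT : Off F T)
    (hT' : Off F T') :
    (cel R T * cel R T' : CC p X h) =
      cel R (fun t j => ∑ k ∈ Finset.Ico 0 R, T t k * T' k j) := by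
  apply CC.ext
  intro x ξ
  rw [ev_mul_apply, ev_cel, ev_cel]
  apply Finset.sum_congr rfl
  intro t ht
  rw [Finset.mem_Ico] at ht
  have e1 : ∀ k ∈ Finset.Ico (0 : ℤ) R, T t k ((h ^ (0 - t)) x) *
      ev x (cel R T' : CC p X h) ξ (0 - t + k) =
      ∑ j ∈ Finset.Ico 0 R, T t k ((h ^ (0 - t)) x) * (T' k j ((h ^ (0 - t)) x) * ξ (0 - t + j)) := by
    intro k hk
    rw [Finset.mem_Ico] at hk
    by_cases hx : (h ^ (0 - t)) x ∈ F
    · rw [ev_cel, Finset.sum_eq_single k, Finset.mul_sum]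
      · apply Finset.sum_congr rfl
        intro j _
        congr 3
        · congr 1; ring_nf
        · ring
      · intro t' ht' hne
        rw [Finset.mem_Ico] at ht'
        apply Finset.sum_eq_zero
        intro j _
        rw [hT', zero_mul]
        intro hmem
        have := hS.ne hmem hx (by omega) (by omega)
        omega
      · intro hk'
        rw [Finset.mem_Ico] at hk'
        exact absurd hk hk'
    · rw [hT t k _ hx, zero_mul, Finset.sum_eq_zero]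
      intro j _
      rw [zero_mul]
  rw [Finset.sum_congr rfl e1, Finset.sum_comm]
  apply Finset.sum_congr rfl
  intro j _
  rw [ContinuousMap.sum_apply, Finset.sum_mul]
  apply Finset.sum_congr rfl
  intro k _
  rw [ContinuousMap.mul_apply]
  ring

lemma cel_congr {R : ℤ} {T T' : ℤ → ℤ → C(X, ℂ)}
    (hTT : ∀ t j, 0 ≤ t → t < R → 0 ≤ j → j < R → T t j = T' t j) :
    (cel R T : CC p X h) = cel R T' := by
  unfold cel
  apply Finset.sum_congr rfl
  intro t ht
  rw [Finset.mem_Ico] at ht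
  apply Finset.sum_congr rfl
  intro j hj
  rw [Finset.mem_Ico] at hj
  rw [hTT t j ht.1 ht.2 hj.1 hj.2]

lemma cel_add (R : ℤ) (T T' : ℤ → ℤ → C(X, ℂ)) :
    (cel R (fun t j => T t j + T' t j) : CC p X h) = cel R T + cel R T' := by
  apply CC.ext
  intro x ξ
  rw [map_add, LinearMap.add_apply, Pi.add_apply, ev_cel, ev_cel, ev_cel,
    ← Finset.sum_add_distrib]
  apply Finset.sum_congr rfl
  intro t _
  rw [← Finset.sum_add_distrib]
  apply Finset.sum_congr rfl
  intro j _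
  rw [ContinuousMap.add_apply, add_mul]

lemma cel_sub (R : ℤ) (T T' : ℤ → ℤ → C(X, ℂ)) :
    (cel R (fun t j => T t j - T' t j) : CC p X h) = cel R T - cel R T' := by
  apply CC.ext
  intro x ξ
  rw [map_sub, LinearMap.sub_apply, Pi.sub_apply, ev_cel, ev_cel, ev_cel,
    ← Finset.sum_sub_distrib]
  apply Finset.sum_congr rfl
  intro t _
  rw [← Finset.sum_sub_distrib]
  apply Finset.sum_congr rfl
  intro j _
  rw [ContinuousMap.sub_apply, sub_mul]

lemma cel_zero (R : ℤ) : (cel R (fun _ _ => 0) : CC p X h) = 0 := by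
  apply CC.ext
  intro x ξ
  rw [ev_cel, map_zero, LinearMap.zero_apply, Pi.zero_apply]
  apply Finset.sum_eq_zero
  intro t _
  apply Finset.sum_eq_zero
  intro j _
  rw [ContinuousMap.zero_apply, zero_mul]

lemma norm_cel_le {R : ℤ} (hR : 0 ≤ R) {T : ℤ → ℤ → C(X, ℂ)} {δ : ℝ}
    (hT : ∀ t j, 0 ≤ t → t < R → 0 ≤ j → j < R → ‖T t j‖ ≤ δ) :
    ‖(cel R T : CC p X h)‖ ≤ R * R * δ := by
  unfold cel
  have h1 : ∀ t ∈ Finset.Ico (0 : ℤ) R, ∀ j ∈ Finset.Ico (0 : ℤ) R,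
      ‖(sgl (t - j) (tr h (-t) (T t j)) : CC p X h)‖ ≤ δ := by
    intro t ht j hj
    rw [Finset.mem_Ico] at ht hj
    exact (norm_sgl_le _ _).trans ((norm_tr_le _ _).trans (hT t j ht.1 ht.2 hj.1 hj.2))
  calc _ ≤ ∑ t ∈ Finset.Ico (0 : ℤ) R, ∑ j ∈ Finset.Ico (0 : ℤ) R, δ := by
        refine (norm_sum_le _ _).trans (Finset.sum_le_sum fun t ht => ?_)
        exact (norm_sum_le _ _).trans (Finset.sum_le_sum fun j hj => h1 t ht j hj)
    _ = _ := by
        have h2 : (((R - 0).toNat : ℕ) : ℝ) = (R : ℝ) := by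
          have h3 : (((R - 0).toNat : ℕ) : ℤ) = R := by
            rw [Int.toNat_of_nonneg (by omega)]; ring
          exact_mod_cast congrArg (fun z : ℤ => (z : ℝ)) h3
        simp only [Finset.sum_const, Int.card_Ico, nsmul_eq_mul, h2]
        ring

lemma band_cel {R : ℤ} {L : ℕ} {T : ℤ → ℤ → C(X, ℂ)}
    (hT : ∀ t j : ℤ, (L : ℤ) < |t - j| → T t j = 0) : Band L (cel R T : CC p X h) := by
  intro m hm
  unfold cel
  rw [co_sum]
  apply Finset.sum_eq_zero
  intro t _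
  rw [co_sum]
  apply Finset.sum_eq_zero
  intro j _
  by_cases hmt : m = t - j
  · rw [hT t j (by rw [← hmt]; exact hm)]
    subst hmt
    rw [co_sgl_same]
    ext x
    rfl
  · exact co_sgl_ne hmt _

/-- constant matrices with a weight -/
noncomputable def vel (R : ℤ) (w : C(X, ℂ)) (M : ℤ → ℤ → ℂ) : CC p X h :=
  cel R (fun t j => M t j • w)

/-- product of matrices over the window -/
noncomputable def mm (R : ℤ) (M M' : ℤ → ℤ → ℂ) (i j : ℤ) : ℂ :=
  ∑ k ∈ Finset.Ico 0 R, M i k * M' k j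

lemma off_vel {F : Set X} {w : C(X, ℂ)} (hw : ∀ x, x ∉ F → w x = 0) (M : ℤ → ℤ → ℂ) :
    Off F (fun t j => M t j • w) := by
  intro t j x hx
  show M t j • w x = 0
  rw [hw x hx, smul_zero]

lemma vel_mul {F : Set X} {R : ℤ} (hS : Sep h F R) {w w' : C(X, ℂ)} (hw : ∀ x, x ∉ F → w x = 0)
    (hw' : ∀ x, x ∉ F → w' x = 0) (M M' : ℤ → ℤ → ℂ) :
    (vel R w M * vel R w' M' : CC p X h) = vel R (w * w') (mm R M M') := by
  unfold vel
  rw [cel_mul hS (off_vel hw M) (off_vel hw' M')]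
  congr 1
  funext t j
  unfold mm
  rw [Finset.sum_smul]
  apply Finset.sum_congr rfl
  intro k _
  rw [smul_mul_smul_comm]

lemma vel_congr {R : ℤ} {w : C(X, ℂ)} {M M' : ℤ → ℤ → ℂ}
    (hM : ∀ t j, 0 ≤ t → t < R → 0 ≤ j → j < R → M t j = M' t j) :
    (vel R w M : CC p X h) = vel R w M' :=
  cel_congr fun t j h1 h2 h3 h4 => by rw [hM t j h1 h2 h3 h4]

lemma vel_zero {R : ℤ} {w : C(X, ℂ)} {M : ℤ → ℤ → ℂ}
    (hM : ∀ t j, 0 ≤ t → t < R → 0 ≤ j → j < R → M t j = 0) :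
    (vel R w M : CC p X h) = 0 := by
  rw [← cel_zero R]
  exact cel_congr fun t j h1 h2 h3 h4 => by rw [hM t j h1 h2 h3 h4, zero_smul]

lemma ev_vel (R : ℤ) (w : C(X, ℂ)) (M : ℤ → ℤ → ℂ) (x : X) (ξ : ℤ → ℂ) (i : ℤ) :
    ev x (vel R w M : CC p X h) ξ i = ∑ t ∈ Finset.Ico 0 R, ∑ j ∈ Finset.Ico 0 R,
      M t j * w ((h ^ (i - t)) x) * ξ (i - t + j) := by
  unfold vel
  rw [ev_cel]
  rfl

/-- the kernel of `a` -/
noncomputable def Kr (a : CC p X h) (t k : ℤ) : C(X, ℂ) := tr h t (co a (t - k))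

lemma sum_helper1 {N : ℕ} {R k : ℤ} (h1 : (N : ℤ) ≤ k) (h2 : k + N < R) {f : ℤ → ℂ}
    (hf : ∀ m : ℤ, (N : ℤ) < |m| → f m = 0) (G : ℤ → ℂ) :
    ∑ m ∈ Finset.Icc (-(N : ℤ)) N, f m * G (m + k) = ∑ t ∈ Finset.Ico 0 R, f (t - k) * G t := by
  have e1 : ∑ m ∈ Finset.Icc (-(N : ℤ)) N, f m * G (m + k) =
      ∑ t ∈ Finset.Icc (k - N) (k + N), f (t - k) * G t := by
    apply Finset.sum_bij (fun (m : ℤ) _ => m + k)
    · intro m hm
      rw [Finset.mem_Icc] at hm ⊢
      omega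
    · intro a _ b _ hab
      omega
    · intro t ht
      rw [Finset.mem_Icc] at ht
      exact ⟨t - k, by rw [Finset.mem_Icc]; omega, by ring⟩
    · intro m _
      rw [add_sub_cancel_right]
  rw [e1]
  apply Finset.sum_subset
  · intro t ht
    rw [Finset.mem_Icc] at ht
    rw [Finset.mem_Ico]
    omega
  · intro t _ ht
    rw [Finset.mem_Icc] at ht
    rw [hf, zero_mul]
    by_contra hle
    rw [not_lt, abs_le] at hle
    omega

lemma sum_helper2 {N : ℕ} {R k : ℤ} (h1 : (N : ℤ) ≤ k) (h2 : k + N < R) {f : ℤ → ℂ}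
    (hf : ∀ m : ℤ, (N : ℤ) < |m| → f m = 0) (G : ℤ → ℂ) :
    ∑ m ∈ Finset.Icc (-(N : ℤ)) N, f m * G (k - m) = ∑ t ∈ Finset.Ico 0 R, f (k - t) * G t := by
  have e1 : ∑ m ∈ Finset.Icc (-(N : ℤ)) N, f m * G (k - m) =
      ∑ t ∈ Finset.Icc (k - N) (k + N), f (k - t) * G t := by
    apply Finset.sum_bij (fun (m : ℤ) _ => k - m)
    · intro m hm
      rw [Finset.mem_Icc] at hm ⊢
      omega
    · intro a _ b _ hab
      omega
    · intro t ht
      rw [Finset.mem_Icc] at ht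
      exact ⟨k - t, by rw [Finset.mem_Icc]; omega, by ring⟩
    · intro m _
      rw [sub_sub_cancel]
  rw [e1]
  apply Finset.sum_subset
  · intro t ht
    rw [Finset.mem_Icc] at ht
    rw [Finset.mem_Ico]
    omega
  · intro t _ ht
    rw [Finset.mem_Icc] at ht
    rw [hf, zero_mul]
    by_contra hle
    rw [not_lt, abs_le] at hle
    omega

lemma mul_cel {a : CC p X h} {N : ℕ} (hN : Band N a) {R : ℤ} {T : ℤ → ℤ → C(X, ℂ)}
    (hT : ∀ k j, ¬((N : ℤ) ≤ k ∧ k + N < R) → T k j = 0) :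
    a * cel R T = cel R (fun t j => ∑ k ∈ Finset.Ico 0 R, Kr a t k * T k j) := by
  apply CC.ext
  intro x ξ
  rw [ev_mul_apply, ev_band hN, ev_cel]
  simp only [ev_cel, hz_zero, Finset.mul_sum]
  -- `∑ m ∑ k ∑ j`
  rw [Finset.sum_comm]
  have e1 : ∀ k ∈ Finset.Ico (0 : ℤ) R, ∑ m ∈ Finset.Icc (-(N : ℤ)) N, ∑ j ∈ Finset.Ico 0 R,
      co a m x * (T k j ((h ^ (0 - m - k)) x) * ξ (0 - m - k + j)) =
      ∑ t ∈ Finset.Ico 0 R, ∑ j ∈ Finset.Ico 0 R,
        co a (t - k) x * (T k j ((h ^ (0 - t)) x) * ξ (0 - t + j)) := by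
    intro k _
    by_cases hk : (N : ℤ) ≤ k ∧ k + N < R
    · have h1 := sum_helper1 (f := fun m => co a m x) hk.1 hk.2
        (fun m hm => by rw [hN m hm]; rfl)
        (fun t => ∑ j ∈ Finset.Ico 0 R, (T k j ((h ^ (0 - t)) x) * ξ (0 - t + j)))
      simp only [Finset.mul_sum] at h1
      rw [← h1]
      apply Finset.sum_congr rfl
      intro m _
      apply Finset.sum_congr rfl
      intro j _
      have e : (0 : ℤ) - m - k = 0 - (m + k) := by ring
      rw [e]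
    · rw [Finset.sum_eq_zero, Finset.sum_eq_zero]
      · intro t _
        apply Finset.sum_eq_zero
        intro j _
        rw [hT k j hk]; simp
      · intro t _
        apply Finset.sum_eq_zero
        intro j _
        rw [hT k j hk]; simp
  have e0 : (h ^ (0 : ℤ)) x = x := rfl
  rw [Finset.sum_congr rfl e1, Finset.sum_comm]
  apply Finset.sum_congr rfl
  intro t _
  rw [Finset.sum_comm]
  apply Finset.sum_congr rfl
  intro j _
  rw [ContinuousMap.sum_apply, Finset.sum_mul]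
  apply Finset.sum_congr rfl
  intro k _
  have e2 : Kr a t k ((h ^ (0 - t)) x) = co a (t - k) x := by
    unfold Kr
    rw [tr_apply, hz_add]
    have : t + (0 - t) = 0 := by ring
    rw [this, hz_zero]
  rw [ContinuousMap.mul_apply, e2]
  ring

lemma cel_mul_right {a : CC p X h} {N : ℕ} (hN : Band N a) {R : ℤ} {T : ℤ → ℤ → C(X, ℂ)}
    (hT : ∀ t k, ¬((N : ℤ) ≤ k ∧ k + N < R) → T t k = 0) :
    cel R T * a = cel R (fun t j => ∑ k ∈ Finset.Ico 0 R, T t k * Kr a k j) := by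
  apply CC.ext
  intro x ξ
  rw [ev_mul_apply, ev_cel, ev_cel]
  apply Finset.sum_congr rfl
  intro t _
  have e1 : ∀ k ∈ Finset.Ico (0 : ℤ) R, T t k ((h ^ (0 - t)) x) * ev x a ξ (0 - t + k) =
      ∑ j ∈ Finset.Ico 0 R, T t k ((h ^ (0 - t)) x) *
        (co a (k - j) ((h ^ (0 - t + k)) x) * ξ (0 - t + j)) := by
    intro k _
    by_cases hk : (N : ℤ) ≤ k ∧ k + N < R
    · have h1 := sum_helper2 (f := fun m => co a m ((h ^ (0 - t + k)) x)) hk.1 hk.2
        (fun m hm => by rw [hN m hm]; rfl) (fun j => ξ (0 - t + j))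
      rw [← Finset.mul_sum, ← h1, ev_band hN]
      congr 1
      apply Finset.sum_congr rfl
      intro m _
      congr 2
      ring
    · rw [hT t k hk]; simp
  rw [Finset.sum_congr rfl e1, Finset.sum_comm]
  apply Finset.sum_congr rfl
  intro j _
  rw [ContinuousMap.sum_apply, Finset.sum_mul]
  apply Finset.sum_congr rfl
  intro k _
  have e2 : Kr a k j ((h ^ (0 - t)) x) = co a (k - j) ((h ^ (0 - t + k)) x) := by
    unfold Kr
    rw [tr_apply, hz_add]
    have : k + (0 - t) = 0 - t + k := by ring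
    rw [this]
  rw [ContinuousMap.mul_apply, e2]
  ring

/-- the shift `u^s` -/
noncomputable def us (s : ℤ) : CC p X h := sgl s 1

lemma ev_us (s : ℤ) (x : X) (ξ : ℤ → ℂ) (i : ℤ) : ev x (us s : CC p X h) ξ i = ξ (i - s) := by
  unfold us
  rw [ev_sgl]
  simp

lemma us_mul (s t : ℤ) : (us s * us t : CC p X h) = us (s + t) := by
  apply CC.ext
  intro x ξ
  rw [ev_mul_apply, ev_us, ev_us, ev_us]
  congr 1
  ring

lemma us_zero : (us 0 : CC p X h) = 1 := by
  apply CC.ext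
  intro x ξ
  rw [ev_us, ev_one_apply, sub_zero]

lemma vel_us {R s : ℤ} (hs : 0 ≤ s) (w : C(X, ℂ)) {M : ℤ → ℤ → ℂ}
    (hM : ∀ t j, ¬(s ≤ j ∧ j < R) → M t j = 0) :
    (vel R w M * us s : CC p X h) = vel R w (fun t j => M t (j + s)) := by
  apply CC.ext
  intro x ξ
  rw [ev_mul_apply, ev_vel, ev_vel]
  apply Finset.sum_congr rfl
  intro t _
  simp only [ev_us]
  have e1 : ∑ j ∈ Finset.Ico 0 R, M t j * w ((h ^ (0 - t)) x) * ξ (0 - t + j - s) =
      ∑ j ∈ Finset.Ico s R, M t j * w ((h ^ (0 - t)) x) * ξ (0 - t + j - s) := by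
    symm
    apply Finset.sum_subset
    · intro j hj
      rw [Finset.mem_Ico] at hj ⊢
      omega
    · intro j _ hj
      rw [Finset.mem_Ico] at hj
      rw [hM t j hj]; simp
  have e2 : ∑ j ∈ Finset.Ico 0 R, M t (j + s) * w ((h ^ (0 - t)) x) * ξ (0 - t + j) =
      ∑ j ∈ Finset.Ico 0 (R - s), M t (j + s) * w ((h ^ (0 - t)) x) * ξ (0 - t + j) := by
    symm
    apply Finset.sum_subset
    · intro j hj
      rw [Finset.mem_Ico] at hj ⊢
      omega
    · intro j hj0 hj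
      rw [Finset.mem_Ico] at hj hj0
      rw [hM t (j + s) (by omega)]; simp
  rw [e1, e2]
  apply Finset.sum_bij (fun (j : ℤ) _ => j - s)
  · intro j hj
    rw [Finset.mem_Ico] at hj ⊢
    omega
  · intro a _ b _ hab
    omega
  · intro j hj
    rw [Finset.mem_Ico] at hj
    exact ⟨j + s, by rw [Finset.mem_Ico]; omega, by ring⟩
  · intro j _
    rw [sub_add_cancel]
    congr 2
    ring

end H382FP
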