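import Mathlib
import Pool.Agent.H382R3.FG.Cel
import Pool.Agent.H382R3.FP.Good3

/-!
# The good case for continuous coefficients (helper382, for MP_3ad462_an)
-/

set_option autoImplicit false
set_option linter.unusedSectionVars false

open scoped ENNReal
open MeasureTheory Topology

namespace H382FP

variable {p : ℝ≥0∞} [Fact (1 ≤ p)] [hpt : Fact (p ≠ ∞)]
variable {X : Type} [TopologicalSpace X] [CompactSpace X] {h : X ≃ₜ X}

lemma ev_cont (a : CC p X h) (ζ : ℤ → ℂ) (i : ℤ) : Continuous (fun x : X => ev x a ζ i) := by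
  obtain ⟨N, hN⟩ := exists_band a
  simp only [ev_band hN]
  apply continuous_finsetSum
  intro m _
  exact ((co a m).continuous.comp (h ^ i).continuous).mul continuous_const

/-- the element with column `G x` -/
noncomputable def gec (G : C(X, ℤ → ℂ)) (c : ℕ) : CC p X h :=
  ∑ n ∈ Finset.Icc (-(c : ℤ)) c, sgl n ⟨fun z => G ((h ^ (-n)) z) n,
    ((continuous_apply n).comp G.continuous).comp (h ^ (-n)).continuous⟩

lemma ev_gec {G : C(X, ℤ → ℂ)} {c : ℕ}
    (hc : ∀ x i, G x i ≠ 0 → |i| ≤ (c : ℤ)) (x : X) :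
    ev x (gec G c : CC p X h) (Pi.single 0 1) = G x := by
  funext i
  unfold gec
  rw [map_sum, LinearMap.sum_apply, Finset.sum_apply]
  have e1 : ∀ n ∈ Finset.Icc (-(c : ℤ)) c, ev x (sgl n ⟨fun z => G ((h ^ (-n)) z) n,
      ((continuous_apply n).comp G.continuous).comp (h ^ (-n)).continuous⟩ : CC p X h)
        (Pi.single 0 1) i = if n = i then G x i else 0 := by
    intro n _
    rw [ev_sgl]
    by_cases hn : n = i
    · subst hn
      rw [if_pos rfl, sub_self, Pi.single_eq_same, mul_one]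
      show G ((h ^ (-n)) ((h ^ n) x)) n = G x n
      rw [zpow_apply_add, neg_add_cancel, zpow_apply_zero]
    · rw [if_neg hn, Pi.single_eq_of_ne (by omega), mul_zero]
  rw [Finset.sum_congr rfl e1, Finset.sum_ite_eq']
  by_cases hi : i ∈ Finset.Icc (-(c : ℤ)) c
  · rw [if_pos hi]
  · rw [if_neg hi]
    by_contra hne
    apply hi
    rw [Finset.mem_Icc, ← abs_le]
    exact hc x i (Ne.symm hne)

lemma band_gec {G : C(X, ℤ → ℂ)} {c : ℕ} :
    Band c (gec G c : CC p X h) := by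
  intro m hm
  unfold gec
  rw [co_sum]
  apply Finset.sum_eq_zero
  intro n hn
  apply co_sgl_ne
  rintro rfl
  rw [Finset.mem_Icc, ← abs_le] at hn
  omega

/-- approximate right inverses, continuous version -/
lemma exists_right_c [T2Space X] {a : CC p X h} {N : ℕ} {ε : ℝ} (hε : 0 < ε) (hN : Band N a)
    (hL : LG a N ε)
    (hR : RG a N ε) {C : ℝ} (hC : 0 < C) (hCε : ε ^ p.toReal ≤ C)
    (hbd : ∀ (x : X) (ζ : ℤ → ℂ) (s t : ℤ),
      mass p.toReal (ev x a ζ) s t ≤ C * mass p.toReal ζ (s - N) (t + N)) (k : ℕ)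
    {τ : ℝ} (hτ : 0 < τ)
    (hτ2 : C * ((1 - ε ^ p.toReal / C) ^ k * (ε ^ p.toReal)⁻¹) < τ ^ p.toReal) :
    ∃ g : CC p X h, Band (N * (2 * k + 1)) g ∧ ∀ (x : X) (i : ℤ),
      ‖ev x (a * g - 1) (Pi.single 0 1) i‖ ≤ τ := by
  have hr0 : 0 < p.toReal := prPos
  set c : ℕ := N * (2 * k + 1) with hc
  set S : X → Set (ℤ → ℂ) := fun x => {ξ | (∀ i, (c : ℤ) < |i| → ξ i = 0) ∧
    ∀ i, ‖ev x a ξ i - (Pi.single 0 1 : ℤ → ℂ) i‖ ≤ τ} with hS
  have hconv : ∀ x, Convex ℝ (S x) := by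
    intro x ξ hξ η hη α β hα hβ hαβ
    refine ⟨fun i hi => ?_, fun i => ?_⟩
    · rw [Pi.add_apply, Pi.smul_apply, Pi.smul_apply, hξ.1 i hi, hη.1 i hi]; simp
    · have e1 : ev x a (α • ξ + β • η) i - (Pi.single 0 1 : ℤ → ℂ) i =
          α • (ev x a ξ i - (Pi.single 0 1 : ℤ → ℂ) i) +
            β • (ev x a η i - (Pi.single 0 1 : ℤ → ℂ) i) := by
        have e2 : (α • ξ : ℤ → ℂ) = (α : ℂ) • ξ := by
          funext j; simp
        have e3 : (β • η : ℤ → ℂ) = (β : ℂ) • η := by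
          funext j; simp
        rw [e2, e3, map_add, map_smul, map_smul, Pi.add_apply, Pi.smul_apply, Pi.smul_apply]
        have e4 : (Pi.single 0 1 : ℤ → ℂ) i = (α : ℂ) * (Pi.single 0 1 : ℤ → ℂ) i +
            (β : ℂ) * (Pi.single 0 1 : ℤ → ℂ) i := by
          rw [← add_mul, ← Complex.ofReal_add, hαβ, Complex.ofReal_one, one_mul]
        conv_lhs => rw [e4]
        simp only [smul_eq_mul, Complex.real_smul]
        ring
      rw [e1]
      calc _ ≤ ‖α • (ev x a ξ i - (Pi.single 0 1 : ℤ → ℂ) i)‖ +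
            ‖β • (ev x a η i - (Pi.single 0 1 : ℤ → ℂ) i)‖ := norm_add_le _ _
        _ ≤ α * τ + β * τ := by
            rw [norm_smul, norm_smul, Real.norm_of_nonneg hα, Real.norm_of_nonneg hβ]
            exact add_le_add (mul_le_mul_of_nonneg_left (hξ.2 i) hα)
              (mul_le_mul_of_nonneg_left (hη.2 i) hβ)
        _ = τ := by rw [← add_mul, hαβ, one_mul]
  have hloc : ∀ x : X, ∃ ξ : ℤ → ℂ, ∀ᶠ y in 𝓝 x, ξ ∈ S y := by
    intro x
    obtain ⟨ξ, h1, h2⟩ := local_inv hε hN hL hR hC hCε hbd x k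
    refine ⟨ξ, ?_⟩
    have h1' : ∀ i, (c : ℤ) < |i| → ξ i = 0 := by
      intro i hi
      by_contra hne
      have := h1 i hne
      omega
    have h3 : ∀ i ∈ Finset.Icc (-((c + N : ℕ) : ℤ)) ((c + N : ℕ) : ℤ), ∀ᶠ y in 𝓝 x,
        ‖ev y a ξ i - (Pi.single 0 1 : ℤ → ℂ) i‖ < τ := by
      intro i _
      have hc1 : Continuous (fun y : X => ‖ev y a ξ i - (Pi.single 0 1 : ℤ → ℂ) i‖) :=
        ((ev_cont a ξ i).sub continuous_const).norm
      apply hc1.continuousAt.eventually_lt continuousAt_const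
      have h4 := (h2 i).trans_lt hτ2
      exact (Real.rpow_lt_rpow_iff (norm_nonneg _) hτ.le hr0).1 h4
    filter_upwards [(Finset.eventually_all _).2 h3] with y hy
    refine ⟨h1', fun i => ?_⟩
    by_cases hi : i ∈ Finset.Icc (-((c + N : ℕ) : ℤ)) ((c + N : ℕ) : ℤ)
    · exact (hy i hi).le
    · rw [Finset.mem_Icc, ← abs_le] at hi
      have e1 : ev y a ξ i = ev y a 0 i := by
        apply ev_local hN
        intro j hj
        apply h1'
        rw [lt_abs]
        rw [abs_le] at hj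
        rw [not_le, lt_abs] at hi
        push_cast at hi
        omega
      rw [e1, map_zero, Pi.zero_apply, Pi.single_eq_of_ne, sub_zero, norm_zero]
      · exact hτ.le
      · rintro rfl
        apply hi
        rw [abs_zero]
        positivity
  obtain ⟨G, hG⟩ := exists_continuous_forall_mem_convex_of_local_const hconv hloc
  have hGc : ∀ x i, G x i ≠ 0 → |i| ≤ (c : ℤ) := by
    intro x i hi
    by_contra hlt
    exact hi ((hG x).1 i (not_le.1 hlt))
  refine ⟨gec G c, band_gec, fun x i => ?_⟩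
  have e1 : ev x (a * gec G c - 1) (Pi.single 0 1) i =
      ev x a (G x) i - (Pi.single 0 1 : ℤ → ℂ) i := by
    rw [map_sub, LinearMap.sub_apply, Pi.sub_apply, ev_mul_apply, ev_one_apply,
      ev_gec hGc]
  rw [e1]
  exact (hG x).2 i

/-- **the good case**, continuous version -/
theorem good_case_c [T2Space X] {a : CC p X h} {N : ℕ} {ε : ℝ} (hε : 0 < ε) (hN : Band N a)
    (hb1 : ∀ x L, ¬ LB a N L ε x) (hb2 : ∀ x L, ¬ RB a N L ε x) :
    IsUnit (a : FpR p X h) := by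
  have hL : LG a N ε := LG_of hε hb1
  have hR : RG a N ε := RG_of hb2
  have hr0 : 0 < p.toReal := prPos
  set K : ℝ := crude a with hK
  have hKa : ∀ m, ‖co a m‖ ≤ K := norm_co_le_crude a
  have hK0 : 0 ≤ K := (norm_nonneg _).trans (hKa 0)
  obtain ⟨C₀, hC₀, hbd₀⟩ := exists_bound hN hKa
  have hεr : 0 < ε ^ p.toReal := by positivity
  set C : ℝ := C₀ + 2 * ε ^ p.toReal with hC
  have hC0 : 0 < C := by positivity
  have hCε : ε ^ p.toReal ≤ C := by linarith
  have hbd : ∀ (x : X) (ζ : ℤ → ℂ) (s t : ℤ),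
      mass p.toReal (ev x a ζ) s t ≤ C * mass p.toReal ζ (s - N) (t + N) := by
    intro x ζ s t
    refine (hbd₀ x ζ s t).trans (mul_le_mul_of_nonneg_right (by linarith) (mass_nonneg _ _ _ _))
  set θ : ℝ := 1 - ε ^ p.toReal / C with hθ
  have hθ0 : 0 < θ := by
    rw [hθ, sub_pos, div_lt_one hC0]; linarith
  have hθ1 : θ < 1 := by
    have : 0 < ε ^ p.toReal / C := by positivity
    linarith
  set ρ : ℝ := θ ^ (1 / p.toReal) with hρ
  have hρ0 : 0 < ρ := by positivity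
  have hρ1 : ρ < 1 := Real.rpow_lt_one hθ0.le hθ1 (by positivity)
  set D₀ : ℝ := (C * (ε ^ p.toReal)⁻¹) ^ (1 / p.toReal) with hD₀
  have hD₀0 : 0 < D₀ := by positivity
  set D : ℝ := 2 * D₀ with hD
  have hD0 : 0 < D := by positivity
  -- choice of `k`
  set Q : ℝ := (10 * N + 1) ^ 3 * D * (1 + K / ε) with hQ
  have hQ0 : 0 ≤ Q := by positivity
  have hlim : Filter.Tendsto (fun n : ℕ => Q * ((n : ℝ) ^ 3 * ρ ^ n)) Filter.atTop (𝓝 0) := by
    have := (tendsto_pow_const_mul_const_pow_of_abs_lt_one 3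
      (show |ρ| < 1 by rw [abs_of_nonneg hρ0.le]; exact hρ1)).const_mul Q
    rwa [mul_zero] at this
  obtain ⟨k, hk1, hk2⟩ := ((hlim.eventually (gt_mem_nhds zero_lt_one)).and
    (Filter.eventually_ge_atTop 1)).exists
  set τ : ℝ := D * ρ ^ k with hτ
  have hτ0 : 0 < τ := by positivity
  have hτr : C * (θ ^ k * (ε ^ p.toReal)⁻¹) < τ ^ p.toReal := by
    have e1 : (D₀ * ρ ^ k) ^ p.toReal = C * (θ ^ k * (ε ^ p.toReal)⁻¹) := by
      rw [Real.mul_rpow hD₀0.le (by positivity), hD₀, hρ, ← Real.rpow_natCast,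
        ← Real.rpow_mul hθ0.le, ← Real.rpow_mul hθ0.le, ← Real.rpow_mul (by positivity),
        one_div_mul_cancel hr0.ne', Real.rpow_one]
      have : 1 / p.toReal * (k : ℝ) * p.toReal = k := by field_simp
      rw [this, Real.rpow_natCast]
      ring
    rw [← e1]
    apply Real.rpow_lt_rpow (by positivity) _ hr0
    rw [hτ, hD]
    have : 0 < D₀ * ρ ^ k := by positivity
    linarith
  obtain ⟨g, hg1, hg2⟩ := exists_right_c hε hN hL hR hC0 hCε hbd k hτ0 hτr
  have he : ∀ m, ‖co (a * g - 1) m‖ ≤ τ := norm_co_le hτ0.le hg2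
  set c : ℕ := N * (2 * k + 1) with hc
  set B : ℕ := N + c with hB
  have hB1 : Band B (a * g - 1) := (hN.mul hg1).sub (band_one.mono (Nat.zero_le _))
  have hB2 : Band B (g * a - 1) := by
    have := (hg1.mul hN).sub (b := (1 : CC p X h)) (band_one.mono (Nat.zero_le _))
    rwa [Nat.add_comm] at this
  have h1 := norm_le_band hB1 he
  have h2 := norm_le_band hB2 (left_close hε hL hB1 hB2 hτ0.le he hKa)
  -- numerical estimate
  set n : ℝ := (2 * B + 1 + 2 * N : ℝ) with hn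
  have hk1' : (1 : ℝ) ≤ k := by exact_mod_cast hk2
  have hn2 : n ≤ (10 * N + 1) * k := by
    rw [hn, hB, hc]
    push_cast
    have hN0 : (0 : ℝ) ≤ N := by positivity
    nlinarith
  have hB0 : (0 : ℝ) ≤ 2 * B + 1 := by positivity
  have hBn : (2 * B + 1 : ℝ) ≤ n := by
    have hN0 : (0 : ℝ) ≤ N := by positivity
    rw [hn]; linarith
  have hn1 : 1 ≤ n := by
    have : (0 : ℝ) ≤ 2 * B + 2 * N := by positivity
    rw [hn]; linarith
  have hn3 : n ^ 3 ≤ (10 * N + 1) ^ 3 * (k : ℝ) ^ 3 := by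
    rw [← mul_pow]
    exact pow_le_pow_left₀ (by linarith) hn2 3
  have hKε : 0 ≤ K / ε := by positivity
  have hfin : n ^ 3 * τ * (1 + K / ε) < 1 := by
    calc n ^ 3 * τ * (1 + K / ε) ≤ ((10 * N + 1) ^ 3 * (k : ℝ) ^ 3) * τ * (1 + K / ε) := by gcongr
      _ = Q * ((k : ℝ) ^ 3 * ρ ^ k) := by rw [hτ, hQ]; ring
      _ < 1 := hk1
  have hA : ‖a * g - 1‖ < 1 := by
    refine lt_of_le_of_lt h1 (lt_of_le_of_lt ?_ hfin)
    calc (2 * B + 1 : ℝ) * τ ≤ n * τ := by gcongr
      _ ≤ n ^ 3 * τ := by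
          apply mul_le_mul_of_nonneg_right _ hτ0.le
          exact le_self_pow₀ hn1 (by norm_num)
      _ ≤ n ^ 3 * τ * (1 + K / ε) := by
          apply le_mul_of_one_le_right (by positivity)
          linarith
  have hG : ‖g * a - 1‖ < 1 := by
    refine lt_of_le_of_lt h2 (lt_of_le_of_lt ?_ hfin)
    calc (2 * B + 1 : ℝ) * ((2 * B + 1 + 2 * N) * ((2 * B + 1) * (τ * K)) / ε)
        ≤ n * (n * (n * (τ * K)) / ε) := by gcongr
      _ = n ^ 3 * τ * (K / ε) := by ring
      _ ≤ n ^ 3 * τ * (1 + K / ε) := by gcongr; linarith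
  have hU1 : IsUnit ((a : FpR p X h) * (g : FpR p X h)) := by
    have e1 : (a : FpR p X h) * (g : FpR p X h) = 1 - ((-(a * g - 1) : CC p X h) : FpR p X h) := by
      rw [UniformSpace.Completion.coe_neg, UniformSpace.Completion.coe_sub,
        UniformSpace.Completion.coe_mul, UniformSpace.Completion.coe_one]
      abel
    rw [e1]
    apply isUnit_one_sub_of_norm_lt_one
    rw [UniformSpace.Completion.norm_coe, norm_neg]
    exact hA
  have hU2 : IsUnit ((g : FpR p X h) * (a : FpR p X h)) := by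
    have e1 : (g : FpR p X h) * (a : FpR p X h) = 1 - ((-(g * a - 1) : CC p X h) : FpR p X h) := by
      rw [UniformSpace.Completion.coe_neg, UniformSpace.Completion.coe_sub,
        UniformSpace.Completion.coe_mul, UniformSpace.Completion.coe_one]
      abel
    rw [e1]
    apply isUnit_one_sub_of_norm_lt_one
    rw [UniformSpace.Completion.norm_coe, norm_neg]
    exact hG
  obtain ⟨u, hu⟩ := hU1
  obtain ⟨v, hv⟩ := hU2
  have hr1 : (a : FpR p X h) * ((g : FpR p X h) * (u⁻¹ : (FpR p X h)ˣ)) = 1 := by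
    rw [← mul_assoc, ← hu, Units.mul_inv]
  have hl1 : ((v⁻¹ : (FpR p X h)ˣ) * (g : FpR p X h)) * (a : FpR p X h) = 1 := by
    rw [mul_assoc, ← hv, Units.inv_mul]
  have heq : ((v⁻¹ : (FpR p X h)ˣ) * (g : FpR p X h)) = (g : FpR p X h) * (u⁻¹ : (FpR p X h)ˣ) :=
    left_inv_eq_right_inv hl1 hr1
  exact ⟨⟨a, (g : FpR p X h) * (u⁻¹ : (FpR p X h)ˣ), hr1, by rw [← heq]; exact hl1⟩, rfl⟩

end H382FP
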