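import Mathlib
import Pool.Agent.H382R3.FG.GoodC
import Pool.Agent.H382R3.FP.Top

/-!
# Window data (helper382, for MP_3ad462_an)
-/

set_option autoImplicit false
set_option linter.unusedSectionVars false

open scoped ENNReal
open MeasureTheory Topology

namespace H382FP

section r1

/-- the rank-one matrix `α ⊗ β` on `ℓ^r([s,t))` has norm at most `ε` -/
def R1 (r : ℝ) (s t : ℤ) (α β : ℤ → ℂ) (ε : ℝ) : Prop :=
  ∀ c : ℤ → ℂ, ‖∑ j ∈ Finset.Ico s t, β j * c j‖ ^ r * mass r α s t ≤ ε ^ r * mass r c s t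

lemma sum_Ico_supp {f : ℤ → ℂ} {s t s' t' : ℤ} (h1 : s' ≤ s) (h2 : t ≤ t')
    (hf : ∀ i, f i ≠ 0 → s ≤ i ∧ i < t) :
    ∑ i ∈ Finset.Ico s' t', f i = ∑ i ∈ Finset.Ico s t, f i := by
  symm
  apply Finset.sum_subset (Finset.Ico_subset_Ico h1 h2)
  intro i _ hi
  by_contra hne
  exact hi (Finset.mem_Ico.2 (hf i hne))

lemma mass_supp {r : ℝ} (hr : 0 < r) {f : ℤ → ℂ} {s t s' t' : ℤ} (h1 : s' ≤ s) (h2 : t ≤ t')
    (hf : ∀ i, f i ≠ 0 → s ≤ i ∧ i < t) : mass r f s' t' = mass r f s t := by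
  unfold mass
  symm
  apply Finset.sum_subset (Finset.Ico_subset_Ico h1 h2)
  intro i _ hi
  have : f i = 0 := by
    by_contra hne
    exact hi (Finset.mem_Ico.2 (hf i hne))
  rw [this, norm_zero, Real.zero_rpow hr.ne']

lemma R1.mono {r : ℝ} (hr : 0 < r) {s t s' t' : ℤ} {α β : ℤ → ℂ} {ε : ℝ} (hε : 0 ≤ ε)
    (h1 : s' ≤ s)
    (h2 : t ≤ t') (hα : ∀ i, α i ≠ 0 → s ≤ i ∧ i < t) (hβ : ∀ i, β i ≠ 0 → s ≤ i ∧ i < t)
    (h : R1 r s t α β ε) : R1 r s' t' α β ε := by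
  intro c
  rw [sum_Ico_supp h1 h2 (f := fun j => β j * c j), mass_supp hr h1 h2 hα]
  · refine (h c).trans (mul_le_mul_of_nonneg_left (mass_mono c h1 h2) (by positivity))
  · intro i hi
    exact hβ i (left_ne_zero_of_mul hi)

lemma sum_Ico_shift (f : ℤ → ℂ) (s t k : ℤ) :
    ∑ i ∈ Finset.Ico (s + k) (t + k), f (i - k) = ∑ i ∈ Finset.Ico s t, f i := by
  apply Finset.sum_bij (fun (i : ℤ) _ => i - k)
  · intro i hi
    rw [Finset.mem_Ico] at hi ⊢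
    omega
  · intro i _ j _ hij
    omega
  · intro j hj
    rw [Finset.mem_Ico] at hj
    exact ⟨j + k, by rw [Finset.mem_Ico]; omega, by ring⟩
  · intro i _; rfl

lemma mass_shiftR (r : ℝ) (ξ : ℤ → ℂ) (s t k : ℤ) :
    mass r (fun j => ξ (j - k)) (s + k) (t + k) = mass r ξ s t := by
  have := mass_shift r ξ (s + k) (t + k) k
  rw [this, add_sub_cancel_right, add_sub_cancel_right]

lemma R1.shift {r : ℝ} {s t : ℤ} {α β : ℤ → ℂ} {ε : ℝ} (h : R1 r s t α β ε) (k : ℤ) :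
    R1 r (s + k) (t + k) (fun j => α (j - k)) (fun j => β (j - k)) ε := by
  intro c
  have h1 := h (fun j => c (j + k))
  have e1 : ∑ j ∈ Finset.Ico (s + k) (t + k), β (j - k) * c j =
      ∑ j ∈ Finset.Ico s t, β j * c (j + k) := by
    rw [← sum_Ico_shift (fun j => β j * c (j + k)) s t k]
    simp only [sub_add_cancel]
  have e2 : mass r c (s + k) (t + k) = mass r (fun j => c (j + k)) s t := by
    rw [← mass_shiftR r (fun j => c (j + k)) s t k]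
    simp only [sub_add_cancel]
  rw [e1, e2, mass_shiftR]
  exact h1

lemma R1.perturb {r : ℝ} (hr : 1 ≤ r) {s t : ℤ} {α β α' β' : ℤ → ℂ} {ε δ : ℝ} (hε : 0 ≤ ε)
    (hδ : 0 ≤ δ)
    (h : R1 r s t α β ε) (hst : s ≤ t) (hd : ((t - s : ℤ) : ℝ) * δ ≤ ε)
    (hp : ∀ i j, s ≤ i → i < t → s ≤ j → j < t → ‖α' i * β' j - α i * β j‖ ≤ δ) :
    R1 r s t α' β' (2 * ε) := by
  intro c
  have hr0 : 0 < r := by linarith
  set I := Finset.Ico s t with hI
  set n : ℝ := ((t - s : ℤ) : ℝ) with hn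
  have hn0 : 0 ≤ n := by rw [hn]; exact_mod_cast sub_nonneg.2 hst
  have hcard : (I.card : ℝ) = n := by
    rw [hI, Int.card_Ico, hn]
    have : (((t - s).toNat : ℕ) : ℤ) = t - s := Int.toNat_of_nonneg (by omega)
    exact_mod_cast congrArg (fun z : ℤ => (z : ℝ)) this
  set q := ∑ j ∈ I, β j * c j with hq
  set q' := ∑ j ∈ I, β' j * c j with hq'
  have hsum : (∑ j ∈ I, ‖c j‖) ^ r ≤ n ^ (r - 1) * mass r c s t := by
    have := Real.rpow_sum_le_const_mul_sum_rpow_of_nonneg (f := fun j => ‖c j‖) I hr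
      (fun j _ => norm_nonneg _)
    rw [hcard] at this
    exact this
  have h1 : ∀ i ∈ I, ‖α' i * q'‖ ≤ ‖α i * q‖ + δ * ∑ j ∈ I, ‖c j‖ := by
    intro i hi
    rw [hI, Finset.mem_Ico] at hi
    have e1 : α' i * q' = α i * q + ∑ j ∈ I, (α' i * β' j - α i * β j) * c j := by
      rw [hq, hq', Finset.mul_sum, Finset.mul_sum, ← Finset.sum_add_distrib]
      apply Finset.sum_congr rfl
      intro j _
      ring
    rw [e1]
    refine (norm_add_le _ _).trans (add_le_add le_rfl ?_)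
    rw [Finset.mul_sum]
    refine (norm_sum_le _ _).trans (Finset.sum_le_sum fun j hj => ?_)
    rw [hI, Finset.mem_Ico] at hj
    rw [norm_mul]
    exact mul_le_mul_of_nonneg_right (hp i j hi.1 hi.2 hj.1 hj.2) (norm_nonneg _)
  have two : ∀ x y : ℝ, 0 ≤ x → 0 ≤ y → (x + y) ^ r ≤ 2 ^ (r - 1) * (x ^ r + y ^ r) := by
    intro x y hx hy
    have := Real.rpow_sum_le_const_mul_sum_rpow_of_nonneg
      (f := fun j : Bool => if j then x else y) Finset.univ hr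
      (fun j _ => by cases j <;> simp [hx, hy])
    simpa using this
  have hm0 : 0 ≤ mass r c s t := mass_nonneg _ _ _ _
  have h2 : ∀ i ∈ I, ‖q'‖ ^ r * ‖α' i‖ ^ r ≤ 2 ^ (r - 1) * (‖q‖ ^ r * ‖α i‖ ^ r +
      δ ^ r * (n ^ (r - 1) * mass r c s t)) := by
    intro i hi
    rw [← Real.mul_rpow (norm_nonneg _) (norm_nonneg _), ← norm_mul, mul_comm q']
    have hS0 : 0 ≤ ∑ j ∈ I, ‖c j‖ := Finset.sum_nonneg fun _ _ => norm_nonneg _
    refine (Real.rpow_le_rpow (norm_nonneg _) (h1 i hi) hr0.le).trans ?_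
    refine (two _ _ (norm_nonneg _) (by positivity)).trans ?_
    apply mul_le_mul_of_nonneg_left _ (by positivity)
    apply add_le_add
    · rw [norm_mul, Real.mul_rpow (norm_nonneg _) (norm_nonneg _), mul_comm]
    · rw [Real.mul_rpow hδ hS0]
      exact mul_le_mul_of_nonneg_left hsum (by positivity)
  have e3 : ‖q'‖ ^ r * mass r α' s t = ∑ i ∈ I, ‖q'‖ ^ r * ‖α' i‖ ^ r := by
    unfold mass
    rw [Finset.mul_sum]
  rw [e3]
  have hnn : n * (δ ^ r * (n ^ (r - 1) * mass r c s t)) ≤ ε ^ r * mass r c s t := by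
    rcases eq_or_lt_of_le hn0 with h0 | h0
    · rw [← h0, zero_mul]; positivity
    · have e4 : n * (δ ^ r * (n ^ (r - 1) * mass r c s t)) = (n * δ) ^ r * mass r c s t := by
        rw [Real.mul_rpow hn0 hδ]
        have : n ^ r = n * n ^ (r - 1) := by
          rw [Real.rpow_sub_one h0.ne']; field_simp
        rw [this]; ring
      rw [e4]
      apply mul_le_mul_of_nonneg_right _ hm0
      exact Real.rpow_le_rpow (by positivity) hd hr0.le
  calc ∑ i ∈ I, ‖q'‖ ^ r * ‖α' i‖ ^ r ≤ ∑ i ∈ I, 2 ^ (r - 1) * (‖q‖ ^ r * ‖α i‖ ^ r +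
      δ ^ r * (n ^ (r - 1) * mass r c s t)) := Finset.sum_le_sum h2
    _ = 2 ^ (r - 1) * (‖q‖ ^ r * mass r α s t + n * (δ ^ r * (n ^ (r - 1) * mass r c s t))) := by
        have e5 : ∑ i ∈ I, ‖q‖ ^ r * ‖α i‖ ^ r = ‖q‖ ^ r * mass r α s t := by
          unfold mass
          rw [Finset.mul_sum]
        rw [← Finset.mul_sum, Finset.sum_add_distrib, Finset.sum_const, nsmul_eq_mul, hcard, e5]
    _ ≤ 2 ^ (r - 1) * (ε ^ r * mass r c s t + ε ^ r * mass r c s t) := by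
        apply mul_le_mul_of_nonneg_left _ (by positivity)
        exact add_le_add (h c) hnn
    _ = (2 * ε) ^ r * mass r c s t := by
        rw [Real.mul_rpow (by norm_num) hε]
        have : (2 : ℝ) ^ r = 2 ^ (r - 1) * 2 := by
          rw [Real.rpow_sub_one (by norm_num)]; ring
        rw [this]; ring

end r1

variable {p : ℝ≥0∞} [Fact (1 ≤ p)] [hpt : Fact (p ≠ ∞)]
variable {X : Type} [TopologicalSpace X] [CompactSpace X] {h : X ≃ₜ X}

lemma Kr_apply (a : CC p X h) (i j : ℤ) (x : X) : Kr a i j x = co a (i - j) ((h ^ i) x) := rfl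

lemma ev_Kr {a : CC p X h} {N : ℕ} (hN : Band N a) (x : X) (ζ : ℤ → ℂ) (i : ℤ) {s t : ℤ}
    (hz : ∀ j, i - N ≤ j → j ≤ i + N → ζ j ≠ 0 → s ≤ j ∧ j < t) :
    ev x a ζ i = ∑ j ∈ Finset.Ico s t, Kr a i j x * ζ j := by
  rw [ev_band hN]
  have e1 : ∑ m ∈ Finset.Icc (-(N : ℤ)) N, co a m ((h ^ i) x) * ζ (i - m) =
      ∑ j ∈ Finset.Icc (i - N) (i + N), Kr a i j x * ζ j := by
    apply Finset.sum_bij (fun (m : ℤ) _ => i - m)
    · intro m hm
      rw [Finset.mem_Icc] at hm ⊢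
      omega
    · intro a _ b _ hab
      omega
    · intro j hj
      rw [Finset.mem_Icc] at hj
      exact ⟨i - j, by rw [Finset.mem_Icc]; omega, by ring⟩
    · intro m _
      rw [Kr_apply, sub_sub_cancel]
  rw [e1]
  apply Finset.sum_congr_of_eq_on_inter
  · intro j hj1 hj2
    rw [Finset.mem_Icc] at hj1
    by_cases hζ : ζ j = 0
    · rw [hζ, mul_zero]
    · exact absurd (Finset.mem_Ico.2 (hz j hj1.1 hj1.2 hζ)) hj2
  · intro j hj1 hj2
    rw [Finset.mem_Icc, not_and_or, not_le, not_le] at hj2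
    rw [Kr_apply, hN (i - j), ContinuousMap.zero_apply, zero_mul]
    rw [lt_abs]
    omega
  · intro j _ _; rfl

lemma Kr_shift (a : CC p X h) (i j k : ℤ) (x : X) : Kr a (i + k) j x = Kr a i (j - k) ((h ^ k) x) := by
  rw [Kr_apply, Kr_apply, hz_add]
  congr 1
  congr 1
  ring

/-- the functional `c ↦ ∑ v_i (a c)_i` -/
noncomputable def lf (a : CC p X h) (x : X) (s t : ℤ) (v : ℤ → ℂ) (j : ℤ) : ℂ :=
  ∑ i ∈ Finset.Ico s t, v i * Kr a i j x

lemma lf_supp {a : CC p X h} {N : ℕ} (hN : Band N a) {x : X} {s t : ℤ} {v : ℤ → ℂ}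
    (hv : ∀ i, v i ≠ 0 → s + N ≤ i ∧ i < t - N) (j : ℤ) (hj : lf a x s t v j ≠ 0) :
    s ≤ j ∧ j < t := by
  unfold lf at hj
  obtain ⟨i, _, hi⟩ := Finset.exists_ne_zero_of_sum_ne_zero hj
  have h1 := hv i (left_ne_zero_of_mul hi)
  have h2 := right_ne_zero_of_mul hi
  have h3 : ¬ ((N : ℤ) < |i - j|) := by
    intro hlt
    apply h2
    rw [Kr_apply, hN _ hlt]; rfl
  rw [not_lt, abs_le] at h3
  omega

lemma lf_mono {a : CC p X h} {x : X} {s t s' t' : ℤ} {v : ℤ → ℂ} (h1 : s' ≤ s) (h2 : t ≤ t')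
    (hv : ∀ i, v i ≠ 0 → s ≤ i ∧ i < t) : lf a x s' t' v = lf a x s t v := by
  funext j
  unfold lf
  exact sum_Ico_supp h1 h2 (fun i hi => hv i (left_ne_zero_of_mul hi))

lemma lf_sum {a : CC p X h} {N : ℕ} (hN : Band N a) {x : X} {s t : ℤ} {v : ℤ → ℂ}
    (hv : ∀ i, v i ≠ 0 → s + N ≤ i ∧ i < t - N) (c : ℤ → ℂ) :
    ∑ i ∈ Finset.Ico s t, v i * ev x a c i = ∑ j ∈ Finset.Ico s t, lf a x s t v j * c j := by
  unfold lf
  simp only [Finset.sum_mul]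
  rw [Finset.sum_comm]
  apply Finset.sum_congr rfl
  intro i _
  by_cases hvi : v i = 0
  · rw [hvi]; simp
  · have h1 := hv i hvi
    rw [ev_Kr hN x c i (s := s) (t := t) (fun j h2 h3 _ => by omega), Finset.mul_sum]
    apply Finset.sum_congr rfl
    intro j _
    ring

lemma lf_shift (a : CC p X h) (x : X) (s t k : ℤ) (v : ℤ → ℂ) :
    lf a x (s + k) (t + k) (fun j => v (j - k)) = fun j => lf a ((h ^ k) x) s t v (j - k) := by
  funext j
  unfold lf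
  rw [← sum_Ico_shift (fun i => v i * Kr a i (j - k) ((h ^ k) x)) s t k]
  apply Finset.sum_congr rfl
  intro i _
  rw [← Kr_shift, sub_add_cancel]

lemma lf_cont (a : CC p X h) (s t : ℤ) (v : ℤ → ℂ) (j : ℤ) :
    Continuous (fun x : X => lf a x s t v j) := by
  unfold lf
  apply continuous_finsetSum
  intro i _
  exact continuous_const.mul (Kr a i j).continuous

/-- supports and normalisation -/
def Dual (N : ℕ) (s t : ℤ) (ξ φ : ℤ → ℂ) : Prop :=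
  (∀ i, ξ i ≠ 0 → s + N ≤ i ∧ i < t - N) ∧ (∀ i, φ i ≠ 0 → s + N ≤ i ∧ i < t - N) ∧
    ∑ i ∈ Finset.Ico s t, φ i * ξ i = 1

/-- left data -/
def LDat (a : CC p X h) (N : ℕ) (s t : ℤ) (ε : ℝ) (x : X) (ξ φ : ℤ → ℂ) : Prop :=
  Dual N s t ξ φ ∧ R1 p.toReal s t (ev x a ξ) φ ε

/-- right data -/
def RDat (a : CC p X h) (N : ℕ) (s t : ℤ) (ε : ℝ) (x : X) (v y : ℤ → ℂ) : Prop :=
  Dual N s t y v ∧ R1 p.toReal s t y (lf a x s t v) ε

lemma Dual.shift {N : ℕ} {s t : ℤ} {ξ φ : ℤ → ℂ} (hd : Dual N s t ξ φ) (k : ℤ) :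
    Dual N (s + k) (t + k) (fun j => ξ (j - k)) (fun j => φ (j - k)) := by
  refine ⟨fun i hi => ?_, fun i hi => ?_, ?_⟩
  · have := hd.1 _ hi; omega
  · have := hd.2.1 _ hi; omega
  · rw [← hd.2.2]
    exact sum_Ico_shift (fun j => φ j * ξ j) s t k

lemma Dual.mono {N : ℕ} {s t s' t' : ℤ} {ξ φ : ℤ → ℂ} (hd : Dual N s t ξ φ) (h1 : s' ≤ s)
    (h2 : t ≤ t') : Dual N s' t' ξ φ := by
  refine ⟨fun i hi => ?_, fun i hi => ?_, ?_⟩
  · have := hd.1 _ hi; omega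
  · have := hd.2.1 _ hi; omega
  · rw [← hd.2.2]
    apply sum_Ico_supp h1 h2
    intro i hi
    have := hd.1 i (right_ne_zero_of_mul hi)
    omega

lemma ev_supp {a : CC p X h} {N : ℕ} (hN : Band N a) {x : X} {s t : ℤ} {ξ : ℤ → ℂ}
    (hξ : ∀ i, ξ i ≠ 0 → s + N ≤ i ∧ i < t - N) (i : ℤ) (hi : ev x a ξ i ≠ 0) :
    s ≤ i ∧ i < t := by
  by_contra hne
  apply hi
  have e1 : ev x a ξ i = ev x a 0 i := by
    apply ev_local hN
    intro j hj
    rw [abs_le] at hj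
    by_contra h1
    have := hξ j h1
    omega
  rw [e1, map_zero]; rfl

lemma ev_shiftR (x : X) (a : CC p X h) (k : ℤ) (ξ : ℤ → ℂ) :
    ev x a (fun j => ξ (j - k)) = fun j => ev ((h ^ k) x) a ξ (j - k) := by
  funext j
  rw [ev_shift, sub_add_cancel]

lemma LDat.shift {a : CC p X h} {N : ℕ} {s t : ℤ} {ε : ℝ} {x : X} {ξ φ : ℤ → ℂ} {k : ℤ}
    (hd : LDat a N s t ε ((h ^ k) x) ξ φ) :
    LDat a N (s + k) (t + k) ε x (fun j => ξ (j - k)) (fun j => φ (j - k)) := by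
  refine ⟨hd.1.shift k, ?_⟩
  rw [ev_shiftR]
  exact hd.2.shift k

lemma RDat.shift {a : CC p X h} {N : ℕ} {s t : ℤ} {ε : ℝ} {x : X} {v y : ℤ → ℂ} {k : ℤ}
    (hd : RDat a N s t ε ((h ^ k) x) v y) :
    RDat a N (s + k) (t + k) ε x (fun j => v (j - k)) (fun j => y (j - k)) := by
  refine ⟨hd.1.shift k, ?_⟩
  rw [lf_shift]
  exact hd.2.shift k

lemma LDat.mono {a : CC p X h} {N : ℕ} (hN : Band N a) {s t s' t' : ℤ} {ε : ℝ} (hε : 0 ≤ ε)
    {x : X} {ξ φ : ℤ → ℂ}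
    (hd : LDat a N s t ε x ξ φ) (h1 : s' ≤ s) (h2 : t ≤ t') : LDat a N s' t' ε x ξ φ := by
  refine ⟨hd.1.mono h1 h2, hd.2.mono prPos hε h1 h2 (ev_supp hN hd.1.1) ?_⟩
  intro i hi
  have := hd.1.2.1 i hi
  omega

lemma RDat.mono {a : CC p X h} {N : ℕ} (hN : Band N a) {s t s' t' : ℤ} {ε : ℝ} (hε : 0 ≤ ε)
    {x : X} {v y : ℤ → ℂ}
    (hd : RDat a N s t ε x v y) (h1 : s' ≤ s) (h2 : t ≤ t') : RDat a N s' t' ε x v y := by
  refine ⟨hd.1.mono h1 h2, ?_⟩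
  rw [lf_mono h1 h2 (fun i hi => by have := hd.1.2.1 i hi; omega)]
  refine hd.2.mono prPos hε h1 h2 ?_ (lf_supp hN hd.1.2.1)
  intro i hi
  have := hd.1.1 i hi
  omega

lemma one_le_pr : 1 ≤ p.toReal := by
  have h1 : (1 : ℝ≥0∞) ≤ p := Fact.out
  have := ENNReal.toReal_mono hpt.out h1
  simpa using this

lemma LDat.near {a : CC p X h} {N : ℕ} {s t : ℤ} (hst : s ≤ t) {ε : ℝ} (hε : 0 < ε)
    {x : X} {ξ φ : ℤ → ℂ} (hd : LDat a N s t ε x ξ φ) :
    ∀ᶠ x' in 𝓝 x, LDat a N s t (2 * ε) x' ξ φ := by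
  set δ : ℝ := ε / (((t - s : ℤ) : ℝ) + 1) with hδ
  have hn0 : (0 : ℝ) ≤ ((t - s : ℤ) : ℝ) := by exact_mod_cast sub_nonneg.2 hst
  have hδ0 : 0 < δ := by positivity
  have hnd : ((t - s : ℤ) : ℝ) * δ ≤ ε := by
    rw [hδ, mul_div_assoc', div_le_iff₀ (by positivity)]
    nlinarith
  have h1 : ∀ i ∈ Finset.Ico s t, ∀ᶠ x' in 𝓝 x, ∀ j ∈ Finset.Ico s t,
      ‖ev x' a ξ i * φ j - ev x a ξ i * φ j‖ < δ := by
    intro i _
    rw [Finset.eventually_all]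
    intro j _
    have hc : Continuous (fun x' : X => ‖ev x' a ξ i * φ j - ev x a ξ i * φ j‖) :=
      (((ev_cont a ξ i).mul continuous_const).sub continuous_const).norm
    apply hc.continuousAt.eventually_lt continuousAt_const
    rw [sub_self, norm_zero]; exact hδ0
  filter_upwards [(Finset.eventually_all _).2 h1] with x' hx'
  refine ⟨hd.1, hd.2.perturb one_le_pr hε.le hδ0.le hst hnd ?_⟩
  intro i j h2 h3 h4 h5
  exact (hx' i (Finset.mem_Ico.2 ⟨h2, h3⟩) j (Finset.mem_Ico.2 ⟨h4, h5⟩)).le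

lemma RDat.near {a : CC p X h} {N : ℕ} {s t : ℤ} (hst : s ≤ t) {ε : ℝ} (hε : 0 < ε)
    {x : X} {v y : ℤ → ℂ} (hd : RDat a N s t ε x v y) :
    ∀ᶠ x' in 𝓝 x, RDat a N s t (2 * ε) x' v y := by
  set δ : ℝ := ε / (((t - s : ℤ) : ℝ) + 1) with hδ
  have hn0 : (0 : ℝ) ≤ ((t - s : ℤ) : ℝ) := by exact_mod_cast sub_nonneg.2 hst
  have hδ0 : 0 < δ := by positivity
  have hnd : ((t - s : ℤ) : ℝ) * δ ≤ ε := by
    rw [hδ, mul_div_assoc', div_le_iff₀ (by positivity)]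
    nlinarith
  have h1 : ∀ i ∈ Finset.Ico s t, ∀ᶠ x' in 𝓝 x, ∀ j ∈ Finset.Ico s t,
      ‖y i * lf a x' s t v j - y i * lf a x s t v j‖ < δ := by
    intro i _
    rw [Finset.eventually_all]
    intro j _
    have hc : Continuous (fun x' : X => ‖y i * lf a x' s t v j - y i * lf a x s t v j‖) :=
      ((continuous_const.mul (lf_cont a s t v j)).sub continuous_const).norm
    apply hc.continuousAt.eventually_lt continuousAt_const
    rw [sub_self, norm_zero]; exact hδ0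
  filter_upwards [(Finset.eventually_all _).2 h1] with x' hx'
  refine ⟨hd.1, hd.2.perturb one_le_pr hε.le hδ0.le hst hnd ?_⟩
  intro i j h2 h3 h4 h5
  exact (hx' i (Finset.mem_Ico.2 ⟨h2, h3⟩) j (Finset.mem_Ico.2 ⟨h4, h5⟩)).le

end H382FP
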