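import Mathlib
import Pool.Agent.H382R3.FG.Cel

/-!
# The norm of window elements with constant matrices (helper382, for MP_3ad462_an)
-/

set_option autoImplicit false
set_option linter.unusedSectionVars false

open scoped ENNReal
open MeasureTheory Topology

namespace H382FP

/-- `ε`-bounded matrices on `ℓ^r([0, R))` -/
def MBZ (r : ℝ) (R : ℤ) (T : ℤ → ℤ → ℂ) (ε : ℝ) : Prop :=
  ∀ c : ℤ → ℂ, ∑ i ∈ Finset.Ico 0 R, ‖∑ j ∈ Finset.Ico 0 R, T i j * c j‖ ^ r ≤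
    ε ^ r * ∑ j ∈ Finset.Ico 0 R, ‖c j‖ ^ r

section

variable {p : ℝ≥0∞} [Fact (1 ≤ p)] [hpt : Fact (p ≠ ∞)]
variable {Y : Type} [MeasurableSpace Y] {μ : Measure Y}

lemma MBZ.lp {R : ℤ} {T : ℤ → ℤ → ℂ} {ε : ℝ} (hT : MBZ p.toReal R T ε) (f : ℤ → Lp ℂ p μ) :
    ∑ i ∈ Finset.Ico 0 R, ‖∑ j ∈ Finset.Ico 0 R, T i j • f j‖ ^ p.toReal ≤
      ε ^ p.toReal * ∑ j ∈ Finset.Ico 0 R, ‖f j‖ ^ p.toReal := by
  simp only [norm_rpow_eq]
  unfold II
  rw [← integral_finset_sum _ (fun i _ => integ _), ← integral_finset_sum _ (fun i _ => integ _),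
    ← integral_const_mul]
  apply integral_mono_ae
  · exact integrable_finset_sum _ (fun i _ => integ _)
  · exact (integrable_finset_sum _ (fun i _ => integ _)).const_mul _
  have h1 : ∀ i, ∀ᵐ x ∂μ, (∑ j ∈ Finset.Ico 0 R, T i j • f j : Lp ℂ p μ) x =
      ∑ j ∈ Finset.Ico 0 R, T i j * f j x := by
    intro i
    have h2 : ∀ᵐ x ∂μ, ∀ j, (T i j • f j : Lp ℂ p μ) x = T i j * f j x := by
      rw [ae_all_iff]
      intro j
      filter_upwards [Lp.coeFn_smul (T i j) (f j)] with x hx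
      rw [hx]; rfl
    filter_upwards [Lp.coeFn_finsetSum (Finset.Ico 0 R) (fun j => T i j • f j), h2] with x h3 h4
    rw [h3, Finset.sum_apply]
    exact Finset.sum_congr rfl fun j _ => h4 j
  have h2 : ∀ᵐ x ∂μ, ∀ i, (∑ j ∈ Finset.Ico 0 R, T i j • f j : Lp ℂ p μ) x =
      ∑ j ∈ Finset.Ico 0 R, T i j * f j x := ae_all_iff.2 h1
  filter_upwards [h2] with x hx
  simp only [hx]
  exact hT (fun j => f j x)

variable {X : Type} [TopologicalSpace X] [CompactSpace X] {h : X ≃ₜ X}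
variable {π₀ : C(X, ℂ) →ₐ[ℂ] (Lp ℂ p μ →L[ℂ] Lp ℂ p μ)}

lemma regRep_vel (hπ : ∀ f, ‖π₀ f‖ ≤ ‖f‖) (R : ℤ) (w : C(X, ℂ)) (M : ℤ → ℤ → ℂ)
    (ξ : LpZ p (Lp ℂ p μ)) (n : ℤ) :
    regRep h π₀ hπ (vel R w M : CC p X h) ξ n =
      ∑ t ∈ Finset.Ico 0 R, π₀ (tr h (n - t) w) (∑ j ∈ Finset.Ico 0 R, M t j • ξ (n - t + j)) := by
  unfold vel cel
  rw [map_sum, _root_.sum_apply, lp.coeFn_sum, Finset.sum_apply]
  apply Finset.sum_congr rfl
  intro t _
  rw [map_sum, _root_.sum_apply, lp.coeFn_sum, Finset.sum_apply, map_sum]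
  apply Finset.sum_congr rfl
  intro j _
  rw [regRep_sgl_apply]
  have e1 : (tr h (-t) (M t j • w)).comp ((h ^ n : X ≃ₜ X) : C(X, X)) =
      M t j • tr h (n - t) w := by
    ext x
    show M t j • w ((h ^ (-t)) ((h ^ n) x)) = M t j • w ((h ^ (n - t)) x)
    rw [hz_add, neg_add_eq_sub]
  have e2 : n - (t - j) = n - t + j := by ring
  rw [e1, e2, map_smul, map_smul]
  rfl

lemma regRep_vel_le [NormalSpace X] (hπ : ∀ f, ‖π₀ f‖ ≤ ‖f‖) {F : Set X} (hF : IsClosed F) {R : ℤ}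
    (hS : Sep h F R) {w : C(X, ℂ)} (hw0 : ∀ x, x ∉ F → w x = 0) (hw1 : ∀ x, ‖w x‖ ≤ 1)
    {M : ℤ → ℤ → ℂ} {ε : ℝ} (hε : 0 ≤ ε) (hM : MBZ p.toReal R M ε) (ξ : LpZ p (Lp ℂ p μ)) :
    ‖regRep h π₀ hπ (vel R w M : CC p X h) ξ‖ ≤ ε * ‖ξ‖ := by
  classical
  set r := p.toReal with hr
  have hr0 : 0 < r := pr_pos'
  set I := Finset.Ico (0 : ℤ) R with hI
  let A : ℤ → ℤ → ℝ := fun s t => ‖∑ j ∈ I, M t j • π₀ (tr h s w) (ξ (s + j))‖ ^ r
  let B : ℤ → ℤ → ℝ := fun s j => ‖π₀ (tr h s w) (ξ (s + j))‖ ^ r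
  have hA0 : ∀ s t, 0 ≤ A s t := fun s t => by positivity
  have hB0 : ∀ s t, 0 ≤ B s t := fun s t => by positivity
  let G : ℤ → Set X := fun s => (h ^ s : X ≃ₜ X) ⁻¹' F
  have hG : ∀ s, IsClosed (G s) := fun s => hF.preimage (h ^ s).continuous
  have hdj : ∀ n : ℤ, ∀ t ∈ I, ∀ t' ∈ I, t ≠ t' → Disjoint (G (n - t)) (G (n - t')) := by
    intro n t ht t' ht' hne
    rw [hI, Finset.mem_Ico] at ht ht'
    rw [Set.disjoint_left]
    intro z hz hz'
    have := hS.ne (m := n - t) (n := n - t') hz hz' (by omega) (by omega)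
    omega
  have hsp : ∀ s (η : Lp ℂ p μ), SP π₀ (G s) (π₀ (tr h s w) η) := by
    intro s η
    apply SP_of
    intro x hx
    exact hw0 _ hx
  -- first equality
  have e1 : ∀ n : ℤ, ‖regRep h π₀ hπ (vel R w M : CC p X h) ξ n‖ ^ r =
      ∑ t ∈ I, A (n - t) t := by
    intro n
    rw [regRep_vel, SP.norm_sum hπ I (F := fun t => G (n - t)) (fun t _ => hG _) (hdj n)
      (fun t _ => hsp _ _)]
    apply Finset.sum_congr rfl
    intro t _
    simp only [A, map_sum, map_smul]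
    rfl
  have e2 : ∀ s : ℤ, ∑ t ∈ I, A s t ≤ ε ^ r * ∑ j ∈ I, B s j := fun s =>
    hM.lp (fun j : ℤ => π₀ (tr h s w) (ξ (s + j)))
  have e3 : ∀ n : ℤ, ∑ t ∈ I, B (n - t) t ≤ ‖ξ n‖ ^ r := by
    intro n
    have h1 : ∑ t ∈ I, B (n - t) t = ∑ t ∈ I, ‖π₀ (tr h (n - t) w) (ξ n)‖ ^ r := by
      apply Finset.sum_congr rfl
      intro t _
      simp only [B, sub_add_cancel]
    rw [h1, ← SP.norm_sum hπ I (F := fun t => G (n - t)) (fun t _ => hG _) (hdj n)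
      (fun t _ => hsp _ _)]
    apply Real.rpow_le_rpow (norm_nonneg _) _ hr0.le
    have h2 : ∑ t ∈ I, π₀ (tr h (n - t) w) (ξ n) = π₀ (∑ t ∈ I, tr h (n - t) w) (ξ n) := by
      rw [map_sum]
      exact (ContinuousLinearMap.sum_apply _ _ _).symm
    rw [h2]
    have h3 : ‖∑ t ∈ I, tr h (n - t) w‖ ≤ 1 := by
      rw [ContinuousMap.norm_le _ zero_le_one]
      intro x
      rw [ContinuousMap.sum_apply]
      by_cases hx : ∃ t ∈ I, x ∈ G (n - t)
      · obtain ⟨t, ht, hxt⟩ := hx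
        rw [Finset.sum_eq_single t]
        · exact hw1 _
        · intro t' ht' hne
          apply hw0
          intro hmem
          exact Set.disjoint_left.1 (hdj n t' ht' t ht hne) hmem hxt
        · intro h'; exact absurd ht h'
      · push Not at hx
        rw [Finset.sum_eq_zero]
        · simp
        · intro t ht
          exact hw0 _ (hx t ht)
    calc ‖π₀ (∑ t ∈ I, tr h (n - t) w) (ξ n)‖ ≤ ‖π₀ (∑ t ∈ I, tr h (n - t) w)‖ * ‖ξ n‖ :=
          (π₀ _).le_opNorm _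
      _ ≤ 1 * ‖ξ n‖ := by
        have := (hπ (∑ t ∈ I, tr h (n - t) w)).trans h3
        gcongr
      _ = ‖ξ n‖ := one_mul _
  -- summation in `[0, ∞]`
  have s1 : ∑' n : ℤ, ENNReal.ofReal (‖regRep h π₀ hπ (vel R w M : CC p X h) ξ n‖ ^ r) =
      ∑' s : ℤ, ∑ t ∈ I, ENNReal.ofReal (A s t) := by
    calc _ = ∑' n : ℤ, ∑ t ∈ I, ENNReal.ofReal (A (n - t) t) := by
          apply tsum_congr
          intro n
          rw [e1 n, ENNReal.ofReal_sum_of_nonneg (fun q _ => hA0 _ _)]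
      _ = ∑ t ∈ I, ∑' n : ℤ, ENNReal.ofReal (A (n - t) t) :=
          Summable.tsum_finsetSum fun _ _ => ENNReal.summable
      _ = ∑ t ∈ I, ∑' s : ℤ, ENNReal.ofReal (A s t) := by
          apply Finset.sum_congr rfl
          intro t _
          exact (Equiv.subRight t).tsum_eq (fun s => ENNReal.ofReal (A s t))
      _ = _ := (Summable.tsum_finsetSum fun _ _ => ENNReal.summable).symm
  have s2 : ∑' s : ℤ, ∑ t ∈ I, ENNReal.ofReal (A s t) ≤
      ENNReal.ofReal (ε ^ r) * ∑' s : ℤ, ∑ j ∈ I, ENNReal.ofReal (B s j) := by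
    rw [← ENNReal.tsum_mul_left]
    apply ENNReal.tsum_le_tsum
    intro s
    rw [← ENNReal.ofReal_sum_of_nonneg (fun _ _ => hA0 _ _),
      ← ENNReal.ofReal_sum_of_nonneg (fun _ _ => hB0 _ _), ← ENNReal.ofReal_mul (by positivity)]
    exact ENNReal.ofReal_le_ofReal (e2 s)
  have s3 : ∑' s : ℤ, ∑ j ∈ I, ENNReal.ofReal (B s j) ≤
      ∑' n : ℤ, ENNReal.ofReal (‖ξ n‖ ^ r) := by
    calc _ = ∑ j ∈ I, ∑' s : ℤ, ENNReal.ofReal (B s j) :=
          Summable.tsum_finsetSum fun _ _ => ENNReal.summable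
      _ = ∑ j ∈ I, ∑' n : ℤ, ENNReal.ofReal (B (n - j) j) := by
          apply Finset.sum_congr rfl
          intro j _
          exact ((Equiv.subRight j).tsum_eq (fun s => ENNReal.ofReal (B s j))).symm
      _ = ∑' n : ℤ, ∑ j ∈ I, ENNReal.ofReal (B (n - j) j) :=
          (Summable.tsum_finsetSum fun _ _ => ENNReal.summable).symm
      _ ≤ _ := by
          apply ENNReal.tsum_le_tsum
          intro n
          rw [← ENNReal.ofReal_sum_of_nonneg (fun _ _ => hB0 _ _)]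
          exact ENNReal.ofReal_le_ofReal (e3 n)
  have s4 : ∑' n : ℤ, ENNReal.ofReal (‖regRep h π₀ hπ (vel R w M : CC p X h) ξ n‖ ^ r) ≤
      ENNReal.ofReal (ε ^ r) * ∑' n : ℤ, ENNReal.ofReal (‖ξ n‖ ^ r) := by
    rw [s1]
    exact s2.trans (by gcongr)
  have sumξ : Summable fun n => ‖ξ n‖ ^ r := (memℓp_gen_iff pr_pos).1 (lp.memℓp ξ)
  have sumη : Summable fun n => ‖regRep h π₀ hπ (vel R w M : CC p X h) ξ n‖ ^ r :=
    (memℓp_gen_iff pr_pos).1 (lp.memℓp _)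
  apply lp.norm_le_of_tsum_le pr_pos (by positivity)
  rw [Real.mul_rpow hε (norm_nonneg _), lp.norm_rpow_eq_tsum pr_pos]
  rw [← ENNReal.ofReal_tsum_of_nonneg (fun _ => by positivity) sumη,
    ← ENNReal.ofReal_tsum_of_nonneg (fun _ => by positivity) sumξ,
    ← ENNReal.ofReal_mul (by positivity)] at s4
  refine (ENNReal.ofReal_le_ofReal_iff ?_).1 s4
  have : 0 ≤ ∑' n, ‖ξ n‖ ^ r := tsum_nonneg fun _ => by positivity
  positivity

end

/-- the reduced norm of a window element with a constant matrix -/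
theorem norm_vel_le {p : ℝ≥0∞} [Fact (1 ≤ p)] [hpt : Fact (p ≠ ∞)]
    {X : Type} [TopologicalSpace X] [CompactSpace X] {h : X ≃ₜ X} [NormalSpace X]
    {F : Set X} (hF : IsClosed F) {R : ℤ}
    (hS : Sep h F R) {w : C(X, ℂ)} (hw0 : ∀ x, x ∉ F → w x = 0) (hw1 : ∀ x, ‖w x‖ ≤ 1)
    {M : ℤ → ℤ → ℂ} {ε : ℝ} (hε : 0 ≤ ε) (hM : MBZ p.toReal R M ε) :
    ‖(vel R w M : CC p X h)‖ ≤ ε := by
  rw [norm_def]
  apply redNorm_le _ hε
  rintro r ⟨Y, mY, μ, hμ, π₀, hπ, rfl⟩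
  rw [regOp_eq]
  exact ContinuousLinearMap.opNorm_le_bound _ hε
    (fun ξ => regRep_vel_le hπ hF hS hw0 hw1 hε hM ξ)

end H382FP
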