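import Mathlib
import Pool.Agent.H382R3.FG.VNorm
import Pool.Agent.H382R3.FP.Blk

/-!
# The nilpotent factorisation (helper382, for MP_3ad462_an)
-/

set_option autoImplicit false
set_option linter.unusedSectionVars false

open scoped ENNReal
open MeasureTheory Topology

namespace H382FP

section ring

variable {A : Type*} [Ring A]

lemma unit_add {n : A} (h : n * n = 0) : IsUnit (1 + n) := by
  have h1 : (1 + n) * (1 - n) = 1 := by
    have : (1 + n) * (1 - n) = 1 - n * n := by noncomm_ring
    rw [this, h, sub_zero]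
  have h2 : (1 - n) * (1 + n) = 1 := by
    have : (1 - n) * (1 + n) = 1 - n * n := by noncomm_ring
    rw [this, h, sub_zero]
  exact ⟨⟨1 + n, 1 - n, h1, h2⟩, rfl⟩

lemma unit_sub {n : A} (h : n * n = 0) : IsUnit (1 - n) := by
  rw [sub_eq_add_neg]
  exact unit_add (by rw [neg_mul_neg, h])

/-- the algebraic core -/
lemma ring_core {n1 n2 n3 n4 p3 p4 U : A} (h2U : n2 * U = 0) (hU3 : U * n3 = 0)
    (h21 : n2 * n1 = p3) (h43 : n4 * n3 = p4) (h41 : n4 * n1 = 0) (h4p : n4 * p3 = n4) {k : ℕ}
    (hS : ((1 - p4) * ((1 + n1 - p3) * U)) ^ k = 0) :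
    ((1 - n4) * (1 + n3) * (1 - n2) * (1 + n1) * U) ^ (k + 1) = 0 := by
  set V : A := (1 + n1 - p3) * U with hV
  have e1 : (1 - n2) * (1 + n1) * U = V := by
    have : (1 - n2) * (1 + n1) * U = U + n1 * U - n2 * U - (n2 * n1) * U := by noncomm_ring
    rw [this, h2U, h21, hV]; noncomm_ring
  have e2 : n4 * V = 0 := by
    have : n4 * V = n4 * U + (n4 * n1) * U - (n4 * p3) * U := by rw [hV]; noncomm_ring
    rw [this, h41, h4p]; noncomm_ring
  set S : A := (1 - n4) * (1 + n3) * (1 - n2) * (1 + n1) * U with hSdef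
  have e3 : S = (1 - p4) * V + n3 * V := by
    have h1 : S = (1 - n4) * (1 + n3) * ((1 - n2) * (1 + n1) * U) := by
      rw [hSdef]; simp only [mul_assoc]
    have h2 : (1 - n4) * (1 + n3) * V = V + n3 * V - n4 * V - (n4 * n3) * V := by noncomm_ring
    rw [h1, e1, h2, e2, h43]; noncomm_ring
  have e4 : S * (n3 * V) = 0 := by
    have : S * (n3 * V) = (1 - n4) * (1 + n3) * (1 - n2) * (1 + n1) * (U * n3) * V := by
      rw [hSdef]; simp only [mul_assoc]
    rw [this, hU3]; simp
  have e5 : ∀ m : ℕ, S ^ (m + 1) = S * ((1 - p4) * V) ^ m := by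
    intro m
    induction m with
    | zero => simp
    | succ m ih =>
      rw [pow_succ, ih]
      have h1 : S * ((1 - p4) * V) ^ m * S = S * ((1 - p4) * V) ^ m * ((1 - p4) * V) +
          S * ((1 - p4) * V) ^ m * (n3 * V) := by
        conv_lhs => rw [e3]
        rw [← mul_add, ← e3]
      rw [h1, ← ih, pow_succ S m, mul_assoc (S ^ m) S (n3 * V), e4, mul_zero, add_zero]
      rw [← pow_succ, ih, mul_assoc, ← pow_succ]
  rw [e5, hS, mul_zero]

end ring

section rank

/-- finite-rank matrices -/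
noncomputable def rk (B : ℕ) (α β : ℕ → ℤ → ℂ) (t j : ℤ) : ℂ :=
  ∑ b ∈ Finset.range B, α b t * β b j

/-- pairing over the window -/
noncomputable def prg (R : ℤ) (β α : ℤ → ℂ) : ℂ := ∑ k ∈ Finset.Ico 0 R, β k * α k

lemma mm_rk (R : ℤ) (B : ℕ) (α β α' β' : ℕ → ℤ → ℂ) (t j : ℤ) :
    mm R (rk B α β) (rk B α' β') t j =
      ∑ b ∈ Finset.range B, ∑ b' ∈ Finset.range B, α b t * prg R (β b) (α' b') * β' b' j := by
  unfold mm rk prg
  simp only [Finset.sum_mul, Finset.mul_sum]
  rw [Finset.sum_comm]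
  rw [Finset.sum_comm]
  have e1 : ∀ k ∈ Finset.Ico (0 : ℤ) R, ∑ i ∈ Finset.range B, ∑ b ∈ Finset.range B,
      α b t * β b k * (α' i k * β' i j) = ∑ b ∈ Finset.range B, ∑ i ∈ Finset.range B,
      α b t * β b k * (α' i k * β' i j) := fun k _ => Finset.sum_comm
  rw [Finset.sum_congr rfl e1, Finset.sum_comm]
  apply Finset.sum_congr rfl
  intro b _
  rw [Finset.sum_comm]
  apply Finset.sum_congr rfl
  intro b' _
  apply Finset.sum_congr rfl
  intro k _
  ring

lemma mm_rk_delta {R : ℤ} {B : ℕ} {α β α' β' : ℕ → ℤ → ℂ}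
    (hd : ∀ b b', b < B → b' < B → prg R (β b) (α' b') = if b = b' then 1 else 0) (t j : ℤ) :
    mm R (rk B α β) (rk B α' β') t j = rk B α β' t j := by
  rw [mm_rk]
  unfold rk
  apply Finset.sum_congr rfl
  intro b hb
  rw [Finset.mem_range] at hb
  rw [Finset.sum_eq_single b]
  · rw [hd b b hb hb, if_pos rfl, mul_one]
  · intro b' hb' hne
    rw [Finset.mem_range] at hb'
    rw [hd b b' hb hb', if_neg (Ne.symm hne)]; simp
  · intro h1; exact absurd (Finset.mem_range.2 hb) h1

lemma mm_rk_zero {R : ℤ} {B : ℕ} {α β α' β' : ℕ → ℤ → ℂ}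
    (hd : ∀ b b', b < B → b' < B → prg R (β b) (α' b') = 0) (t j : ℤ) :
    mm R (rk B α β) (rk B α' β') t j = 0 := by
  rw [mm_rk]
  apply Finset.sum_eq_zero
  intro b hb
  rw [Finset.mem_range] at hb
  apply Finset.sum_eq_zero
  intro b' hb'
  rw [Finset.mem_range] at hb'
  rw [hd b b' hb hb']; simp

/-- coordinate vectors -/
noncomputable def ec (C : ℕ → ℤ) (b : ℕ) : ℤ → ℂ := Pi.single (C b) 1

lemma ec_ne {C : ℕ → ℤ} {b : ℕ} {i : ℤ} (hi : i ≠ C b) : ec C b i = 0 := by
  unfold ec
  exact Pi.single_eq_of_ne hi 1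

lemma ec_same {C : ℕ → ℤ} {b : ℕ} {i : ℤ} (hi : i = C b) : ec C b i = 1 := by
  unfold ec
  rw [hi, Pi.single_eq_same]

lemma prg_ec_left {R : ℤ} {C : ℕ → ℤ} {b : ℕ} (h0 : 0 ≤ C b) (h1 : C b < R) (α : ℤ → ℂ) :
    prg R (ec C b) α = α (C b) := by
  unfold prg ec
  rw [Finset.sum_eq_single (C b)]
  · simp
  · intro k _ hk
    rw [Pi.single_eq_of_ne hk, zero_mul]
  · intro h2
    exact absurd (Finset.mem_Ico.2 ⟨h0, h1⟩) h2

lemma prg_ec_right {R : ℤ} {C : ℕ → ℤ} {b : ℕ} (h0 : 0 ≤ C b) (h1 : C b < R) (α : ℤ → ℂ) :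
    prg R α (ec C b) = α (C b) := by
  unfold prg ec
  rw [Finset.sum_eq_single (C b)]
  · simp
  · intro k _ hk
    rw [Pi.single_eq_of_ne hk, mul_zero]
  · intro h2
    exact absurd (Finset.mem_Ico.2 ⟨h0, h1⟩) h2

end rank

/-- the combinatorial data -/
structure WData (R s : ℤ) (B : ℕ) (ξ φ v y : ℕ → ℤ → ℂ) (C E : ℕ → ℤ) : Prop where
  dφξ : ∀ b b', b < B → b' < B → prg R (φ b) (ξ b') = if b = b' then 1 else 0
  dvy : ∀ b b', b < B → b' < B → prg R (v b) (y b') = if b = b' then 1 else 0
  ξC : ∀ b b', b < B → b' < B → ξ b' (C b) = if b = b' then 1 else 0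
  vE : ∀ b b', b < B → b' < B → v b (E b' - s) = if b = b' then 1 else 0
  vC : ∀ b b', b < B → b' < B → v b (C b' - s) = 0
  ξX : ∀ b b' : ℕ, b < B → b' < B → ξ b' (b : ℤ) = 0
  BC : ∀ b, b < B → (B : ℤ) ≤ C b
  CE : ∀ b, b < B → C b < E b
  ER : ∀ b, b < B → E b < R
  CEne : ∀ b b', b < B → b' < B → C b ≠ E b'
  vs : ∀ b, b < B → ∀ k, ¬(0 ≤ k ∧ k + s < R) → v b k = 0

variable {p : ℝ≥0∞} [Fact (1 ≤ p)] [hpt : Fact (p ≠ ∞)]
variable {X : Type} [TopologicalSpace X] [CompactSpace X] {h : X ≃ₜ X}

/-- nilpotency from non-crossing -/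
lemma nilp {S : CC p X h} {Ys : Set X} {J : ℕ}
    (hgap : ∀ x : X, ∃ k : ℕ, k < J ∧ (h ^ (-(k : ℤ))) x ∈ Ys)
    (hS : ∀ v ∈ Ys, ∀ i : ℤ, 0 ≤ i → ∀ ζ : ℤ → ℂ, (∀ j, 0 ≤ j → j < i → ζ j = 0) →
      ev v S ζ i = 0) : S ^ J = 0 := by
  have key : ∀ v ∈ Ys, ∀ (ζ : ℤ → ℂ) (k : ℕ) (i : ℤ), 0 ≤ i → i < k → ev v (S ^ k) ζ i = 0 := by
    intro v hv ζ k
    induction k with
    | zero => intro i h0 h1; exfalso; simp at h1; omega
    | succ k ih =>
      intro i h0 h1
      rw [pow_succ', ev_mul_apply]
      apply hS v hv i h0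
      intro j hj0 hj1
      apply ih j hj0
      push_cast at h1
      omega
  apply CC.ext
  intro x ξ
  obtain ⟨k, hk1, hk2⟩ := hgap x
  obtain ⟨v, hv⟩ : ∃ v, v = (h ^ (-(k : ℤ))) x := ⟨_, rfl⟩
  rw [← hv] at hk2
  have e : x = (h ^ (k : ℤ)) v := by
    rw [hv, hz_add, add_neg_cancel, hz_zero]
  rw [e, ev_shift, map_zero, zero_add]
  rw [key v hk2 _ J k (by omega) (by exact_mod_cast hk1)]
  rfl

section main

variable {R s : ℤ} {B : ℕ} {ξ φ v y : ℕ → ℤ → ℂ} {C E : ℕ → ℤ}

/-- the modified element -/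
noncomputable def Amod (a : CC p X h) (R : ℤ) (B : ℕ) (w : C(X, ℂ)) (ξ φ v y : ℕ → ℤ → ℂ) :
    CC p X h :=
  (1 - vel R w (rk B y v)) * a * (1 - vel R w (rk B ξ φ))

/-- **nilpotent factorisation** -/
theorem nil_main (hW : WData R s B ξ φ v y C E) {F : Set X} (hF : Sep h F R)
    {w1 w3 w4 : C(X, ℂ)} (h1 : ∀ x, x ∉ F → w1 x = 0) (h3 : ∀ x, x ∉ F → w3 x = 0)
    (h4 : ∀ x, x ∉ F → w4 x = 0) (h13 : w3 * w1 = w3) (h34 : w4 * w3 = w4)
    {a : CC p X h} {m : ℕ} (hm : Band m (Amod a R B w1 ξ φ v y)) (hms : (m : ℤ) < s)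
    (hsB : s + m ≤ B) {J : ℕ}
    (hgap : ∀ x : X, ∃ k : ℕ, k < J ∧ (h ^ (-(k : ℤ))) x ∈ {x | w4 x = 1}) :
    ∃ Θ : CC p X h, IsUnit Θ ∧ (Θ * Amod a R B w1 ξ φ v y) ^ (J + 1) = 0 := by
  set A' := Amod a R B w1 ξ φ v y with hA'
  have hs0 : 0 ≤ s := by omega
  set eX : ℕ → ℤ → ℂ := ec (fun b => (b : ℤ)) with heX
  set eC : ℕ → ℤ → ℂ := ec C with heC
  set eE : ℕ → ℤ → ℂ := ec E with heE
  set vs : ℕ → ℤ → ℂ := fun b j => v b (j - s) with hvs
  have hC0 : ∀ b, b < B → 0 ≤ C b ∧ C b < R := fun b hb => by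
    have := hW.BC b hb; have := hW.CE b hb; have := hW.ER b hb; omega
  have hE0 : ∀ b, b < B → 0 ≤ E b ∧ E b < R := fun b hb => by
    have := hW.BC b hb; have := hW.CE b hb; have := hW.ER b hb; omega
  have hX0 : ∀ b, b < B → 0 ≤ (b : ℤ) ∧ (b : ℤ) < R := fun b hb => by
    have := hW.BC b hb; have := hW.CE b hb; have := hW.ER b hb; omega
  have w41 : w4 * w1 = w4 := by
    calc w4 * w1 = w4 * w3 * w1 := by rw [h34]
      _ = w4 * (w3 * w1) := by rw [mul_assoc]
      _ = w4 := by rw [h13, h34]
  set n1 : CC p X h := vel R w3 (rk B eE eC) with hn1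
  set n2 : CC p X h := vel R w3 (rk B eC vs) with hn2
  set n3 : CC p X h := vel R w4 (rk B ξ eX) with hn3
  set n4 : CC p X h := vel R w4 (rk B eX eC) with hn4
  set p3 : CC p X h := vel R (w3 * w3) (rk B eC eC) with hp3
  set p4 : CC p X h := vel R (w4 * w4) (rk B eX eX) with hp4
  -- squares
  have q1 : n1 * n1 = 0 := by
    rw [hn1, vel_mul hF h3 h3]
    apply vel_zero
    intro t j _ _ _ _
    apply mm_rk_zero
    intro b b' hb hb'
    rw [heC, prg_ec_left (hC0 b hb).1 (hC0 b hb).2, heE]
    exact ec_ne (hW.CEne b b' hb hb')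
  have q2 : n2 * n2 = 0 := by
    rw [hn2, vel_mul hF h3 h3]
    apply vel_zero
    intro t j _ _ _ _
    apply mm_rk_zero
    intro b b' hb hb'
    rw [heC, prg_ec_right (hC0 b' hb').1 (hC0 b' hb').2]
    exact hW.vC b b' hb hb'
  have q3 : n3 * n3 = 0 := by
    rw [hn3, vel_mul hF h4 h4]
    apply vel_zero
    intro t j _ _ _ _
    apply mm_rk_zero
    intro b b' hb hb'
    rw [heX, prg_ec_left (hX0 b hb).1 (hX0 b hb).2]
    exact hW.ξX b b' hb hb'
  have q4 : n4 * n4 = 0 := by
    rw [hn4, vel_mul hF h4 h4]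
    apply vel_zero
    intro t j _ _ _ _
    apply mm_rk_zero
    intro b b' hb hb'
    rw [heC, prg_ec_left (hC0 b hb).1 (hC0 b hb).2, heX]
    have := hW.BC b hb
    apply ec_ne
    show C b ≠ (b' : ℤ)
    omega
  -- products
  have h21 : n2 * n1 = p3 := by
    rw [hn2, hn1, vel_mul hF h3 h3, hp3]
    apply vel_congr
    intro t j _ _ _ _
    apply mm_rk_delta
    intro b b' hb hb'
    rw [heE, prg_ec_right (hE0 b' hb').1 (hE0 b' hb').2]
    exact hW.vE b b' hb hb'
  have h43 : n4 * n3 = p4 := by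
    rw [hn4, hn3, vel_mul hF h4 h4, hp4]
    apply vel_congr
    intro t j _ _ _ _
    apply mm_rk_delta
    intro b b' hb hb'
    rw [heC, prg_ec_left (hC0 b hb).1 (hC0 b hb).2]
    exact hW.ξC b b' hb hb'
  have h41 : n4 * n1 = 0 := by
    rw [hn4, hn1, vel_mul hF h4 h3]
    apply vel_zero
    intro t j _ _ _ _
    apply mm_rk_zero
    intro b b' hb hb'
    rw [heC, prg_ec_left (hC0 b hb).1 (hC0 b hb).2, heE]
    exact ec_ne (hW.CEne b b' hb hb')
  have h33 : ∀ x, x ∉ F → (w3 * w3) x = 0 := fun x hx => by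
    rw [ContinuousMap.mul_apply, h3 x hx, zero_mul]
  have hCinj : ∀ b b', b < B → b' < B → b ≠ b' → C b ≠ C b' := by
    intro b b' hb hb' hne hCC
    have e1 := hW.ξC b b' hb hb'
    have e2 := hW.ξC b' b' hb' hb'
    rw [if_neg hne] at e1
    rw [if_pos rfl, ← hCC, e1] at e2
    exact zero_ne_one e2
  have h4p : n4 * p3 = n4 := by
    rw [hn4, hp3, vel_mul hF h4 h33]
    have e1 : w4 * (w3 * w3) = w4 := by rw [← mul_assoc, h34, h34]
    rw [e1]
    apply vel_congr
    intro t j _ _ _ _
    apply mm_rk_delta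
    intro b b' hb hb'
    rw [heC, prg_ec_left (hC0 b hb).1 (hC0 b hb).2]
    by_cases hbb : b = b'
    · rw [if_pos hbb, ec_same (by rw [hbb])]
    · rw [if_neg hbb, ec_ne (hCinj b b' hb hb' hbb)]
  -- the two annihilation identities
  set U : CC p X h := us s * A' with hU
  have h2U : n2 * U = 0 := by
    have e1 : n2 * us s = vel R w3 (rk B eC v) := by
      rw [hn2, vel_us hs0]
      · apply vel_congr
        intro t j _ _ _ _
        unfold rk
        apply Finset.sum_congr rfl
        intro b _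
        simp only [hvs, add_sub_cancel_right]
      · intro t j hj
        unfold rk
        apply Finset.sum_eq_zero
        intro b hb
        rw [Finset.mem_range] at hb
        simp only [hvs]
        rw [hW.vs b hb (j - s) (by omega), mul_zero]
    have e2 : (vel R w3 (rk B eC v) : CC p X h) * vel R w1 (rk B y v) = vel R w3 (rk B eC v) := by
      rw [vel_mul hF h3 h1, h13]
      apply vel_congr
      intro t j _ _ _ _
      exact mm_rk_delta hW.dvy t j
    have e3 : n2 * U = (n2 * us s) * (1 - vel R w1 (rk B y v)) *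
        (a * (1 - vel R w1 (rk B ξ φ))) := by
      rw [hU, hA']
      unfold Amod
      simp only [mul_assoc]
    rw [e3, e1, mul_sub, mul_one, e2, sub_self, zero_mul]
  have hU3 : U * n3 = 0 := by
    have e2 : (vel R w1 (rk B ξ φ) : CC p X h) * n3 = n3 := by
      rw [hn3, vel_mul hF h1 h4]
      have : w1 * w4 = w4 := by rw [mul_comm, w41]
      rw [this]
      apply vel_congr
      intro t j _ _ _ _
      exact mm_rk_delta hW.dφξ t j
    have e3 : U * n3 = us s * (1 - vel R w1 (rk B y v)) * a *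
        ((1 - vel R w1 (rk B ξ φ)) * n3) := by
      rw [hU, hA']
      unfold Amod
      simp only [mul_assoc]
    rw [e3, sub_mul, one_mul, e2, sub_self, mul_zero]
  -- the strictly lower triangular part
  have hF1 : ∀ x, w4 x = 1 → x ∈ F := by
    intro x hx
    by_contra hne
    rw [h4 x hne] at hx
    exact zero_ne_one hx
  have hS0 : ((1 - p4) * ((1 + n1 - p3) * U)) ^ J = 0 := by
    apply nilp hgap
    intro x₀ hx₀ i hi ζ hζ
    have hx₀F : x₀ ∈ F := hF1 _ hx₀
    -- the vector `η`
    set η : ℤ → ℂ := ev x₀ U ζ with hη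
    have hη0 : ∀ i' : ℤ, (B : ℤ) ≤ i' → i' ≤ i → η i' = 0 := by
      intro i' h5 h6
      rw [hη, hU, ev_mul_apply, ev_us]
      have e1 : ev x₀ A' ζ (i' - s) = ev x₀ A' 0 (i' - s) := by
        apply ev_local hm
        intro j hj
        rw [abs_le] at hj
        rw [Pi.zero_apply]
        exact hζ j (by omega) (by omega)
      rw [e1, map_zero]; rfl
    set κ : ℤ → ℂ := ev x₀ ((1 + n1 - p3) * U) ζ with hκ
    rw [ev_mul_apply, ← hκ, map_sub, LinearMap.sub_apply, Pi.sub_apply, ev_one_apply]
    by_cases hiB : i < B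
    · have e1 : ev x₀ p4 κ i = κ i := by
        rw [hp4, ev_vel, Finset.sum_eq_single i]
        · rw [Finset.sum_eq_single i]
          · have e2 : rk B eX eX i i = 1 := by
              unfold rk
              have h9 : ((i.toNat : ℕ) : ℤ) = i := Int.toNat_of_nonneg hi
              rw [Finset.sum_eq_single i.toNat]
              · rw [heX, ec_same (h9.symm), mul_one]
              · intro b _ hb
                have h10 : i ≠ (b : ℤ) := fun h11 => hb (by rw [h11]; simp)
                rw [heX, ec_ne h10, zero_mul]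
              · intro h7
                rw [Finset.mem_range] at h7
                omega
            rw [e2, sub_self, hz_zero, ContinuousMap.mul_apply, show w4 x₀ = 1 from hx₀, zero_add]
            simp
          · intro j _ hj
            have e2 : rk B eX eX i j = 0 := by
              unfold rk
              apply Finset.sum_eq_zero
              intro b _
              by_cases hb : i = b
              · have h10 : j ≠ (b : ℤ) := fun h11 => hj (by rw [h11, hb])
                rw [heX, ec_ne (C := fun b => (b : ℤ)) (i := j) h10, mul_zero]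
              · rw [heX, ec_ne (C := fun b => (b : ℤ)) (i := i) hb, zero_mul]
            rw [e2]; simp
          · intro h7
            rw [Finset.mem_Ico] at h7
            have := hX0 i.toNat (by omega)
            omega
        · intro t ht hne
          rw [Finset.mem_Ico] at ht
          apply Finset.sum_eq_zero
          intro j _
          have : (w4 * w4) ((h ^ (i - t)) x₀) = 0 := by
            rw [ContinuousMap.mul_apply, h4, zero_mul]
            intro hmem
            have h8 := hF.ne (m := i - t) (n := 0) hmem (by rw [hz_zero]; exact hx₀F)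
              (by have := hX0 i.toNat (by omega); omega) (by omega)
            omega
          rw [this]; simp
        · intro h7
          rw [Finset.mem_Ico] at h7
          have := hX0 i.toNat (by omega)
          omega
      rw [e1, sub_self]
    · rw [not_lt] at hiB
      have e1 : κ i = 0 := by
        rw [hκ, ev_mul_apply, ← hη, map_sub, map_add, LinearMap.sub_apply, LinearMap.add_apply,
          Pi.sub_apply, Pi.add_apply, ev_one_apply, hη0 i hiB le_rfl]
        have e2 : ev x₀ n1 η i = 0 := by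
          rw [hn1, ev_vel]
          apply Finset.sum_eq_zero
          intro t ht
          rw [Finset.mem_Ico] at ht
          apply Finset.sum_eq_zero
          intro j hj
          rw [Finset.mem_Ico] at hj
          by_cases hmem : (h ^ (i - t)) x₀ ∈ F
          · have h8 : t ≤ i := by
              by_contra hlt
              have := hF.ne (m := i - t) (n := 0) hmem (by rw [hz_zero]; exact hx₀F)
                (by omega) (by omega)
              omega
            unfold rk
            by_cases hb : ∃ b, b < B ∧ t = E b ∧ j = C b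
            · obtain ⟨b, hb1, hb2, hb3⟩ := hb
              have h9 := hW.BC b hb1
              have h10 := hW.CE b hb1
              rw [hη0 (i - t + j) (by omega) (by omega), mul_zero]
            · rw [Finset.sum_eq_zero]
              · simp
              · intro b hb1
                rw [Finset.mem_range] at hb1
                by_cases hb2 : t = E b
                · by_cases hb3 : j = C b
                  · exact absurd ⟨b, hb1, hb2, hb3⟩ hb
                  · rw [heC, ec_ne (i := j) hb3, mul_zero]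
                · rw [heE, ec_ne (i := t) hb2, zero_mul]
          · rw [h3 _ hmem]; simp
        have e3 : ev x₀ p3 η i = 0 := by
          rw [hp3, ev_vel]
          apply Finset.sum_eq_zero
          intro t _
          apply Finset.sum_eq_zero
          intro j _
          by_cases htj : t = j
          · rw [htj, sub_add_cancel, hη0 i hiB le_rfl, mul_zero]
          · have : rk B eC eC t j = 0 := by
              unfold rk
              apply Finset.sum_eq_zero
              intro b _
              by_cases hb : t = C b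
              · have h10 : j ≠ C b := fun h11 => htj (by rw [h11, hb])
                rw [heC, ec_ne (i := j) h10, mul_zero]
              · rw [heC, ec_ne (i := t) hb, zero_mul]
            rw [this]; simp
        rw [e2, e3]; simp
      rw [e1, zero_sub, neg_eq_zero]
      rw [hp4, ev_vel]
      apply Finset.sum_eq_zero
      intro t _
      apply Finset.sum_eq_zero
      intro j _
      by_cases htj : t = j
      · rw [htj, sub_add_cancel, e1, mul_zero]
      · have : rk B eX eX t j = 0 := by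
          unfold rk
          apply Finset.sum_eq_zero
          intro b _
          by_cases hb : t = b
          · have h10 : j ≠ (b : ℤ) := fun h11 => htj (by rw [h11, hb])
            rw [heX, ec_ne (C := fun b => (b : ℤ)) (i := j) h10, mul_zero]
          · rw [heX, ec_ne (C := fun b => (b : ℤ)) (i := t) hb, zero_mul]
        rw [this]; simp
  refine ⟨(1 - n4) * (1 + n3) * (1 - n2) * (1 + n1) * us s, ?_, ?_⟩
  · have hus : IsUnit (us s : CC p X h) :=
      ⟨⟨us s, us (-s), by rw [us_mul, add_neg_cancel, us_zero],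
        by rw [us_mul, neg_add_cancel, us_zero]⟩, rfl⟩
    exact ((((unit_sub q4).mul (unit_add q3)).mul (unit_sub q2)).mul (unit_add q1)).mul hus
  · have := ring_core h2U hU3 h21 h43 h41 h4p hS0
    rw [hU] at this
    simpa only [mul_assoc] using this

end main

end H382FP
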