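import Mathlib
import Pool.Agent.H382R3.FG.Dat
import Pool.Agent.H382R3.FG.Nil

/-!
# The counting argument (helper382, for MP_3ad462_an)
-/

set_option autoImplicit false
set_option linter.unusedSectionVars false

open scoped ENNReal
open MeasureTheory Topology

namespace H382FP

section conv

lemma sum_Ico_fin {M : Type*} [AddCommMonoid M] (n : ℕ) (f : ℤ → M) :
    ∑ i ∈ Finset.Ico (0 : ℤ) n, f i = ∑ i : Fin n, f ((i : ℕ) : ℤ) := by
  have := sum_range_int f n 0
  simp only [add_zero, zero_add] at this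
  rw [← this, Finset.sum_range]

/-- extension by zero -/
noncomputable def xt (n : ℕ) (u : Fin n → ℂ) : ℤ → ℂ :=
  fun i => if hi : 0 ≤ i ∧ i < (n : ℤ) then u ⟨i.toNat, by omega⟩ else 0

lemma xt_fin {n : ℕ} (u : Fin n → ℂ) (i : Fin n) : xt n u ((i : ℕ) : ℤ) = u i := by
  unfold xt
  rw [dif_pos ⟨by omega, by have := i.2; omega⟩]
  congr 1

lemma xt_supp {n N : ℕ} {u : Fin n → ℂ} (hu : ∀ i : Fin n, QPos N n i → u i = 0) (i : ℤ)
    (hi : xt n u i ≠ 0) : 0 + (N : ℤ) ≤ i ∧ i < n - N := by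
  unfold xt at hi
  by_cases h1 : 0 ≤ i ∧ i < (n : ℤ)
  · rw [dif_pos h1] at hi
    by_contra hne
    apply hi
    apply hu
    unfold QPos
    show i.toNat < N ∨ n ≤ i.toNat + N
    omega
  · rw [dif_neg h1] at hi
    exact absurd rfl hi

end conv

section lin

lemma lin_count {n κ : ℕ} (G : Matrix (Fin n) (Fin n) ℂ) (ξ : Fin κ → (Fin n → ℂ))
    (hξ : LinearIndependent ℂ ξ) (hG : ∀ b, G.mulVec (ξ b) = 0) (Q : Finset (Fin n))
    (hQ : Q.card < κ) :
    ∃ u : Fin n → ℂ, u ≠ 0 ∧ G.transpose.mulVec u = 0 ∧ ∀ i ∈ Q, u i = 0 := by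
  have h1 : κ ≤ Module.finrank ℂ (LinearMap.ker G.mulVecLin) := by
    have h2 : LinearIndependent ℂ (fun b => (⟨ξ b, by
        rw [LinearMap.mem_ker, Matrix.mulVecLin_apply]; exact hG b⟩ :
          LinearMap.ker G.mulVecLin)) := by
      apply LinearIndependent.of_comp (LinearMap.ker G.mulVecLin).subtype
      exact hξ
    have := h2.fintype_card_le_finrank
    rwa [Fintype.card_fin] at this
  have h2 : G.rank + Module.finrank ℂ (LinearMap.ker G.mulVecLin) = n := by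
    have := LinearMap.finrank_range_add_finrank_ker G.mulVecLin
    rw [Module.finrank_fin_fun] at this
    exact this
  have h3 : G.transpose.rank + Module.finrank ℂ (LinearMap.ker G.transpose.mulVecLin) = n := by
    have := LinearMap.finrank_range_add_finrank_ker G.transpose.mulVecLin
    rw [Module.finrank_fin_fun] at this
    exact this
  rw [Matrix.rank_transpose] at h3
  set W := LinearMap.ker G.transpose.mulVecLin with hW
  let f : W →ₗ[ℂ] (Q → ℂ) :=
    { toFun := fun u i => (u : Fin n → ℂ) i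
      map_add' := fun u v => rfl
      map_smul' := fun c u => rfl }
  have h4 : Module.finrank ℂ (Q → ℂ) < Module.finrank ℂ W := by
    rw [Module.finrank_fintype_fun_eq_card, Fintype.card_coe]
    omega
  have h5 := LinearMap.ker_ne_bot_of_finrank_lt (f := f) h4
  obtain ⟨u, hu1, hu2⟩ := (Submodule.ne_bot_iff _).1 h5
  refine ⟨u, ?_, ?_, ?_⟩
  · intro h6
    exact hu2 (Subtype.ext h6)
  · have h7 : G.transpose.mulVecLin (u : Fin n → ℂ) = 0 := u.2
    rwa [Matrix.mulVecLin_apply] at h7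
  · intro i hi
    have := congrFun (LinearMap.mem_ker.1 hu1) ⟨i, hi⟩
    exact this

end lin

section dual

variable {p : ℝ≥0∞} [Fact (1 ≤ p)] [hpt : Fact (p ≠ ∞)]

lemma fd_dual {ι : Type} [Fintype ι] (u : ι → ℂ) (hu : u ≠ 0) :
    ∃ y : ι → ℂ, ∑ i, u i * y i = 1 ∧
      ∀ z : ι → ℂ, ‖∑ i, u i * z i‖ ^ p.toReal * ∑ i, ‖y i‖ ^ p.toReal ≤
        ∑ i, ‖z i‖ ^ p.toReal := by
  classical
  set E := PiLp p (fun _ : ι => ℂ)
  let f₀ : E →ₗ[ℂ] ℂ :=
    { toFun := fun z => ∑ i, u i * (WithLp.ofLp z) i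
      map_add' := fun z w => by
        rw [← Finset.sum_add_distrib]
        exact Finset.sum_congr rfl fun i _ => mul_add _ _ _
      map_smul' := fun c z => by
        rw [RingHom.id_apply, smul_eq_mul, Finset.mul_sum]
        exact Finset.sum_congr rfl fun i _ => mul_left_comm _ _ _ }
  let f : E →L[ℂ] ℂ := LinearMap.toContinuousLinearMap f₀
  have hf : ∀ z : ι → ℂ, f (WithLp.toLp p z) = ∑ i, u i * z i := fun z => rfl
  have : ProperSpace E := FiniteDimensional.proper ℂ E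
  obtain ⟨z₀, hz₀, hmax⟩ := (isCompact_closedBall (0 : E) 1).exists_isMaxOn
    (Metric.nonempty_closedBall.2 zero_le_one) (f := fun z => ‖f z‖) f.continuous.norm.continuousOn
  rw [Metric.mem_closedBall, dist_zero_right] at hz₀
  have key : ∀ z : E, ‖f z‖ ≤ ‖f z₀‖ * ‖z‖ := by
    intro z
    by_cases hz : z = 0
    · rw [hz]; simp
    · have hzn : 0 < ‖z‖ := norm_pos_iff.2 hz
      have h1 : ‖f (((‖z‖⁻¹ : ℝ) : ℂ) • z)‖ ≤ ‖f z₀‖ := by
        apply hmax
        rw [Metric.mem_closedBall, dist_zero_right, norm_smul, Complex.norm_real,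
          Real.norm_of_nonneg (by positivity), inv_mul_cancel₀ hzn.ne']
      rw [map_smul, norm_smul, Complex.norm_real, Real.norm_of_nonneg (by positivity),
        inv_mul_le_iff₀ hzn] at h1
      linarith
  obtain ⟨i₀, hi₀⟩ := Function.ne_iff.1 hu
  have hpos : 0 < ‖f z₀‖ := by
    have h1 := key (WithLp.toLp p (Pi.single i₀ 1))
    rw [hf] at h1
    have h2 : ∑ i, u i * (Pi.single i₀ 1 : ι → ℂ) i = u i₀ := by
      rw [Finset.sum_eq_single i₀]
      · simp
      · intro i _ hi; rw [Pi.single_eq_of_ne hi, mul_zero]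
      · intro h3; exact absurd (Finset.mem_univ _) h3
    rw [h2] at h1
    have h3 : 0 < ‖u i₀‖ := norm_pos_iff.2 hi₀
    by_contra hle
    have h4 : ‖f z₀‖ = 0 := le_antisymm (not_lt.1 hle) (norm_nonneg _)
    rw [h4, zero_mul] at h1
    linarith
  have hne : f z₀ ≠ 0 := norm_pos_iff.1 hpos
  have hY : f ((f z₀)⁻¹ • z₀) = 1 := by
    rw [map_smul, smul_eq_mul, inv_mul_cancel₀ hne]
  refine ⟨WithLp.ofLp ((f z₀)⁻¹ • z₀), hY, ?_⟩
  intro z
  rw [← hf, ← pl_norm (p := p), ← pl_norm (p := p)]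
  rw [← Real.mul_rpow (norm_nonneg _) (norm_nonneg _)]
  apply Real.rpow_le_rpow (by positivity) _ prPos.le
  have h5 : ‖(WithLp.toLp p (WithLp.ofLp ((f z₀)⁻¹ • z₀)) : E)‖ = ‖(f z₀)⁻¹ • z₀‖ := rfl
  rw [h5, norm_smul, norm_inv]
  have h6 := key (WithLp.toLp p z)
  calc ‖f (WithLp.toLp p z)‖ * (‖f z₀‖⁻¹ * ‖z₀‖)
      ≤ (‖f z₀‖ * ‖(WithLp.toLp p z : E)‖) * (‖f z₀‖⁻¹ * 1) := by gcongr
    _ = ‖(WithLp.toLp p z : E)‖ := by field_simp

/-- norming functionals on windows -/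
lemma norming_int {n N : ℕ} {ξ : ℤ → ℂ} (hξ : ∀ i, ξ i ≠ 0 → 0 + (N : ℤ) ≤ i ∧ i < n - N)
    (hne : mass p.toReal ξ 0 n ≠ 0) :
    ∃ φ : ℤ → ℂ, Dual N 0 n ξ φ ∧
      ∀ c, ‖∑ i ∈ Finset.Ico (0 : ℤ) n, φ i * c i‖ ^ p.toReal * mass p.toReal ξ 0 n ≤
        mass p.toReal c 0 n := by
  classical
  have hr0 : 0 < p.toReal := prPos
  obtain ⟨φ₀, h1, h2⟩ := fd_norming (p := p) (fun i : Fin n => ξ ((i : ℕ) : ℤ)) (by
    unfold mass at hne
    rwa [sum_Ico_fin] at hne)
  set φ : ℤ → ℂ := xt n (fun i => if QPos N n i then 0 else φ₀ i) with hφ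
  have hφ1 : ∀ i : Fin n, QPos N n i → (fun i : Fin n => if QPos N n i then (0 : ℂ) else φ₀ i) i = 0 :=
    fun i hi => if_pos hi
  refine ⟨φ, ⟨hξ, xt_supp hφ1, ?_⟩, ?_⟩
  · rw [sum_Ico_fin, ← h1]
    apply Finset.sum_congr rfl
    intro i _
    rw [hφ, xt_fin]
    by_cases hi : QPos N n i
    · have : ξ ((i : ℕ) : ℤ) = 0 := by
        by_contra h3
        have := hξ _ h3
        unfold QPos at hi
        omega
      rw [this]; simp
    · simp only [if_neg hi]
  · intro c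
    have h3 := h2 (fun i => if QPos N n i then 0 else c ((i : ℕ) : ℤ))
    unfold mass
    rw [sum_Ico_fin, sum_Ico_fin, sum_Ico_fin]
    have e1 : ∑ i : Fin n, φ ((i : ℕ) : ℤ) * c ((i : ℕ) : ℤ) =
        ∑ i : Fin n, φ₀ i * (if QPos N n i then 0 else c ((i : ℕ) : ℤ)) := by
      apply Finset.sum_congr rfl
      intro i _
      rw [hφ, xt_fin]
      by_cases hi : QPos N n i
      · simp only [if_pos hi]; simp
      · simp only [if_neg hi]
    rw [e1]
    refine h3.trans (Finset.sum_le_sum fun i _ => ?_)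
    by_cases hi : QPos N n i
    · rw [if_pos hi, norm_zero, Real.zero_rpow hr0.ne']; positivity
    · rw [if_neg hi]

/-- dual norming vectors on windows -/
lemma dual_int {n N : ℕ} {u : Fin n → ℂ} (hu : u ≠ 0) (hQ : ∀ i : Fin n, QPos N n i → u i = 0) :
    ∃ y : ℤ → ℂ, Dual N 0 n y (xt n u) ∧
      ∀ z : ℤ → ℂ, ‖∑ i ∈ Finset.Ico (0 : ℤ) n, xt n u i * z i‖ ^ p.toReal * mass p.toReal y 0 n ≤
        mass p.toReal z 0 n := by
  classical
  have hr0 : 0 < p.toReal := prPos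
  obtain ⟨y₀, h1, h2⟩ := fd_dual (p := p) u hu
  set y : ℤ → ℂ := xt n (fun i => if QPos N n i then 0 else y₀ i) with hy
  have hy1 : ∀ i : Fin n, QPos N n i → (fun i : Fin n => if QPos N n i then (0 : ℂ) else y₀ i) i = 0 :=
    fun i hi => if_pos hi
  refine ⟨y, ⟨xt_supp hy1, xt_supp hQ, ?_⟩, ?_⟩
  · rw [sum_Ico_fin, ← h1]
    apply Finset.sum_congr rfl
    intro i _
    rw [hy, xt_fin, xt_fin]
    by_cases hi : QPos N n i
    · rw [hQ i hi]; simp
    · simp only [if_neg hi]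
  · intro z
    have h3 := h2 (fun i => z ((i : ℕ) : ℤ))
    unfold mass
    rw [sum_Ico_fin, sum_Ico_fin, sum_Ico_fin]
    have e1 : ∑ i : Fin n, xt n u ((i : ℕ) : ℤ) * z ((i : ℕ) : ℤ) =
        ∑ i : Fin n, u i * z ((i : ℕ) : ℤ) := by
      apply Finset.sum_congr rfl
      intro i _
      rw [xt_fin]
    rw [e1]
    refine le_trans (mul_le_mul_of_nonneg_left (Finset.sum_le_sum fun i _ => ?_)
      (by positivity)) h3
    rw [hy, xt_fin]
    by_cases hi : QPos N n i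
    · simp only [if_pos hi]
      rw [norm_zero, Real.zero_rpow hr0.ne']; positivity
    · simp only [if_neg hi]; exact le_rfl

end dual

section rank

lemma rk_MBZ {r : ℝ} (hr : 0 < r) {R : ℤ} {B : ℕ} {s t : ℕ → ℤ} {α β : ℕ → ℤ → ℂ} {ε : ℝ}
    (h0 : ∀ b, b < B → 0 ≤ s b) (hR : ∀ b, b < B → t b ≤ R)
    (hd : ∀ b b', b < b' → b' < B → t b ≤ s b')
    (hα : ∀ b, b < B → ∀ i, α b i ≠ 0 → s b ≤ i ∧ i < t b)
    (hβ : ∀ b, b < B → ∀ i, β b i ≠ 0 → s b ≤ i ∧ i < t b)
    (h1 : ∀ b, b < B → R1 r (s b) (t b) (α b) (β b) ε) (hε : 0 ≤ ε) :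
    MBZ r R (rk B α β) ε := by
  intro c
  set q : ℕ → ℂ := fun b => ∑ j ∈ Finset.Ico (s b) (t b), β b j * c j with hq
  have e1 : ∀ i, ∑ j ∈ Finset.Ico 0 R, rk B α β i j * c j = ∑ b ∈ Finset.range B, α b i * q b := by
    intro i
    unfold rk
    simp only [Finset.sum_mul]
    rw [Finset.sum_comm]
    apply Finset.sum_congr rfl
    intro b hb
    rw [Finset.mem_range] at hb
    rw [hq]
    simp only [Finset.mul_sum]
    have e2 := sum_Ico_supp (f := fun j => α b i * (β b j * c j)) (h0 b hb) (hR b hb) (by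
      intro j hj
      exact hβ b hb j (left_ne_zero_of_mul (right_ne_zero_of_mul hj)))
    rw [← e2]
    apply Finset.sum_congr rfl
    intro j _
    ring
  have e3 : ∀ i, ‖∑ b ∈ Finset.range B, α b i * q b‖ ^ r =
      ∑ b ∈ Finset.range B, ‖q b‖ ^ r * ‖α b i‖ ^ r := by
    intro i
    by_cases hex : ∃ b, b < B ∧ α b i ≠ 0
    · obtain ⟨b, hb, hbi⟩ := hex
      have hz : ∀ b' ∈ Finset.range B, b' ≠ b → α b' i = 0 := by
        intro b' hb' hne
        rw [Finset.mem_range] at hb'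
        by_contra h5
        have h6 := hα b hb i hbi
        have h7 := hα b' hb' i h5
        rcases lt_or_gt_of_ne hne with h8 | h8
        · have := hd b' b h8 hb; omega
        · have := hd b b' h8 hb'; omega
      rw [Finset.sum_eq_single b, Finset.sum_eq_single b]
      · rw [norm_mul, Real.mul_rpow (norm_nonneg _) (norm_nonneg _), mul_comm]
      · intro b' hb' hne
        rw [hz b' hb' hne, norm_zero, Real.zero_rpow hr.ne', mul_zero]
      · intro h5; exact absurd (Finset.mem_range.2 hb) h5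
      · intro b' hb' hne
        rw [hz b' hb' hne, zero_mul]
      · intro h5; exact absurd (Finset.mem_range.2 hb) h5
    · push Not at hex
      rw [Finset.sum_eq_zero, Finset.sum_eq_zero, norm_zero, Real.zero_rpow hr.ne']
      · intro b hb
        rw [Finset.mem_range] at hb
        rw [hex b hb, norm_zero, Real.zero_rpow hr.ne', mul_zero]
      · intro b hb
        rw [Finset.mem_range] at hb
        rw [hex b hb, zero_mul]
  simp only [e1, e3]
  rw [Finset.sum_comm]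
  have e4 : ∀ b ∈ Finset.range B, ∑ i ∈ Finset.Ico 0 R, ‖q b‖ ^ r * ‖α b i‖ ^ r ≤
      ε ^ r * mass r c (s b) (t b) := by
    intro b hb
    rw [Finset.mem_range] at hb
    rw [← Finset.mul_sum]
    have := mass_supp hr (h0 b hb) (hR b hb) (hα b hb)
    unfold mass at this
    rw [this]
    exact h1 b hb c
  refine (Finset.sum_le_sum e4).trans ?_
  rw [← Finset.mul_sum]
  apply mul_le_mul_of_nonneg_left _ (by positivity)
  unfold mass
  rw [← Finset.sum_biUnion]
  · apply Finset.sum_le_sum_of_subset_of_nonneg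
    · intro i hi
      rw [Finset.mem_biUnion] at hi
      obtain ⟨b, hb, hi⟩ := hi
      rw [Finset.mem_range] at hb
      rw [Finset.mem_Ico] at hi ⊢
      have := h0 b hb
      have := hR b hb
      omega
    · intro _ _ _; positivity
  · intro b hb b' hb' hne
    rw [Finset.coe_range, Set.mem_Iio] at hb hb'
    rw [Function.onFun, Finset.disjoint_left]
    intro i hi hi'
    rw [Finset.mem_Ico] at hi hi'
    rcases lt_or_gt_of_ne hne with h8 | h8
    · have := hd b b' h8 hb'; omega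
    · have := hd b' b h8 hb; omega

lemma indep_of_dual {n κ : ℕ} {ξ φ : ℕ → ℤ → ℂ}
    (hd : ∀ b b', b < κ → b' < κ → prg n (φ b) (ξ b') = if b = b' then 1 else 0) :
    LinearIndependent ℂ (fun (b : Fin κ) (i : Fin n) => ξ b ((i : ℕ) : ℤ)) := by
  rw [Fintype.linearIndependent_iff]
  intro g hg b
  have h1 : ∀ i : Fin n, ∑ b' : Fin κ, g b' * ξ b' ((i : ℕ) : ℤ) = 0 := by
    intro i
    have := congrFun hg i
    rw [Finset.sum_apply] at this
    exact this
  have h2 : ∑ i : Fin n, φ b ((i : ℕ) : ℤ) * ∑ b' : Fin κ, g b' * ξ b' ((i : ℕ) : ℤ) = 0 := by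
    apply Finset.sum_eq_zero
    intro i _
    rw [h1, mul_zero]
  have h3 : ∑ i : Fin n, φ b ((i : ℕ) : ℤ) * ∑ b' : Fin κ, g b' * ξ b' ((i : ℕ) : ℤ) =
      ∑ b' : Fin κ, g b' * prg n (φ b) (ξ b') := by
    unfold prg
    simp only [sum_Ico_fin, Finset.mul_sum]
    rw [Finset.sum_comm]
    apply Finset.sum_congr rfl
    intro b' _
    apply Finset.sum_congr rfl
    intro i _
    ring
  rw [h3, Finset.sum_eq_single b] at h2
  · rw [hd b b b.2 b.2, if_pos rfl, mul_one] at h2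
    exact h2
  · intro b' _ hne
    rw [hd b b' b.2 b'.2, if_neg (fun h4 => hne (Fin.ext h4.symm)), mul_zero]
  · intro h4; exact absurd (Finset.mem_univ _) h4

/-- pairings of window vectors -/
lemma prg_dual {N : ℕ} {R : ℤ} {B : ℕ} {s t : ℕ → ℤ} {ξ φ : ℕ → ℤ → ℂ}
    (h0 : ∀ b, b < B → 0 ≤ s b) (hR : ∀ b, b < B → t b ≤ R)
    (hd : ∀ b b', b < b' → b' < B → t b ≤ s b')
    (hD : ∀ b, b < B → Dual N (s b) (t b) (ξ b) (φ b)) (b b' : ℕ) (hb : b < B) (hb' : b' < B) :
    prg R (φ b) (ξ b') = if b = b' then 1 else 0 := by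
  by_cases hbb : b = b'
  · subst hbb
    rw [if_pos rfl, ← (hD b hb).2.2]
    unfold prg
    apply sum_Ico_supp (f := fun k => φ b k * ξ b k) (h0 b hb) (hR b hb)
    intro i hi
    have := (hD b hb).1 i (right_ne_zero_of_mul hi)
    omega
  · rw [if_neg hbb]
    unfold prg
    apply Finset.sum_eq_zero
    intro i _
    by_contra hne
    have h1 := (hD b hb).2.1 i (left_ne_zero_of_mul hne)
    have h2 := (hD b' hb').1 i (right_ne_zero_of_mul hne)
    rcases lt_or_gt_of_ne hbb with h8 | h8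
    · have := hd b b' h8 hb'; omega
    · have := hd b' b h8 hb; omega

end rank

variable {p : ℝ≥0∞} [Fact (1 ≤ p)] [hpt : Fact (p ≠ ∞)]
variable {X : Type} [TopologicalSpace X] [CompactSpace X] {h : X ≃ₜ X}

lemma win_arith {P κ b b' : ℕ} (hb : b < b') (hb' : b' < κ) :
    (P : ℤ) + (b : ℤ) * P ≤ (b' : ℤ) * P := by
  have h1 : (b + 1) * P ≤ b' * P := Nat.mul_le_mul_right _ hb
  rw [Nat.succ_mul] at h1
  have : ((b * P + P : ℕ) : ℤ) ≤ ((b' * P : ℕ) : ℤ) := by exact_mod_cast h1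
  push_cast at this
  omega

lemma win_arith2 {P κ b : ℕ} (hb : b < κ) :
    (P : ℤ) + (b : ℤ) * P ≤ ((κ * P : ℕ) : ℤ) := by
  have h1 : (b + 1) * P ≤ κ * P := Nat.mul_le_mul_right _ hb
  rw [Nat.succ_mul] at h1
  have : ((b * P + P : ℕ) : ℤ) ≤ ((κ * P : ℕ) : ℤ) := by exact_mod_cast h1
  push_cast at this ⊢
  omega

/-- **counting, left to right** -/
theorem LtoR {a : CC p X h} {N P : ℕ} (hN : Band N a) {ε : ℝ} (hε : 0 ≤ ε)
    (hall : ∀ x, ∃ ξ φ, LDat a N 0 P ε x ξ φ) (x : X) :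
    ∃ v y, RDat a N 0 (((2 * N + 1) * P : ℕ) : ℤ) ε x v y := by
  classical
  have hr0 : 0 < p.toReal := prPos
  set κ := 2 * N + 1 with hκ
  set n := κ * P with hn
  have hsh : ∀ b : ℕ, ∃ ξ φ, LDat a N ((b : ℤ) * P) (P + (b : ℤ) * P) ε x ξ φ := by
    intro b
    obtain ⟨ξ, φ, h1⟩ := hall ((h ^ ((b : ℤ) * P)) x)
    have h2 := h1.shift
    rw [zero_add] at h2
    exact ⟨_, _, h2⟩
  choose ξ φ hd using hsh
  set s : ℕ → ℤ := fun b => (b : ℤ) * P with hs
  set t : ℕ → ℤ := fun b => P + (b : ℤ) * P with ht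
  have hPN : 2 * N < P := by
    have h1 := (hd 0).1
    have h2 : ∃ i ∈ Finset.Ico (((0 : ℕ) : ℤ) * P) (P + ((0 : ℕ) : ℤ) * P),
        φ 0 i * ξ 0 i ≠ 0 := by
      apply Finset.exists_ne_zero_of_sum_ne_zero
      rw [h1.2.2]; exact one_ne_zero
    obtain ⟨i, _, hi⟩ := h2
    have := h1.1 i (right_ne_zero_of_mul hi)
    push_cast at this
    omega
  have h0 : ∀ b, b < κ → 0 ≤ s b := fun b _ => by simp only [hs]; positivity
  have hR : ∀ b, b < κ → t b ≤ (n : ℤ) := fun b hb => win_arith2 hb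
  have hdis : ∀ b b', b < b' → b' < κ → t b ≤ s b' := fun b b' hb hb' => win_arith hb hb'
  set T : ℤ → ℤ → ℂ := rk κ (fun b => ev x a (ξ b)) φ with hT
  have hMB : MBZ p.toReal n T ε := by
    apply rk_MBZ hr0 h0 hR hdis
    · intro b hb i hi
      exact ev_supp hN (hd b).1.1 i hi
    · intro b hb i hi
      have := (hd b).1.2.1 i hi
      simp only [hs, ht]
      omega
    · intro b hb
      exact (hd b).2
    · exact hε
  have hprg := prg_dual (R := n) h0 hR hdis (fun b _ => (hd b).1)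
  set G : Matrix (Fin n) (Fin n) ℂ :=
    fun i j => Kr a ((i : ℕ) : ℤ) ((j : ℕ) : ℤ) x - T ((i : ℕ) : ℤ) ((j : ℕ) : ℤ) with hG
  have hTx : ∀ b, b < κ → ∀ i : ℤ, ∑ j ∈ Finset.Ico (0 : ℤ) n, T i j * ξ b j = ev x a (ξ b) i := by
    intro b hb i
    have e1 : ∑ j ∈ Finset.Ico (0 : ℤ) n, T i j * ξ b j =
        ∑ b' ∈ Finset.range κ, ev x a (ξ b') i * prg n (φ b') (ξ b) := by
      rw [hT]
      unfold rk prg
      simp only [Finset.sum_mul, Finset.mul_sum]
      rw [Finset.sum_comm]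
      apply Finset.sum_congr rfl
      intro b' _
      apply Finset.sum_congr rfl
      intro j _
      ring
    rw [e1, Finset.sum_eq_single b]
    · rw [hprg b b hb hb, if_pos rfl, mul_one]
    · intro b' hb' hne
      rw [Finset.mem_range] at hb'
      rw [hprg b' b hb' hb, if_neg hne, mul_zero]
    · intro h3; exact absurd (Finset.mem_range.2 hb) h3
  have hker : ∀ b : Fin κ, G.mulVec (fun i : Fin n => ξ b ((i : ℕ) : ℤ)) = 0 := by
    intro b
    funext i
    show ∑ j : Fin n, G i j * ξ b ((j : ℕ) : ℤ) = 0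
    have e1 : ∑ j : Fin n, G i j * ξ b ((j : ℕ) : ℤ) =
        ∑ j ∈ Finset.Ico (0 : ℤ) n, Kr a ((i : ℕ) : ℤ) j x * ξ b j -
          ∑ j ∈ Finset.Ico (0 : ℤ) n, T ((i : ℕ) : ℤ) j * ξ b j := by
      rw [sum_Ico_fin, sum_Ico_fin, ← Finset.sum_sub_distrib]
      apply Finset.sum_congr rfl
      intro j _
      rw [hG]; ring
    rw [e1, hTx b b.2, ← ev_Kr hN x (ξ b) ((i : ℕ) : ℤ) (s := 0) (t := n), sub_self]
    intro j _ _ hj
    have h3 := (hd b).1.1 j hj
    have h4 := h0 b b.2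
    have h5 := hR b b.2
    simp only [hs, ht] at h4 h5
    omega
  set Q : Finset (Fin n) := Finset.univ.filter (fun i : Fin n => QPos N n i) with hQ
  have h2N : 2 * N ≤ n := by
    have : P ≤ κ * P := Nat.le_mul_of_pos_left _ (by omega)
    omega
  obtain ⟨u, hu0, hu1, hu2⟩ := lin_count G _ (indep_of_dual hprg) hker Q (by
    rw [hQ, card_QPos h2N]; omega)
  obtain ⟨y, hy1, hy2⟩ := dual_int (p := p) (N := N) hu0 (fun i hi => hu2 i (by
    rw [hQ, Finset.mem_filter]; exact ⟨Finset.mem_univ _, hi⟩))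
  refine ⟨xt n u, y, hy1, ?_⟩
  intro c
  have e1 : ∀ j ∈ Finset.Ico (0 : ℤ) n, lf a x 0 n (xt n u) j =
      ∑ i ∈ Finset.Ico (0 : ℤ) n, xt n u i * T i j := by
    intro j hj
    rw [Finset.mem_Ico] at hj
    obtain ⟨j', rfl⟩ : ∃ j' : ℕ, j = (j' : ℤ) := ⟨j.toNat, (Int.toNat_of_nonneg hj.1).symm⟩
    have h3 := congrFun hu1 ⟨j', by omega⟩
    have h4 : ∑ i : Fin n, G i ⟨j', by omega⟩ * u i = 0 := h3
    unfold lf
    rw [sum_Ico_fin, sum_Ico_fin, ← sub_eq_zero, ← Finset.sum_sub_distrib, ← h4]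
    apply Finset.sum_congr rfl
    intro i _
    rw [xt_fin, hG]
    ring
  have e2 : ∑ j ∈ Finset.Ico (0 : ℤ) n, lf a x 0 n (xt n u) j * c j =
      ∑ i ∈ Finset.Ico (0 : ℤ) n, xt n u i * ∑ j ∈ Finset.Ico (0 : ℤ) n, T i j * c j := by
    rw [Finset.sum_congr rfl (fun j hj => by rw [e1 j hj])]
    simp only [Finset.sum_mul, Finset.mul_sum]
    rw [Finset.sum_comm]
    apply Finset.sum_congr rfl
    intro i _
    apply Finset.sum_congr rfl
    intro j _
    ring
  rw [e2]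
  exact (hy2 _).trans (hMB c)

/-- **counting, right to left** -/
theorem RtoL {a : CC p X h} {N P : ℕ} (hN : Band N a) {ε : ℝ} (hε : 0 ≤ ε)
    (hall : ∀ x, ∃ v y, RDat a N 0 P ε x v y) (x : X) :
    ∃ ξ φ, LDat a N 0 (((2 * N + 1) * P : ℕ) : ℤ) ε x ξ φ := by
  classical
  have hr0 : 0 < p.toReal := prPos
  set κ := 2 * N + 1 with hκ
  set n := κ * P with hn
  have hsh : ∀ b : ℕ, ∃ v y, RDat a N ((b : ℤ) * P) (P + (b : ℤ) * P) ε x v y := by
    intro b
    obtain ⟨v, y, h1⟩ := hall ((h ^ ((b : ℤ) * P)) x)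
    have h2 := h1.shift
    rw [zero_add] at h2
    exact ⟨_, _, h2⟩
  choose v y hd using hsh
  set s : ℕ → ℤ := fun b => (b : ℤ) * P with hs
  set t : ℕ → ℤ := fun b => P + (b : ℤ) * P with ht
  have hPN : 2 * N < P := by
    have h1 := (hd 0).1
    have h2 : ∃ i ∈ Finset.Ico (((0 : ℕ) : ℤ) * P) (P + ((0 : ℕ) : ℤ) * P),
        v 0 i * y 0 i ≠ 0 := by
      apply Finset.exists_ne_zero_of_sum_ne_zero
      rw [h1.2.2]; exact one_ne_zero
    obtain ⟨i, _, hi⟩ := h2
    have := h1.1 i (right_ne_zero_of_mul hi)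
    push_cast at this
    omega
  have h0 : ∀ b, b < κ → 0 ≤ s b := fun b _ => by simp only [hs]; positivity
  have hR : ∀ b, b < κ → t b ≤ (n : ℤ) := fun b hb => win_arith2 hb
  have hdis : ∀ b b', b < b' → b' < κ → t b ≤ s b' := fun b b' hb hb' => win_arith hb hb'
  set T : ℤ → ℤ → ℂ := rk κ y (fun b => lf a x (s b) (t b) (v b)) with hT
  have hMB : MBZ p.toReal n T ε := by
    apply rk_MBZ hr0 h0 hR hdis
    · intro b hb i hi
      have := (hd b).1.1 i hi
      simp only [hs, ht]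
      omega
    · intro b hb i hi
      exact lf_supp hN (hd b).1.2.1 i hi
    · intro b hb
      exact (hd b).2
    · exact hε
  have hprg := prg_dual (R := n) h0 hR hdis (fun b _ => (hd b).1)
  set G : Matrix (Fin n) (Fin n) ℂ :=
    fun i j => Kr a ((i : ℕ) : ℤ) ((j : ℕ) : ℤ) x - T ((i : ℕ) : ℤ) ((j : ℕ) : ℤ) with hG
  have hlf : ∀ b, b < κ → lf a x (s b) (t b) (v b) = lf a x 0 n (v b) := by
    intro b hb
    symm
    apply lf_mono (h0 b hb) (hR b hb)
    intro i hi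
    have := (hd b).1.2.1 i hi
    simp only [hs, ht]
    omega
  have hTx : ∀ b, b < κ → ∀ j : ℤ, ∑ i ∈ Finset.Ico (0 : ℤ) n, v b i * T i j =
      lf a x (s b) (t b) (v b) j := by
    intro b hb j
    have e1 : ∑ i ∈ Finset.Ico (0 : ℤ) n, v b i * T i j =
        ∑ b' ∈ Finset.range κ, prg n (v b) (y b') * lf a x (s b') (t b') (v b') j := by
      rw [hT]
      unfold rk prg
      simp only [Finset.sum_mul, Finset.mul_sum]
      rw [Finset.sum_comm]
      apply Finset.sum_congr rfl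
      intro b' _
      apply Finset.sum_congr rfl
      intro j _
      ring
    rw [e1, Finset.sum_eq_single b]
    · rw [hprg b b hb hb, if_pos rfl, one_mul]
    · intro b' hb' hne
      rw [Finset.mem_range] at hb'
      rw [hprg b b' hb hb', if_neg (Ne.symm hne), zero_mul]
    · intro h3; exact absurd (Finset.mem_range.2 hb) h3
  have hker : ∀ b : Fin κ, G.transpose.mulVec (fun i : Fin n => v b ((i : ℕ) : ℤ)) = 0 := by
    intro b
    funext j
    show ∑ i : Fin n, G i j * v b ((i : ℕ) : ℤ) = 0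
    have e1 : ∑ i : Fin n, G i j * v b ((i : ℕ) : ℤ) =
        ∑ i ∈ Finset.Ico (0 : ℤ) n, v b i * Kr a i ((j : ℕ) : ℤ) x -
          ∑ i ∈ Finset.Ico (0 : ℤ) n, v b i * T i ((j : ℕ) : ℤ) := by
      rw [sum_Ico_fin, sum_Ico_fin, ← Finset.sum_sub_distrib]
      apply Finset.sum_congr rfl
      intro j _
      rw [hG]; ring
    rw [e1, hTx b b.2, hlf b b.2]
    unfold lf
    rw [sub_self]
  set Q : Finset (Fin n) := Finset.univ.filter (fun i : Fin n => QPos N n i) with hQ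
  have h2N : 2 * N ≤ n := by
    have : P ≤ κ * P := Nat.le_mul_of_pos_left _ (by omega)
    omega
  have hprg' : ∀ b b', b < κ → b' < κ → prg (n : ℤ) (y b) (v b') = if b = b' then 1 else 0 := by
    intro b b' hb hb'
    have e1 : prg (n : ℤ) (y b) (v b') = prg (n : ℤ) (v b') (y b) := by
      unfold prg
      exact Finset.sum_congr rfl fun _ _ => mul_comm _ _
    rw [e1, hprg b' b hb' hb]
    by_cases hbb : b = b'
    · rw [if_pos hbb, if_pos hbb.symm]
    · rw [if_neg hbb, if_neg (Ne.symm hbb)]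
  obtain ⟨u, hu0, hu1, hu2⟩ := lin_count G.transpose _ (indep_of_dual hprg') hker Q (by
    rw [hQ, card_QPos h2N]; omega)
  rw [Matrix.transpose_transpose] at hu1
  have hsupp := xt_supp (N := N) (u := u) (fun i hi => hu2 i (by
    rw [hQ, Finset.mem_filter]; exact ⟨Finset.mem_univ _, hi⟩))
  have hmass : mass p.toReal (xt n u) 0 n ≠ 0 := by
    obtain ⟨i, hi⟩ := Function.ne_iff.1 hu0
    have h3 := le_mass (r := p.toReal) (xt n u) (s := 0) (t := n) (i := ((i : ℕ) : ℤ))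
      (by omega) (by have := i.2; omega)
    rw [xt_fin] at h3
    have h4 : 0 < ‖u i‖ ^ p.toReal := Real.rpow_pos_of_pos (norm_pos_iff.2 hi) _
    linarith
  obtain ⟨φ, hφ1, hφ2⟩ := norming_int (p := p) hsupp hmass
  refine ⟨xt n u, φ, hφ1, ?_⟩
  intro c
  have e1 : ∀ i ∈ Finset.Ico (0 : ℤ) n, ev x a (xt n u) i =
      ∑ j ∈ Finset.Ico (0 : ℤ) n, T i j * xt n u j := by
    intro i hi
    rw [Finset.mem_Ico] at hi
    obtain ⟨i', rfl⟩ : ∃ i' : ℕ, i = (i' : ℤ) := ⟨i.toNat, (Int.toNat_of_nonneg hi.1).symm⟩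
    have h3 := congrFun hu1 ⟨i', by omega⟩
    have h4 : ∑ j : Fin n, G ⟨i', by omega⟩ j * u j = 0 := h3
    rw [ev_Kr hN x (xt n u) (i' : ℤ) (s := 0) (t := n) (fun j _ _ hj => by
      have := hsupp j hj; omega)]
    rw [sum_Ico_fin, sum_Ico_fin, ← sub_eq_zero, ← Finset.sum_sub_distrib, ← h4]
    apply Finset.sum_congr rfl
    intro j _
    rw [xt_fin, hG]
    ring
  have e2 : mass p.toReal (ev x a (xt n u)) 0 n ≤ ε ^ p.toReal * mass p.toReal (xt n u) 0 n := by
    refine le_trans (le_of_eq ?_) (hMB (xt n u))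
    unfold mass
    apply Finset.sum_congr rfl
    intro i hi
    rw [e1 i hi]
  calc ‖∑ j ∈ Finset.Ico (0 : ℤ) n, φ j * c j‖ ^ p.toReal * mass p.toReal (ev x a (xt n u)) 0 n
      ≤ ‖∑ j ∈ Finset.Ico (0 : ℤ) n, φ j * c j‖ ^ p.toReal *
        (ε ^ p.toReal * mass p.toReal (xt n u) 0 n) :=
        mul_le_mul_of_nonneg_left e2 (by positivity)
    _ = ε ^ p.toReal * (‖∑ j ∈ Finset.Ico (0 : ℤ) n, φ j * c j‖ ^ p.toReal *
        mass p.toReal (xt n u) 0 n) := by ring
    _ ≤ _ := mul_le_mul_of_nonneg_left (hφ2 c) (by positivity)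

end H382FP
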