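import Mathlib
import Pool.Agent.H382R3.FG.Cnt

/-!
# Bad data at all points (helper382, for MP_3ad462_an)
-/

set_option autoImplicit false
set_option linter.unusedSectionVars false

open scoped ENNReal
open MeasureTheory Topology

namespace H382FP

variable {p : ℝ≥0∞} [Fact (1 ≤ p)] [hpt : Fact (p ≠ ∞)]
variable {X : Type} [TopologicalSpace X] [CompactSpace X] {h : X ≃ₜ X}

lemma LB.ldat {a : CC p X h} {N L : ℕ} {ε : ℝ} (hε : 0 ≤ ε) {x : X} (hb : LB a N L ε x) :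
    ∃ ξ φ, LDat a N 0 ((L + 2 * N : ℕ) : ℤ) ε x ξ φ := by
  obtain ⟨ξ, h1, h2⟩ := hb
  rw [range_eq_mass, range_eq_mass] at h2
  have hne : mass p.toReal ξ 0 ((L + 2 * N : ℕ) : ℤ) ≠ 0 := by
    intro h0
    rw [h0, mul_zero] at h2
    exact absurd h2 (not_lt.2 (mass_nonneg _ _ _ _))
  obtain ⟨φ, hφ1, hφ2⟩ := norming_int (p := p) (N := N) (fun i hi => by
    have := h1 i hi
    push_cast
    omega) hne
  refine ⟨ξ, φ, hφ1, fun c => ?_⟩
  calc ‖∑ j ∈ Finset.Ico 0 ((L + 2 * N : ℕ) : ℤ), φ j * c j‖ ^ p.toReal *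
        mass p.toReal (ev x a ξ) 0 ((L + 2 * N : ℕ) : ℤ)
      ≤ ‖∑ j ∈ Finset.Ico 0 ((L + 2 * N : ℕ) : ℤ), φ j * c j‖ ^ p.toReal *
        (ε ^ p.toReal * mass p.toReal ξ 0 ((L + 2 * N : ℕ) : ℤ)) :=
        mul_le_mul_of_nonneg_left h2.le (by positivity)
    _ = ε ^ p.toReal * (‖∑ j ∈ Finset.Ico 0 ((L + 2 * N : ℕ) : ℤ), φ j * c j‖ ^ p.toReal *
        mass p.toReal ξ 0 ((L + 2 * N : ℕ) : ℤ)) := by ring
    _ ≤ _ := mul_le_mul_of_nonneg_left (hφ2 c) (by positivity)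

lemma RB.rdat {a : CC p X h} {N L : ℕ} (hN : Band N a) {ε : ℝ} (hε : 0 < ε) {x : X}
    (hb : RB a N L ε x) :
    ∃ v y, RDat a N 0 ((L + 2 * N : ℕ) : ℤ) ε x v y := by
  classical
  obtain ⟨y, h1, h2⟩ := hb
  set n := L + 2 * N with hn
  have hy : ∀ i, y i ≠ 0 → 0 + (N : ℤ) ≤ i ∧ i < n - N := by
    intro i hi
    have := h1 i hi
    rw [hn]; push_cast
    omega
  set m : Fin n → Fin n → ℂ := fun i j =>
    if QPos N n i then 0 else Kr a ((i : ℕ) : ℤ) ((j : ℕ) : ℤ) x with hm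
  obtain ⟨v, hv1, hv2⟩ := fd_right (p := p) m (fun i : Fin n => y ((i : ℕ) : ℤ)) hε (by
    intro ξ hξ
    have h3 := h2 (xt n ξ) (by
      intro i hi
      unfold xt at hi
      by_contra hne
      apply hi
      rw [dif_neg]
      rw [hn]
      push_cast
      omega) (by
      intro i hi1 hi2
      obtain ⟨i', rfl⟩ : ∃ i' : ℕ, i = (i' : ℤ) := ⟨i.toNat, (Int.toNat_of_nonneg (by omega)).symm⟩
      have h4 := hξ ⟨i', by omega⟩
      rw [ev_Kr hN x (xt n ξ) (i' : ℤ) (s := 0) (t := n) (fun j _ _ hj => by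
        unfold xt at hj
        by_contra hne
        apply hj
        rw [dif_neg hne])]
      rw [← h4, sum_Ico_fin]
      apply Finset.sum_congr rfl
      intro j _
      rw [xt_fin, hm]
      simp only
      rw [if_neg]
      unfold QPos
      omega)
    rw [range_eq_mass, range_eq_mass] at h3
    unfold mass at h3
    rw [sum_Ico_fin, sum_Ico_fin] at h3
    refine h3.trans_le (le_of_eq ?_)
    congr 1
    apply Finset.sum_congr rfl
    intro i _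
    rw [xt_fin])
  set v' : ℤ → ℂ := xt n (fun i => if QPos N n i then 0 else v i) with hv'
  have hv'1 : ∀ i : Fin n, QPos N n i → (fun i : Fin n => if QPos N n i then (0 : ℂ) else v i) i = 0 :=
    fun i hi => if_pos hi
  have hyQ : ∀ i : Fin n, QPos N n i → y ((i : ℕ) : ℤ) = 0 := by
    intro i hi
    by_contra hne
    have := hy _ hne
    unfold QPos at hi
    omega
  refine ⟨v', y, ⟨hy, xt_supp hv'1, ?_⟩, ?_⟩
  · rw [sum_Ico_fin, ← hv1]
    apply Finset.sum_congr rfl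
    intro i _
    rw [hv', xt_fin]
    by_cases hi : QPos N n i
    · rw [hyQ i hi]; simp
    · simp only [if_neg hi]
  · intro c
    have h5 := hv2 (fun j => c ((j : ℕ) : ℤ))
    unfold mass
    rw [sum_Ico_fin (f := fun j => lf a x 0 (n : ℤ) v' j * c j), sum_Ico_fin, sum_Ico_fin]
    refine le_trans (le_of_eq ?_) h5
    congr 3
    unfold lf
    simp only [sum_Ico_fin, Finset.sum_mul, Finset.mul_sum]
    rw [Finset.sum_comm]
    apply Finset.sum_congr rfl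
    intro i _
    apply Finset.sum_congr rfl
    intro j _
    rw [hv', xt_fin, hm]
    simp only
    by_cases hi : QPos N n i
    · rw [if_pos hi, if_pos hi]; simp
    · rw [if_neg hi, if_neg hi]; ring

lemma LDat.all {a : CC p X h} {N P : ℕ} (hN : Band N a)
    (hmin : ∀ x : X, Dense (Set.range fun n : ℤ => (h ^ n) x)) {ε : ℝ} (hε : 0 < ε)
    {x₀ : X} {ξ φ : ℤ → ℂ} (hd : LDat a N 0 P ε x₀ ξ φ) :
    ∃ P' : ℕ, ∀ x, ∃ ξ φ, LDat a N 0 P' (2 * ε) x ξ φ := by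
  obtain ⟨O, hO1, hO2, hO3⟩ := eventually_nhds_iff.1 (hd.near (by omega) hε)
  obtain ⟨K, hK⟩ := exists_gap hmin hO2 ⟨x₀, hO3⟩
  refine ⟨P + K, fun z => ?_⟩
  obtain ⟨k, hk1, hk2⟩ := hK z
  have h1 := (hO1 _ hk2).shift
  exact ⟨_, _, h1.mono hN (by positivity) (by omega) (by push_cast; omega)⟩

lemma RDat.all {a : CC p X h} {N P : ℕ} (hN : Band N a)
    (hmin : ∀ x : X, Dense (Set.range fun n : ℤ => (h ^ n) x)) {ε : ℝ} (hε : 0 < ε)
    {x₀ : X} {v y : ℤ → ℂ} (hd : RDat a N 0 P ε x₀ v y) :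
    ∃ P' : ℕ, ∀ x, ∃ v y, RDat a N 0 P' (2 * ε) x v y := by
  obtain ⟨O, hO1, hO2, hO3⟩ := eventually_nhds_iff.1 (hd.near (by omega) hε)
  obtain ⟨K, hK⟩ := exists_gap hmin hO2 ⟨x₀, hO3⟩
  refine ⟨P + K, fun z => ?_⟩
  obtain ⟨k, hk1, hk2⟩ := hK z
  have h1 := (hO1 _ hk2).shift
  exact ⟨_, _, h1.mono hN (by positivity) (by omega) (by push_cast; omega)⟩

/-- **left and right data at all points** -/
theorem bad_data {a : CC p X h} {N : ℕ} (hN : Band N a)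
    (hmin : ∀ x : X, Dense (Set.range fun n : ℤ => (h ^ n) x)) {ε : ℝ} (hε : 0 < ε)
    (hbad : (∃ x L, LB a N L ε x) ∨ ∃ x L, RB a N L ε x) :
    ∃ P : ℕ, ∀ x, (∃ ξ φ, LDat a N 0 P (2 * ε) x ξ φ) ∧ ∃ v y, RDat a N 0 P (2 * ε) x v y := by
  have h2ε : 0 ≤ 2 * ε := by positivity
  rcases hbad with ⟨x, L, hb⟩ | ⟨x, L, hb⟩
  · obtain ⟨ξ, φ, hd⟩ := hb.ldat hε.le
    obtain ⟨P, hP⟩ := hd.all hN hmin hε
    have h1 := LtoR hN h2ε hP
    refine ⟨(2 * N + 1) * P, fun x => ⟨?_, h1 x⟩⟩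
    obtain ⟨ξ, φ, hd⟩ := hP x
    refine ⟨ξ, φ, hd.mono hN h2ε le_rfl ?_⟩
    have : P ≤ (2 * N + 1) * P := Nat.le_mul_of_pos_left _ (by omega)
    exact_mod_cast this
  · obtain ⟨v, y, hd⟩ := hb.rdat hN hε
    obtain ⟨P, hP⟩ := hd.all hN hmin hε
    have h1 := RtoL hN h2ε hP
    refine ⟨(2 * N + 1) * P, fun x => ⟨h1 x, ?_⟩⟩
    obtain ⟨v, y, hd⟩ := hP x
    refine ⟨v, y, hd.mono hN h2ε le_rfl ?_⟩
    have : P ≤ (2 * N + 1) * P := Nat.le_mul_of_pos_left _ (by omega)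
    exact_mod_cast this

end H382FP
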