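import Mathlib
import Pool.Agent.H382R3.FG.All

/-!
# The layout of the windows (helper382, for MP_3ad462_an)
-/

set_option autoImplicit false
set_option linter.unusedSectionVars false

open scoped ENNReal
open MeasureTheory Topology

namespace H382FP

section scale

lemma R1.scale {r : ℝ} {s t : ℤ} {α β : ℤ → ℂ} {ε : ℝ} (h : R1 r s t α β ε) {c : ℂ}
    (hc : c ≠ 0) : R1 r s t (c⁻¹ • α) (c • β) ε := by
  intro z
  have e1 : ∑ j ∈ Finset.Ico s t, (c • β) j * z j = c * ∑ j ∈ Finset.Ico s t, β j * z j := by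
    rw [Finset.mul_sum]
    apply Finset.sum_congr rfl
    intro j _
    rw [Pi.smul_apply, smul_eq_mul, mul_assoc]
  have e2 : mass r (c⁻¹ • α) s t = (‖c‖ ^ r)⁻¹ * mass r α s t := by
    unfold mass
    rw [Finset.mul_sum]
    apply Finset.sum_congr rfl
    intro j _
    rw [Pi.smul_apply, smul_eq_mul, norm_mul, norm_inv, Real.mul_rpow (by positivity)
      (norm_nonneg _), Real.inv_rpow (norm_nonneg _)]
  have hc' : 0 < ‖c‖ ^ r := Real.rpow_pos_of_pos (norm_pos_iff.2 hc) _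
  rw [e1, e2, norm_mul, Real.mul_rpow (norm_nonneg _) (norm_nonneg _)]
  refine le_trans (le_of_eq ?_) (h z)
  field_simp

lemma Dual.scale {N : ℕ} {s t : ℤ} {ξ φ : ℤ → ℂ} (hd : Dual N s t ξ φ) {c : ℂ} (hc : c ≠ 0) :
    Dual N s t (c⁻¹ • ξ) (c • φ) := by
  refine ⟨fun i hi => hd.1 i ?_, fun i hi => hd.2.1 i ?_, ?_⟩
  · rw [Pi.smul_apply, smul_eq_mul] at hi
    exact right_ne_zero_of_mul hi
  · rw [Pi.smul_apply, smul_eq_mul] at hi
    exact right_ne_zero_of_mul hi
  · rw [← hd.2.2]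
    apply Finset.sum_congr rfl
    intro j _
    rw [Pi.smul_apply, Pi.smul_apply, smul_eq_mul, smul_eq_mul]
    field_simp

lemma Dual.exists_ne {N : ℕ} {s t : ℤ} {ξ φ : ℤ → ℂ} (hd : Dual N s t ξ φ) :
    ∃ i, ξ i ≠ 0 ∧ φ i ≠ 0 := by
  have h2 : ∃ i ∈ Finset.Ico s t, φ i * ξ i ≠ 0 := by
    apply Finset.exists_ne_zero_of_sum_ne_zero
    rw [hd.2.2]; exact one_ne_zero
  obtain ⟨i, _, hi⟩ := h2
  exact ⟨i, right_ne_zero_of_mul hi, left_ne_zero_of_mul hi⟩

end scale

variable {p : ℝ≥0∞} [Fact (1 ≤ p)] [hpt : Fact (p ≠ ∞)]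
variable {X : Type} [TopologicalSpace X] [CompactSpace X] {h : X ≃ₜ X}

lemma LDat.scale {a : CC p X h} {N : ℕ} {s t : ℤ} {ε : ℝ} {x : X} {ξ φ : ℤ → ℂ}
    (hd : LDat a N s t ε x ξ φ) {c : ℂ} (hc : c ≠ 0) :
    LDat a N s t ε x (c⁻¹ • ξ) (c • φ) := by
  refine ⟨hd.1.scale hc, ?_⟩
  rw [map_smul]
  exact hd.2.scale hc

lemma RDat.scale {a : CC p X h} {N : ℕ} {s t : ℤ} {ε : ℝ} {x : X} {v y : ℤ → ℂ}
    (hd : RDat a N s t ε x v y) {c : ℂ} (hc : c ≠ 0) :
    RDat a N s t ε x (c • v) (c⁻¹ • y) := by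
  refine ⟨hd.1.scale hc, ?_⟩
  have e1 : lf a x s t (c • v) = c • lf a x s t v := by
    funext j
    unfold lf
    rw [Pi.smul_apply, smul_eq_mul, Finset.mul_sum]
    apply Finset.sum_congr rfl
    intro i _
    rw [Pi.smul_apply, smul_eq_mul, mul_assoc]
  rw [e1]
  exact hd.2.scale hc

/-- the layout -/
structure Lay (a : CC p X h) (N P : ℕ) (R s : ℤ) (B : ℕ) (ε : ℝ) (y₀ : X)
    (ξ φ v y : ℕ → ℤ → ℂ) (C E : ℕ → ℤ) : Prop where
  wd : WData R s B ξ φ v y C E
  mL : MBZ p.toReal R (rk B (fun b => ev y₀ a (ξ b)) φ) ε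
  mR : MBZ p.toReal R (rk B y (fun b => lf a y₀ 0 R (v b))) ε
  ξs : ∀ b, b < B → ∀ i, ξ b i ≠ 0 → (N : ℤ) ≤ i ∧ i + N < R
  vN : ∀ b, b < B → ∀ i, v b i ≠ 0 → (N : ℤ) ≤ i ∧ i + N < R
  sep : ∀ b b', b < B → b' < B → ∀ k k', v b k ≠ 0 → ξ b' k' ≠ 0 → (N : ℤ) < |k - k'|
  bL : ∀ b, b < B → ∀ i j, ξ b i ≠ 0 → φ b j ≠ 0 → |i - j| ≤ (P : ℤ)
  bR : ∀ b, b < B → ∀ i j, y b i ≠ 0 → v b j ≠ 0 → |i - j| ≤ (P : ℤ)

lemma off_arith {b b' B : ℕ} {D : ℤ} (hD : 0 ≤ D) (hb : b < b') :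
    (B : ℤ) + (b : ℤ) * D + D ≤ (B : ℤ) + (b' : ℤ) * D := by
  have h1 : ((b : ℤ) + 1) * D ≤ (b' : ℤ) * D :=
    mul_le_mul_of_nonneg_right (by exact_mod_cast hb) hD
  rw [add_mul, one_mul] at h1
  omega

theorem exists_lay {a : CC p X h} {N P : ℕ} (hN : Band N a) {ε : ℝ} (hε : 0 ≤ ε)
    (hall : ∀ x, (∃ ξ φ, LDat a N 0 P ε x ξ φ) ∧ ∃ v y, RDat a N 0 P ε x v y) (y₀ : X)
    (s B : ℕ) : ∃ (R : ℤ) (ξ φ v y : ℕ → ℤ → ℂ) (C E : ℕ → ℤ),
      Lay a N P R s B ε y₀ ξ φ v y C E ∧ 0 ≤ R := by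
  have hr0 : 0 < p.toReal := prPos
  set D : ℤ := 2 * P + s + N with hD
  have hD0 : 0 ≤ D := by rw [hD]; positivity
  set o : ℕ → ℤ := fun b => (B : ℤ) + (b : ℤ) * D with ho
  set R : ℤ := o B with hR
  have hoB : ∀ b, (B : ℤ) ≤ o b := by
    intro b
    simp only [ho]
    have : 0 ≤ (b : ℤ) * D := by positivity
    omega
  have hstep : ∀ b b', b < b' → o b + D ≤ o b' := fun b b' hb => off_arith hD0 hb
  have hR0 : 0 ≤ R := by have := hoB B; omega
  -- left data
  have hL : ∀ b : ℕ, ∃ (C : ℤ) (ξ φ : ℤ → ℂ), LDat a N (o b) (P + o b) ε y₀ ξ φ ∧ ξ C = 1 := by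
    intro b
    obtain ⟨ξ, φ, h1⟩ := (hall ((h ^ (o b)) y₀)).1
    have h2 := h1.shift
    rw [zero_add] at h2
    obtain ⟨C, hC, _⟩ := h2.1.exists_ne
    refine ⟨C, _, _, h2.scale hC, ?_⟩
    rw [Pi.smul_apply, smul_eq_mul, inv_mul_cancel₀ hC]
  have hRt : ∀ b : ℕ, ∃ (d : ℤ) (v y : ℤ → ℂ), RDat a N (P + o b) (P + (P + o b)) ε y₀ v y ∧
      v d = 1 := by
    intro b
    obtain ⟨v, y, h1⟩ := (hall ((h ^ (P + o b)) y₀)).2
    have h2 := h1.shift
    rw [zero_add] at h2
    obtain ⟨d, _, hd⟩ := h2.1.exists_ne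
    refine ⟨d, _, _, h2.scale (inv_ne_zero hd), ?_⟩
    rw [Pi.smul_apply, smul_eq_mul, inv_mul_cancel₀ hd]
  choose C ξ φ hLd hξC using hL
  choose d v y hRd hvd using hRt
  have hCwin : ∀ b, o b + N ≤ C b ∧ C b < P + o b - N := by
    intro b
    exact (hLd b).1.1 (C b) (by rw [hξC]; exact one_ne_zero)
  have hdwin : ∀ b, P + o b + N ≤ d b ∧ d b < P + (P + o b) - N := by
    intro b
    exact (hRd b).1.2.1 (d b) (by rw [hvd]; exact one_ne_zero)
  have ξw : ∀ b i, ξ b i ≠ 0 → o b + N ≤ i ∧ i < P + o b - N := fun b => (hLd b).1.1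
  have φw : ∀ b i, φ b i ≠ 0 → o b + N ≤ i ∧ i < P + o b - N := fun b => (hLd b).1.2.1
  have yw : ∀ b i, y b i ≠ 0 → P + o b + N ≤ i ∧ i < P + (P + o b) - N := fun b => (hRd b).1.1
  have vw : ∀ b i, v b i ≠ 0 → P + o b + N ≤ i ∧ i < P + (P + o b) - N := fun b => (hRd b).1.2.1
  -- general positions
  have h0L : ∀ b, b < B → 0 ≤ o b := fun b _ => by have := hoB b; omega
  have hRL : ∀ b, b < B → P + o b ≤ R := fun b hb => by
    have := hstep b B hb; omega
  have hdL : ∀ b b', b < b' → b' < B → P + o b ≤ o b' := fun b b' hb _ => by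
    have := hstep b b' hb; omega
  have h0R : ∀ b, b < B → 0 ≤ P + o b := fun b _ => by have := hoB b; omega
  have hRR : ∀ b, b < B → P + (P + o b) ≤ R := fun b hb => by
    have := hstep b B hb; omega
  have hdR : ∀ b b', b < b' → b' < B → P + (P + o b) ≤ P + o b' := fun b b' hb _ => by
    have := hstep b b' hb; omega
  refine ⟨R, ξ, φ, v, y, C, fun b => d b + s, ⟨⟨?_, ?_, ?_, ?_, ?_, ?_, ?_, ?_, ?_, ?_, ?_⟩,
    ?_, ?_, ?_, ?_, ?_, ?_, ?_⟩, hR0⟩
  · -- dφξ
    exact prg_dual h0L hRL hdL (fun b _ => (hLd b).1)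
  · -- dvy
    exact prg_dual h0R hRR hdR (fun b _ => (hRd b).1)
  · -- ξC
    intro b b' hb hb'
    by_cases hbb : b = b'
    · rw [if_pos hbb, ← hbb, hξC]
    · rw [if_neg hbb]
      by_contra hne
      have h1 := ξw b' _ hne
      have h2 := hCwin b
      rcases lt_or_gt_of_ne hbb with h3 | h3
      · have := hstep b b' h3; omega
      · have := hstep b' b h3; omega
  · -- vE
    intro b b' hb hb'
    have e1 : d b' + (s : ℤ) - s = d b' := by ring
    show v b (d b' + (s : ℤ) - s) = _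
    rw [e1]
    by_cases hbb : b = b'
    · rw [if_pos hbb, ← hbb, hvd]
    · rw [if_neg hbb]
      by_contra hne
      have h1 := vw b _ hne
      have h2 := hdwin b'
      rcases lt_or_gt_of_ne hbb with h3 | h3
      · have := hstep b b' h3; omega
      · have := hstep b' b h3; omega
  · -- vC
    intro b b' hb hb'
    by_contra hne
    have h1 := vw b _ hne
    have h2 := hCwin b'
    rcases lt_trichotomy b b' with h3 | h3 | h3
    · have := hstep b b' h3; omega
    · subst h3; omega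
    · have := hstep b' b h3; omega
  · -- ξX
    intro b b' hb hb'
    by_contra hne
    have h1 := ξw b' _ hne
    have h2 := hoB b'
    omega
  · -- BC
    intro b hb
    have := hCwin b
    have := hoB b
    omega
  · -- CE
    intro b hb
    have := hCwin b
    have := hdwin b
    show C b < d b + s
    omega
  · -- ER
    intro b hb
    have := hdwin b
    have := hstep b B hb
    show d b + s < R
    omega
  · -- CEne
    intro b b' hb hb'
    show C b ≠ d b' + s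
    have h1 := hCwin b
    have h2 := hdwin b'
    rcases lt_trichotomy b b' with h3 | h3 | h3
    · have := hstep b b' h3; omega
    · subst h3; omega
    · have := hstep b' b h3; omega
  · -- vs
    intro b hb k hk
    by_contra hne
    have h1 := vw b k hne
    have h2 := hoB b
    have h3 := hstep b B hb
    apply hk
    omega
  · -- mL
    apply rk_MBZ hr0 h0L hRL hdL
    · intro b _ i hi
      exact ev_supp hN (hLd b).1.1 i hi
    · intro b _ i hi
      have := φw b i hi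
      omega
    · intro b _
      exact (hLd b).2
    · exact hε
  · -- mR
    have e1 : ∀ b, b < B → lf a y₀ 0 R (v b) = lf a y₀ (P + o b) (P + (P + o b)) (v b) := by
      intro b hb
      apply lf_mono (h0R b hb) (hRR b hb)
      intro i hi
      have := vw b i hi
      omega
    have e2 : rk B y (fun b => lf a y₀ 0 R (v b)) =
        rk B y (fun b => lf a y₀ (P + o b) (P + (P + o b)) (v b)) := by
      funext t j
      unfold rk
      apply Finset.sum_congr rfl
      intro b hb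
      rw [Finset.mem_range] at hb
      show y b t * lf a y₀ 0 R (v b) j = _
      rw [e1 b hb]
    rw [e2]
    apply rk_MBZ hr0 h0R hRR hdR
    · intro b _ i hi
      have := yw b i hi
      omega
    · intro b _ i hi
      exact lf_supp hN (hRd b).1.2.1 i hi
    · intro b _
      exact (hRd b).2
    · exact hε
  · -- ξs
    intro b hb i hi
    have h1 := ξw b i hi
    have h2 := hoB b
    have h3 := hstep b B hb
    omega
  · -- vN
    intro b hb i hi
    have h1 := vw b i hi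
    have h2 := hoB b
    have h3 := hstep b B hb
    omega
  · -- sep
    intro b b' hb hb' k k' hk hk'
    have h1 := vw b k hk
    have h2 := ξw b' k' hk'
    rw [lt_abs]
    rcases lt_trichotomy b b' with h3 | h3 | h3
    · have := hstep b b' h3; omega
    · subst h3; omega
    · have := hstep b' b h3; omega
  · -- bL
    intro b _ i j hi hj
    have h1 := ξw b i hi
    have h2 := φw b j hj
    rw [abs_le]
    omega
  · -- bR
    intro b _ i j hi hj
    have h1 := yw b i hi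
    have h2 := vw b j hj
    rw [abs_le]
    omega

end H382FP
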