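import Mathlib
import Pool.Agent.H382R3.FG.Lay

/-!
# Approximation by units (helper382, for MP_3ad462_an)
-/

set_option autoImplicit false
set_option linter.unusedSectionVars false

open scoped ENNReal
open MeasureTheory Topology

namespace H382FP

section top

variable {X : Type} [TopologicalSpace X] [CompactSpace X] {h : X ≃ₜ X}

lemma exists_F [T2Space X] [Infinite X]
    (hmin : ∀ x : X, Dense (Set.range fun n : ℤ => (h ^ n) x)) (y₀ : X) (R : ℤ) {O : Set X}
    (hO : O ∈ 𝓝 y₀) : ∃ F : Set X, IsClosed F ∧ F ∈ 𝓝 y₀ ∧ F ⊆ O ∧ Sep h F R := by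
  have hV : ∀ k : ℤ, ∃ V ∈ 𝓝 y₀, (0 < k → ∀ x ∈ V, (h ^ k) x ∉ V) := by
    intro k
    by_cases hk : 0 < k
    · have hne : (h ^ k) y₀ ≠ y₀ := by
        have := aperiodic hmin y₀ (n := k.toNat) (by omega)
        rwa [Int.toNat_of_nonneg hk.le] at this
      obtain ⟨U, V, hU, hV, hyU, hyV, hUV⟩ := t2_separation hne.symm
      refine ⟨U ∩ (h ^ k : X ≃ₜ X) ⁻¹' V, ?_, fun _ x hx hx2 => ?_⟩
      · exact Filter.inter_mem (hU.mem_nhds hyU)
          ((hV.preimage (h ^ k).continuous).mem_nhds hyV)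
      · exact Set.disjoint_left.1 hUV hx2.1 hx.2
    · exact ⟨Set.univ, Filter.univ_mem, fun h1 => absurd h1 hk⟩
  choose V hV1 hV2 using hV
  have hW : (O ∩ ⋂ k ∈ Finset.Ico 1 R, V k) ∈ 𝓝 y₀ :=
    Filter.inter_mem hO ((Filter.biInter_finset_mem _).2 fun k _ => hV1 k)
  obtain ⟨F, hF1, hF2, hF3⟩ := exists_mem_nhds_isClosed_subset hW
  refine ⟨F, hF2, hF1, fun x hx => (hF3 hx).1, ?_⟩
  intro x hx k hk1 hk2 hmem
  have h1 := (hF3 hx).2
  have h2 := (hF3 hmem).2
  rw [Set.mem_iInter₂] at h1 h2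
  have hk : k ∈ Finset.Ico 1 R := Finset.mem_Ico.2 ⟨by omega, hk2⟩
  exact hV2 k hk1 x (h1 k hk) (h2 k hk)

lemma exists_w [T2Space X] {y₀ : X} {F : Set X} (hF' : F ∈ 𝓝 y₀) :
    ∃ w1 w3 w4 : C(X, ℂ), (∀ x, x ∉ F → w1 x = 0) ∧ (∀ x, x ∉ F → w3 x = 0) ∧
      (∀ x, x ∉ F → w4 x = 0) ∧ w3 * w1 = w3 ∧ w4 * w3 = w4 ∧ (∀ x, ‖w1 x‖ ≤ 1) ∧
      ∃ O : Set X, IsOpen O ∧ y₀ ∈ O ∧ ∀ x ∈ O, w4 x = 1 := by
  have hy : y₀ ∈ interior F := mem_interior_iff_mem_nhds.2 hF'
  obtain ⟨f, hf0, hf1, hf2⟩ := exists_continuous_zero_one_of_isClosed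
    (isOpen_interior (s := F)).isClosed_compl (isClosed_singleton (x := y₀))
    (Set.disjoint_singleton_right.2 (fun h1 => h1 hy))
  have hout : ∀ x, x ∉ F → f x = 0 := fun x hx => hf0 (fun h1 => hx (interior_subset h1))
  refine ⟨⟨fun x => ((min 1 (4 * f x) : ℝ) : ℂ), by fun_prop⟩,
    ⟨fun x => ((min 1 (max 0 (4 * f x - 1)) : ℝ) : ℂ), by fun_prop⟩,
    ⟨fun x => ((min 1 (max 0 (4 * f x - 2)) : ℝ) : ℂ), by fun_prop⟩, ?_, ?_, ?_, ?_, ?_, ?_, ?_⟩
  · intro x hx
    show ((min 1 (4 * f x) : ℝ) : ℂ) = 0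
    rw [hout x hx]; norm_num
  · intro x hx
    show ((min 1 (max 0 (4 * f x - 1)) : ℝ) : ℂ) = 0
    rw [hout x hx]; norm_num
  · intro x hx
    show ((min 1 (max 0 (4 * f x - 2)) : ℝ) : ℂ) = 0
    rw [hout x hx]; norm_num
  · ext x
    show ((min 1 (max 0 (4 * f x - 1)) : ℝ) : ℂ) * ((min 1 (4 * f x) : ℝ) : ℂ) =
      ((min 1 (max 0 (4 * f x - 1)) : ℝ) : ℂ)
    rw [← Complex.ofReal_mul]
    congr 1
    rcases le_or_gt 1 (4 * f x) with h1 | h1
    · rw [min_eq_left h1, mul_one]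
    · have : max 0 (4 * f x - 1) = 0 := max_eq_left (by linarith)
      rw [this]; norm_num
  · ext x
    show ((min 1 (max 0 (4 * f x - 2)) : ℝ) : ℂ) * ((min 1 (max 0 (4 * f x - 1)) : ℝ) : ℂ) =
      ((min 1 (max 0 (4 * f x - 2)) : ℝ) : ℂ)
    rw [← Complex.ofReal_mul]
    congr 1
    rcases le_or_gt 2 (4 * f x) with h1 | h1
    · have : min 1 (max 0 (4 * f x - 1)) = 1 := min_eq_left (le_max_of_le_right (by linarith))
      rw [this, mul_one]
    · have : max 0 (4 * f x - 2) = 0 := max_eq_left (by linarith)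
      rw [this]; norm_num
  · intro x
    show ‖((min 1 (4 * f x) : ℝ) : ℂ)‖ ≤ 1
    rw [Complex.norm_real, Real.norm_of_nonneg (le_min zero_le_one (by linarith [(hf2 x).1]))]
    exact min_le_left _ _
  · refine ⟨{x | 3 / 4 < f x}, isOpen_lt continuous_const f.continuous, ?_, ?_⟩
    · have : f y₀ = 1 := hf1 rfl
      show 3 / 4 < f y₀
      rw [this]; norm_num
    · intro x hx
      have hx' : 3 / 4 < f x := hx
      show ((min 1 (max 0 (4 * f x - 2)) : ℝ) : ℂ) = 1
      rw [min_eq_left (le_max_of_le_right (by linarith))]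
      norm_num

lemma back_gap (hmin : ∀ x : X, Dense (Set.range fun n : ℤ => (h ^ n) x)) {O : Set X}
    (hO : IsOpen O) (hne : O.Nonempty) :
    ∃ J : ℕ, ∀ x : X, ∃ k : ℕ, k < J ∧ (h ^ (-(k : ℤ))) x ∈ O := by
  obtain ⟨K, hK⟩ := exists_gap hmin hO hne
  refine ⟨K + 1, fun x => ?_⟩
  obtain ⟨k, hk1, hk2⟩ := hK ((h ^ (-(K : ℤ))) x)
  rw [hz_add] at hk2
  refine ⟨K - k, by omega, ?_⟩
  have e : -(((K - k : ℕ)) : ℤ) = (k : ℤ) + -(K : ℤ) := by
    rw [Nat.cast_sub hk1.le]; ring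
  rw [e]
  exact hk2

end top

variable {p : ℝ≥0∞} [Fact (1 ≤ p)] [hpt : Fact (p ≠ ∞)]
variable {X : Type} [TopologicalSpace X] [CompactSpace X] {h : X ≃ₜ X}

/-- scalars -/
noncomputable def cs (c : ℂ) : CC p X h := sgl 0 (ContinuousMap.const X c)

lemma ev_cs (c : ℂ) (x : X) (ξ : ℤ → ℂ) (i : ℤ) : ev x (cs c : CC p X h) ξ i = c * ξ i := by
  unfold cs
  rw [ev_sgl, sub_zero]
  rfl

lemma cs_comm (c : ℂ) (a : CC p X h) : Commute (cs c) a := by
  apply CC.ext
  intro x ξ
  rw [ev_mul_apply, ev_mul_apply, ev_cs]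
  have : ev x (cs c : CC p X h) ξ = c • ξ := by
    funext i
    rw [ev_cs, Pi.smul_apply, smul_eq_mul]
  rw [this, map_smul, Pi.smul_apply, smul_eq_mul]

lemma cs_mul (c d : ℂ) : (cs c * cs d : CC p X h) = cs (c * d) := by
  apply CC.ext
  intro x ξ
  rw [ev_mul_apply, ev_cs, ev_cs, ev_cs, mul_assoc]

lemma cs_one : (cs 1 : CC p X h) = 1 := by
  apply CC.ext
  intro x ξ
  rw [ev_cs, ev_one_apply, one_mul]

lemma norm_cs_le (c : ℂ) : ‖(cs c : CC p X h)‖ ≤ ‖c‖ := by
  refine (norm_sgl_le _ _).trans ?_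
  rw [ContinuousMap.norm_le _ (norm_nonneg _)]
  intro x
  exact le_rfl

/-- elements with a nilpotent multiple are limits of units -/
lemma unit_near {A : CC p X h} {Θ : CC p X h} (hΘ : IsUnit Θ) {J : ℕ}
    (hnil : (Θ * A) ^ (J + 1) = 0) {η : ℝ} (hη : 0 < η) :
    ∃ U : CC p X h, IsUnit U ∧ ‖A - U‖ ≤ η := by
  obtain ⟨θ, rfl⟩ := hΘ
  set ti : CC p X h := ((θ⁻¹ : (CC p X h)ˣ) : CC p X h) with hti
  set r : ℝ := η / (‖ti‖ + 1) with hr
  have hr0 : 0 < r := by positivity
  set c : ℂ := (r : ℂ) with hc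
  have hc0 : c ≠ 0 := by rw [hc]; exact_mod_cast hr0.ne'
  set S : CC p X h := θ * A with hS
  have hu1 : IsUnit (cs c : CC p X h) :=
    ⟨⟨cs c, cs c⁻¹, by rw [cs_mul, mul_inv_cancel₀ hc0, cs_one],
      by rw [cs_mul, inv_mul_cancel₀ hc0, cs_one]⟩, rfl⟩
  have hnil2 : IsNilpotent (cs c⁻¹ * S) := by
    refine ⟨J + 1, ?_⟩
    rw [(cs_comm c⁻¹ S).mul_pow, hnil, mul_zero]
  have hu2 : IsUnit (S + cs c) := by
    have e1 : S + cs c = cs c * (1 + cs c⁻¹ * S) := by
      rw [mul_add, mul_one, ← mul_assoc, cs_mul, mul_inv_cancel₀ hc0, cs_one, one_mul, add_comm]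
    rw [e1]
    exact hu1.mul hnil2.isUnit_one_add
  refine ⟨ti * (S + cs c), (Units.isUnit θ⁻¹).mul hu2, ?_⟩
  have e2 : A - ti * (S + cs c) = -(ti * cs c) := by
    rw [mul_add, hS, ← mul_assoc, hti, Units.inv_mul, one_mul]; abel
  rw [e2, norm_neg]
  calc ‖ti * cs c‖ ≤ ‖ti‖ * ‖(cs c : CC p X h)‖ := norm_mul_le _ _
    _ ≤ ‖ti‖ * r := by
        apply mul_le_mul_of_nonneg_left _ (norm_nonneg _)
        refine (norm_cs_le c).trans (le_of_eq ?_)
        rw [hc, Complex.norm_real, Real.norm_of_nonneg hr0.le]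
    _ ≤ η := by
        rw [hr, mul_div_assoc', div_le_iff₀ (by positivity)]
        nlinarith [norm_nonneg ti]

lemma rk_ne {B : ℕ} {α β : ℕ → ℤ → ℂ} {t j : ℤ} (hne : rk B α β t j ≠ 0) :
    ∃ b, b < B ∧ α b t ≠ 0 ∧ β b j ≠ 0 := by
  unfold rk at hne
  obtain ⟨b, hb, hb2⟩ := Finset.exists_ne_zero_of_sum_ne_zero hne
  exact ⟨b, Finset.mem_range.1 hb, left_ne_zero_of_mul hb2, right_ne_zero_of_mul hb2⟩

/-- **approximation by units from a layout** -/
theorem lay_approx [T2Space X] [Infinite X]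
    (hmin : ∀ x : X, Dense (Set.range fun n : ℤ => (h ^ n) x)) {a : CC p X h} {N P : ℕ}
    (hN : Band N a) {R : ℤ} {s B : ℕ} {ε : ℝ} (hε : 0 ≤ ε) {y₀ : X} {ξ φ v y : ℕ → ℤ → ℂ}
    {C E : ℕ → ℤ} (hl : Lay a N P R s B ε y₀ ξ φ v y C E) (hR : 0 ≤ R)
    (hs : s = 2 * P + N + 1) (hB : B = 2 * s) {η : ℝ} (hη : 0 < η) :
    ∃ U : CC p X h, IsUnit U ∧ ‖a - U‖ ≤ 2 * ε + η := by
  classical
  set ML : ℤ → ℤ → ℂ := rk B ξ φ with hML
  set MR : ℤ → ℤ → ℂ := rk B y v with hMR
  set K : ℝ := ∑ k ∈ Finset.Ico 0 R, ∑ j ∈ Finset.Ico 0 R, (‖ML k j‖ + ‖MR k j‖) with hK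
  have hKle : ∀ k j : ℤ, 0 ≤ k → k < R → 0 ≤ j → j < R → ‖ML k j‖ + ‖MR k j‖ ≤ K := by
    intro k j h1 h2 h3 h4
    have e1 := Finset.single_le_sum (f := fun j => ‖ML k j‖ + ‖MR k j‖)
      (fun _ _ => by positivity) (Finset.mem_Ico.2 ⟨h3, h4⟩)
    have e2 := Finset.single_le_sum
      (f := fun k => ∑ j ∈ Finset.Ico 0 R, (‖ML k j‖ + ‖MR k j‖))
      (fun _ _ => Finset.sum_nonneg fun _ _ => by positivity) (Finset.mem_Ico.2 ⟨h1, h2⟩)
    exact e1.trans e2
  have hK0 : 0 ≤ K := Finset.sum_nonneg fun _ _ => Finset.sum_nonneg fun _ _ => by positivity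
  have hRr : (0 : ℝ) ≤ (R : ℝ) := by exact_mod_cast hR
  set δ : ℝ := (η / 4) / (R * R * (R * K) + 1) with hδ
  have hδ0 : 0 < δ := by positivity
  have hδη : (R : ℝ) * R * (R * (δ * K)) ≤ η / 4 := by
    have : (R : ℝ) * R * (R * (δ * K)) = (R * R * (R * K)) * δ := by ring
    rw [this, hδ, mul_div_assoc', div_le_iff₀ (by positivity)]
    have h0 : (0 : ℝ) ≤ R * R * (R * K) := by positivity
    nlinarith
  -- the neighbourhood
  have hO : {x : X | ∀ t ∈ Finset.Ico 0 R, ∀ k ∈ Finset.Ico 0 R,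
      ‖Kr a t k x - Kr a t k y₀‖ < δ} ∈ 𝓝 y₀ := by
    have h1 : ∀ᶠ x in 𝓝 y₀, ∀ t ∈ Finset.Ico 0 R, ∀ k ∈ Finset.Ico 0 R,
        ‖Kr a t k x - Kr a t k y₀‖ < δ := by
      rw [Finset.eventually_all]
      intro t _
      rw [Finset.eventually_all]
      intro k _
      have hc : Continuous (fun x : X => ‖Kr a t k x - Kr a t k y₀‖) :=
        ((Kr a t k).continuous.sub continuous_const).norm
      apply hc.continuousAt.eventually_lt continuousAt_const
      rw [sub_self, norm_zero]; exact hδ0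
    exact h1
  obtain ⟨F, hFc, hFn, hFO, hSep⟩ := exists_F hmin y₀ R hO
  obtain ⟨w1, w3, w4, hw1, hw3, hw4, h13, h34, hw1n, O, hO1, hO2, hO3⟩ := exists_w hFn
  obtain ⟨J, hJ⟩ := back_gap (h := h) hmin hO1 ⟨y₀, hO2⟩
  set eL : CC p X h := vel R w1 MR with heL
  set eR : CC p X h := vel R w1 ML with heR
  have hAmod : Amod a R B w1 ξ φ v y = (1 - eL) * a * (1 - eR) := rfl
  -- band
  have bL : Band P eR := by
    rw [heR]
    unfold vel
    apply band_cel
    intro t j htj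
    by_cases hz : ML t j = 0
    · rw [hz, zero_smul]
    · obtain ⟨b, hb, h1, h2⟩ := rk_ne hz
      have := hl.bL b hb t j h1 h2
      omega
  have bR : Band P eL := by
    rw [heL]
    unfold vel
    apply band_cel
    intro t j htj
    by_cases hz : MR t j = 0
    · rw [hz, zero_smul]
    · obtain ⟨b, hb, h1, h2⟩ := rk_ne hz
      have := hl.bR b hb t j h1 h2
      omega
  have hband : Band (P + N + P) (Amod a R B w1 ξ φ v y) := by
    rw [hAmod]
    exact (((band_one.mono (Nat.zero_le _)).sub bR).mul hN).mul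
      ((band_one.mono (Nat.zero_le _)).sub bL)
  obtain ⟨Θ, hΘ1, hΘ2⟩ := nil_main hl.wd hSep hw1 hw3 hw4 h13 h34 hband
    (by push_cast; omega) (by push_cast; omega)
    (J := J) (fun x => by
      obtain ⟨k, hk1, hk2⟩ := hJ x
      exact ⟨k, hk1, hO3 _ hk2⟩)
  obtain ⟨U, hU1, hU2⟩ := unit_near hΘ1 hΘ2 (show 0 < η / 2 by positivity)
  refine ⟨U, hU1, ?_⟩
  -- supports
  have hMLs : ∀ k j, ¬((N : ℤ) ≤ k ∧ k + N < R) → ML k j • w1 = 0 := by
    intro k j hk
    by_cases hz : ML k j = 0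
    · rw [hz, zero_smul]
    · obtain ⟨b, hb, h1, _⟩ := rk_ne hz
      exact absurd (hl.ξs b hb k h1) hk
  have hMRs : ∀ t k, ¬((N : ℤ) ≤ k ∧ k + N < R) → MR t k • w1 = 0 := by
    intro t k hk
    by_cases hz : MR t k = 0
    · rw [hz, zero_smul]
    · obtain ⟨b, hb, _, h2⟩ := rk_ne hz
      exact absurd (hl.vN b hb k h2) hk
  -- the right term
  have eqR : a * eR = cel R (fun t j => ∑ k ∈ Finset.Ico 0 R, Kr a t k * (ML k j • w1)) := by
    rw [heR]
    unfold vel
    exact mul_cel hN hMLs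
  have eqL : eL * a = cel R (fun t j => ∑ k ∈ Finset.Ico 0 R, (MR t k • w1) * Kr a k j) := by
    rw [heL]
    unfold vel
    exact cel_mul_right hN hMRs
  have cross : eL * (a * eR) = 0 := by
    rw [eqR, heL]
    unfold vel
    rw [cel_mul hSep (off_vel hw1 MR) (by
      intro t j x hx
      rw [ContinuousMap.sum_apply]
      apply Finset.sum_eq_zero
      intro k _
      rw [ContinuousMap.mul_apply, ContinuousMap.smul_apply, hw1 x hx, smul_zero, mul_zero]),
      ← cel_zero R]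
    apply cel_congr
    intro t j _ _ _ _
    apply Finset.sum_eq_zero
    intro k _
    rw [Finset.mul_sum]
    apply Finset.sum_eq_zero
    intro k' _
    by_cases hz : MR t k = 0
    · rw [hz, zero_smul, zero_mul]
    · by_cases hz' : ML k' j = 0
      · rw [hz', zero_smul, mul_zero, mul_zero]
      · obtain ⟨b, hb, _, h2⟩ := rk_ne hz
        obtain ⟨b', hb', h3, _⟩ := rk_ne hz'
        have h4 := hl.sep b b' hb hb' k k' h2 h3
        have h5 : Kr a k k' = 0 := by
          unfold Kr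
          rw [hN _ h4]
          rfl
        rw [h5, zero_mul, mul_zero]
  -- estimates
  have estR : ‖a * eR‖ ≤ ε + η / 4 := by
    have h1 : ‖a * eR - vel R w1 (rk B (fun b => ev y₀ a (ξ b)) φ)‖ ≤ R * R * (R * (δ * K)) := by
      rw [eqR]
      unfold vel
      rw [← cel_sub]
      apply norm_cel_le hR
      intro t j ht0 htR hj0 hjR
      rw [ContinuousMap.norm_le _ (by positivity)]
      intro x
      have e1 : rk B (fun b => ev y₀ a (ξ b)) φ t j =
          ∑ k ∈ Finset.Ico 0 R, Kr a t k y₀ * ML k j := by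
        rw [hML]
        unfold rk
        simp only [Finset.mul_sum]
        rw [Finset.sum_comm]
        apply Finset.sum_congr rfl
        intro b hb
        rw [Finset.mem_range] at hb
        rw [ev_Kr hN y₀ (ξ b) t (s := 0) (t := R) (fun i _ _ hi => by
          have := hl.ξs b hb i hi; omega), Finset.sum_mul]
        apply Finset.sum_congr rfl
        intro k _
        ring
      have e2 : (∑ k ∈ Finset.Ico 0 R, Kr a t k * (ML k j • w1) -
          rk B (fun b => ev y₀ a (ξ b)) φ t j • w1) x =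
          ∑ k ∈ Finset.Ico 0 R, (Kr a t k x - Kr a t k y₀) * (ML k j * w1 x) := by
        rw [ContinuousMap.sub_apply, ContinuousMap.sum_apply, ContinuousMap.smul_apply, e1,
          Finset.sum_smul, ← Finset.sum_sub_distrib]
        apply Finset.sum_congr rfl
        intro k _
        rw [ContinuousMap.mul_apply, ContinuousMap.smul_apply, smul_eq_mul, smul_eq_mul]
        ring
      rw [e2]
      by_cases hx : x ∈ F
      · calc ‖∑ k ∈ Finset.Ico 0 R, (Kr a t k x - Kr a t k y₀) * (ML k j * w1 x)‖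
            ≤ ∑ k ∈ Finset.Ico 0 R, δ * K := by
              refine (norm_sum_le _ _).trans (Finset.sum_le_sum fun k hk => ?_)
              rw [norm_mul, norm_mul]
              have h2 := (hFO hx t (Finset.mem_Ico.2 ⟨ht0, htR⟩) k hk).le
              rw [Finset.mem_Ico] at hk
              have h3 := hKle k j hk.1 hk.2 hj0 hjR
              have h4 : ‖ML k j‖ * ‖w1 x‖ ≤ K := by
                calc ‖ML k j‖ * ‖w1 x‖ ≤ ‖ML k j‖ * 1 :=
                      mul_le_mul_of_nonneg_left (hw1n x) (norm_nonneg _)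
                  _ ≤ K := by rw [mul_one]; linarith [norm_nonneg (MR k j)]
              exact mul_le_mul h2 h4 (by positivity) hδ0.le
          _ = R * (δ * K) := by
              rw [Finset.sum_const, nsmul_eq_mul, Int.card_Ico, sub_zero]
              congr 1
              have : ((R.toNat : ℕ) : ℤ) = R := Int.toNat_of_nonneg hR
              exact_mod_cast congrArg (fun z : ℤ => (z : ℝ)) this
      · rw [Finset.sum_eq_zero]
        · rw [norm_zero]; positivity
        · intro k _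
          rw [hw1 x hx, mul_zero, mul_zero]
    have h2 : ‖(vel R w1 (rk B (fun b => ev y₀ a (ξ b)) φ) : CC p X h)‖ ≤ ε :=
      norm_vel_le hFc hSep hw1 hw1n hε hl.mL
    have h3 : a * eR = (a * eR - vel R w1 (rk B (fun b => ev y₀ a (ξ b)) φ)) +
        vel R w1 (rk B (fun b => ev y₀ a (ξ b)) φ) := by abel
    rw [h3]
    refine (norm_add_le _ _).trans ?_
    linarith
  have estL : ‖eL * a‖ ≤ ε + η / 4 := by
    have h1 : ‖eL * a - vel R w1 (rk B y (fun b => lf a y₀ 0 R (v b)))‖ ≤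
        R * R * (R * (δ * K)) := by
      rw [eqL]
      unfold vel
      rw [← cel_sub]
      apply norm_cel_le hR
      intro t j ht0 htR hj0 hjR
      rw [ContinuousMap.norm_le _ (by positivity)]
      intro x
      have e1 : rk B y (fun b => lf a y₀ 0 R (v b)) t j =
          ∑ k ∈ Finset.Ico 0 R, MR t k * Kr a k j y₀ := by
        rw [hMR]
        unfold rk lf
        simp only [Finset.mul_sum, Finset.sum_mul]
        rw [Finset.sum_comm]
        apply Finset.sum_congr rfl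
        intro b _
        apply Finset.sum_congr rfl
        intro k _
        ring
      have e2 : (∑ k ∈ Finset.Ico 0 R, (MR t k • w1) * Kr a k j -
          rk B y (fun b => lf a y₀ 0 R (v b)) t j • w1) x =
          ∑ k ∈ Finset.Ico 0 R, (Kr a k j x - Kr a k j y₀) * (MR t k * w1 x) := by
        rw [ContinuousMap.sub_apply, ContinuousMap.sum_apply, ContinuousMap.smul_apply, e1,
          Finset.sum_smul, ← Finset.sum_sub_distrib]
        apply Finset.sum_congr rfl
        intro k _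
        rw [ContinuousMap.mul_apply, ContinuousMap.smul_apply, smul_eq_mul, smul_eq_mul]
        ring
      rw [e2]
      by_cases hx : x ∈ F
      · calc ‖∑ k ∈ Finset.Ico 0 R, (Kr a k j x - Kr a k j y₀) * (MR t k * w1 x)‖
            ≤ ∑ k ∈ Finset.Ico 0 R, δ * K := by
              refine (norm_sum_le _ _).trans (Finset.sum_le_sum fun k hk => ?_)
              rw [norm_mul, norm_mul]
              have h2 := (hFO hx k hk j (Finset.mem_Ico.2 ⟨hj0, hjR⟩)).le
              rw [Finset.mem_Ico] at hk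
              have h3 := hKle t k ht0 htR hk.1 hk.2
              have h4 : ‖MR t k‖ * ‖w1 x‖ ≤ K := by
                calc ‖MR t k‖ * ‖w1 x‖ ≤ ‖MR t k‖ * 1 :=
                      mul_le_mul_of_nonneg_left (hw1n x) (norm_nonneg _)
                  _ ≤ K := by rw [mul_one]; linarith [norm_nonneg (ML t k)]
              exact mul_le_mul h2 h4 (by positivity) hδ0.le
          _ = R * (δ * K) := by
              rw [Finset.sum_const, nsmul_eq_mul, Int.card_Ico, sub_zero]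
              congr 1
              have : ((R.toNat : ℕ) : ℤ) = R := Int.toNat_of_nonneg hR
              exact_mod_cast congrArg (fun z : ℤ => (z : ℝ)) this
      · rw [Finset.sum_eq_zero]
        · rw [norm_zero]; positivity
        · intro k _
          rw [hw1 x hx, mul_zero, mul_zero]
    have h2 : ‖(vel R w1 (rk B y (fun b => lf a y₀ 0 R (v b))) : CC p X h)‖ ≤ ε :=
      norm_vel_le hFc hSep hw1 hw1n hε hl.mR
    have h3 : eL * a = (eL * a - vel R w1 (rk B y (fun b => lf a y₀ 0 R (v b)))) +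
        vel R w1 (rk B y (fun b => lf a y₀ 0 R (v b))) := by abel
    rw [h3]
    refine (norm_add_le _ _).trans ?_
    linarith
  have hfin : a - U = (Amod a R B w1 ξ φ v y - U) + (eL * a + a * eR) := by
    rw [hAmod]
    have : (1 - eL) * a * (1 - eR) = a - eL * a - a * eR + eL * (a * eR) := by noncomm_ring
    rw [this, cross]
    abel
  rw [hfin]
  calc _ ≤ ‖Amod a R B w1 ξ φ v y - U‖ + ‖eL * a + a * eR‖ := norm_add_le _ _
    _ ≤ η / 2 + (‖eL * a‖ + ‖a * eR‖) := add_le_add hU2 (norm_add_le _ _)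
    _ ≤ 2 * ε + η := by linarith

/-- **approximation of elements of `C_c(ℤ, C(X))`** -/
theorem approx_CC [T2Space X] [Infinite X]
    (hmin : ∀ x : X, Dense (Set.range fun n : ℤ => (h ^ n) x)) (a : CC p X h)
    {η : ℝ} (hη : 0 < η) : ∃ u : FpR p X h, IsUnit u ∧ ‖(a : FpR p X h) - u‖ ≤ η := by
  obtain ⟨N, hN⟩ := exists_band a
  set ε : ℝ := η / 8 with hε
  have hε0 : 0 < ε := by positivity
  by_cases hbad : (∃ x L, LB a N L ε x) ∨ ∃ x L, RB a N L ε x
  · obtain ⟨P, hP⟩ := bad_data hN hmin hε0 hbad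
    obtain ⟨y₀⟩ : Nonempty X := inferInstance
    obtain ⟨R, ξ, φ, v, y, C, E, hl, hR⟩ := exists_lay hN (show 0 ≤ 2 * ε by positivity) hP y₀
      (2 * P + N + 1) (2 * (2 * P + N + 1))
    obtain ⟨U, hU1, hU2⟩ := lay_approx hmin hN (show 0 ≤ 2 * ε by positivity) hl hR rfl rfl
      (show 0 < η / 2 by positivity)
    refine ⟨(U : FpR p X h), hU1.map (UniformSpace.Completion.coeRingHom (α := CC p X h)), ?_⟩
    rw [← UniformSpace.Completion.coe_sub, UniformSpace.Completion.norm_coe]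
    refine hU2.trans ?_
    rw [hε]
    linarith
  · push Not at hbad
    refine ⟨a, good_case_c hε0 hN hbad.1 hbad.2, ?_⟩
    rw [sub_self, norm_zero]
    exact hη.le

/-- **density of the invertible elements** -/
theorem dense_units_c [T2Space X] [Infinite X]
    (hmin : ∀ x : X, Dense (Set.range fun n : ℤ => (h ^ n) x)) :
    Dense {a : FpR p X h | IsUnit a} := by
  rw [Metric.dense_iff]
  intro b η hη
  have hd : Dense (Set.range ((↑) : CC p X h → FpR p X h)) :=
    UniformSpace.Completion.denseRange_coe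
  obtain ⟨_, hb1, a, rfl⟩ := Metric.dense_iff.1 hd b (η / 4) (by positivity)
  rw [Metric.mem_ball, dist_eq_norm] at hb1
  obtain ⟨u, hu1, hu2⟩ := approx_CC hmin a (show 0 < η / 4 by positivity)
  refine ⟨u, ?_, hu1⟩
  rw [Metric.mem_ball, dist_eq_norm]
  have h2 : u - b = -((a : FpR p X h) - u) + ((a : FpR p X h) - b) := by
    abel
  rw [h2]
  calc ‖-((a : FpR p X h) - u) + ((a : FpR p X h) - b)‖
      ≤ ‖-((a : FpR p X h) - u)‖ + ‖(a : FpR p X h) - b‖ := norm_add_le _ _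
    _ < η := by rw [norm_neg]; linarith

end H382FP
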