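import Mathlib
import Pool.Agent.H382R3.FG.Fin

/-!
# Irrational rotations (helper382, for MP_3ad462_an)
-/

set_option autoImplicit false
set_option linter.unusedSectionVars false

open scoped ENNReal
open MeasureTheory Topology

namespace H382FP

lemma mulLeft_zpow {G : Type*} [TopologicalSpace G] [Group G] [IsTopologicalGroup G] (g z : G)
    (n : ℤ) : ((Homeomorph.mulLeft g) ^ n) z = g ^ n * z := by
  induction n generalizing z with
  | zero => simp
  | succ k ih =>
    rw [zpow_add_one]
    show ((Homeomorph.mulLeft g) ^ (k : ℤ)) (g * z) = _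
    rw [ih, zpow_add_one, mul_assoc]
  | pred k ih =>
    rw [zpow_sub_one]
    show ((Homeomorph.mulLeft g) ^ (-(k : ℤ))) (g⁻¹ * z) = _
    rw [ih, zpow_sub_one, mul_assoc]

lemma dense_rotation {θ : ℝ} (hθ : Irrational θ) (z : Circle) :
    Dense (Set.range fun n : ℤ =>
      ((Homeomorph.mulLeft (Circle.exp (2 * Real.pi * θ))) ^ n) z) := by
  have h1 : DenseRange (· • (θ : AddCircle (1 : ℝ)) : ℤ → AddCircle (1 : ℝ)) :=
    AddCircle.denseRange_zsmul_coe_iff.2 (by rwa [div_one])
  have h2 : Function.Surjective (fun w : AddCircle (1 : ℝ) => AddCircle.toCircle w * z) := by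
    intro w
    obtain ⟨u, hu⟩ := (AddCircle.homeomorphCircle (one_ne_zero (α := ℝ))).surjective (w * z⁻¹)
    refine ⟨u, ?_⟩
    rw [AddCircle.homeomorphCircle_apply] at hu
    show AddCircle.toCircle u * z = w
    rw [hu, inv_mul_cancel_right]
  have h3 : Continuous (fun w : AddCircle (1 : ℝ) => AddCircle.toCircle w * z) :=
    AddCircle.continuous_toCircle.mul continuous_const
  have h4 := h2.denseRange.comp h1 h3
  have h5 : (fun n : ℤ => ((Homeomorph.mulLeft (Circle.exp (2 * Real.pi * θ))) ^ n) z) =
      (fun w : AddCircle (1 : ℝ) => AddCircle.toCircle w * z) ∘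
        (· • (θ : AddCircle (1 : ℝ)) : ℤ → AddCircle (1 : ℝ)) := by
    funext n
    rw [mulLeft_zpow]
    show _ = AddCircle.toCircle (n • (θ : AddCircle (1 : ℝ))) * z
    rw [AddCircle.toCircle_zsmul, AddCircle.toCircle_apply_mk, div_one]
  rw [h5]
  exact h4

instance : Infinite Circle := by
  have h1 : Infinite (Set.Ioc (-Real.pi) Real.pi) :=
    (Set.Ioc_infinite (by linarith [Real.pi_pos])).to_subtype
  exact Circle.argEquiv.infinite_iff.2 h1

end H382FP
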